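import Mathlib.Algebra.AffineMonoid.Basic
import Mathlib.GroupTheory.FiniteAbelian.Basic
import Mathlib.GroupTheory.IndexNSmul
import Mathlib.NumberTheory.Height.NumberField
import Mathlib.RingTheory.TotallySplit
import Pool.Agent.MP_a43263_nt.MW

/-! Coordinates on the 2-covering of `y ^ 2 = x (x - a) (x - b)` and general tools. -/

namespace Pool.Agent.MP_a43263_nt.Two

open WeierstrassCurve WeierstrassCurve.Affine

section alg

variable {F : Type*} [Field F]

/-- the curve is `y ^ 2 = x (x - a) (x - b)` and is smooth -/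
structure IsE (V : WeierstrassCurve.Affine F) (a b : F) : Prop where
  h1 : V.a₁ = 0
  h2 : V.a₂ = -(a + b)
  h3 : V.a₃ = 0
  h4 : V.a₄ = a * b
  h6 : V.a₆ = 0
  ha : a ≠ 0
  hb : b ≠ 0
  hab : a - b ≠ 0
  two : (2 : F) ≠ 0

/-- coordinates in which the curve is an intersection of two diagonal quadrics -/
def ZR (a b : F) {V : WeierstrassCurve.Affine F} : V.Point → F → F → F → F → Prop
  | .zero, z0, z2, z3, t => z0 ≠ 0 ∧ z2 = z0 ∧ z3 = z0 ∧ t = 0
  | .some x y _, z0, z2, z3, t => ∃ k, k ≠ 0 ∧ z0 = k * (x ^ 2 - a * b) ∧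
      z2 = k * (x ^ 2 - 2 * a * x + a * b) ∧ z3 = k * (x ^ 2 - 2 * b * x + a * b) ∧ t = k * (2 * y)

variable {V : WeierstrassCurve.Affine F} {a b z0 z2 z3 t u2 u3 v2 v3 : F}

theorem IsE.symm (h : IsE V a b) : IsE V b a :=
  ⟨h.h1, by rw [h.h2, add_comm], h.h3, by rw [h.h4, mul_comm], h.h6, h.hb, h.ha,
    fun e => h.hab (by linear_combination -e), h.two⟩

theorem ZR.symm {P : V.Point} (h : ZR a b P z0 z2 z3 t) : ZR b a P z0 z3 z2 t := by
  rcases P with _ | ⟨x, y, hP⟩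
  · exact ⟨h.1, h.2.2.1, h.2.1, h.2.2.2⟩
  · obtain ⟨k, hk, h0, h2, h3, h4⟩ := h
    exact ⟨k, hk, by rw [h0]; ring, by rw [h3]; ring, by rw [h2]; ring, h4⟩

theorem IsE.delta (h : IsE V a b) : V.Δ ≠ 0 := by
  have : V.Δ = 2 ^ 4 * (a * b) ^ 2 * (a - b) ^ 2 := by
    simp only [Δ, b₂, b₄, b₆, b₈, h.h1, h.h2, h.h3, h.h4, h.h6]; ring
  rw [this]
  exact mul_ne_zero (mul_ne_zero (pow_ne_zero _ h.two) (pow_ne_zero _ (mul_ne_zero h.ha h.hb)))
    (pow_ne_zero _ h.hab)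

theorem IsE.eqn (h : IsE V a b) {x y : F} (hP : V.Nonsingular x y) :
    y ^ 2 = x * (x - a) * (x - b) := by
  have := (equation_iff _ _).1 hP.1
  rw [h.h1, h.h2, h.h3, h.h4, h.h6] at this
  linear_combination this

theorem IsE.ns (h : IsE V a b) {x y : F} (e : y ^ 2 = x * (x - a) * (x - b)) :
    V.Nonsingular x y := by
  rw [← equation_iff_nonsingular_of_Δ_ne_zero h.delta, equation_iff, h.h1, h.h2, h.h3, h.h4, h.h6]
  linear_combination e

theorem IsE.negY (h : IsE V a b) (x y : F) : V.negY x y = -y := by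
  simp [Affine.negY, h.h1, h.h3]

theorem some_eq {x y x' y' : F} {h : V.Nonsingular x y} {h' : V.Nonsingular x' y'} (hx : x = x')
    (hy : y = y') : Point.some x y h = Point.some x' y' h' := by
  subst hx hy; rfl

theorem exists_zr (a b : F) (P : V.Point) : ∃ z0 z2 z3 t, ZR a b P z0 z2 z3 t := by
  rcases P with _ | ⟨x, y, h⟩
  · exact ⟨1, 1, 1, 0, one_ne_zero, rfl, rfl, rfl⟩
  · exact ⟨_, _, _, _, 1, one_ne_zero, rfl, rfl, rfl, rfl⟩

theorem ZR.prop {P : V.Point} {w0 w2 w3 s : F} (h : ZR a b P z0 z2 z3 t)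
    (h' : ZR a b P w0 w2 w3 s) :
    ∃ k : F, k ≠ 0 ∧ w0 = k * z0 ∧ w2 = k * z2 ∧ w3 = k * z3 ∧ s = k * t := by
  rcases P with _ | ⟨x, y, hP⟩
  · obtain ⟨h0, rfl, rfl, rfl⟩ := h
    obtain ⟨h1, rfl, rfl, rfl⟩ := h'
    exact ⟨w3 / z3, div_ne_zero h1 h0, by field_simp, by field_simp, by field_simp, by simp⟩
  · obtain ⟨k, hk, rfl, rfl, rfl, rfl⟩ := h
    obtain ⟨l, hl, rfl, rfl, rfl, rfl⟩ := h'
    exact ⟨l / k, div_ne_zero hl hk, by field_simp, by field_simp, by field_simp, by field_simp⟩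

theorem IsE.unique (hV : IsE V a b) {P Q : V.Point} (h : ZR a b P z0 z2 z3 t)
    (h' : ZR a b Q z0 z2 z3 t) : P = Q := by
  have key : ∀ {x k : F}, k ≠ 0 → k * (x ^ 2 - 2 * a * x + a * b) = k * (x ^ 2 - a * b) →
      k * (x ^ 2 - 2 * b * x + a * b) = k * (x ^ 2 - a * b) → False := by
    intro x k hk e2 e3
    exact mul_ne_zero (mul_ne_zero (mul_ne_zero (mul_ne_zero hV.two hV.ha) hV.hb) hk) hV.hab
      (by linear_combination a * e3 - b * e2)
  rcases P with _ | ⟨x, y, hP⟩ <;> rcases Q with _ | ⟨x', y', hQ⟩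
  · rfl
  · obtain ⟨k, hk, rfl, rfl, rfl, rfl⟩ := h'
    exact (key hk h.2.1 h.2.2.1).elim
  · obtain ⟨k, hk, rfl, rfl, rfl, rfl⟩ := h
    exact (key hk h'.2.1 h'.2.2.1).elim
  · obtain ⟨k, hk, rfl, rfl, rfl, rfl⟩ := h
    obtain ⟨l, hl, e0, e2, e3, e4⟩ := h'
    have e5 : k = l := mul_left_cancel₀
      (mul_ne_zero (mul_ne_zero (mul_ne_zero hV.two hV.ha) hV.hb) hV.hab)
      (by linear_combination b * (e0 - e2) - a * (e0 - e3))
    subst e5
    refine some_eq (mul_left_cancel₀ (mul_ne_zero (mul_ne_zero hV.two hV.ha) hk) ?_)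
      (mul_left_cancel₀ (mul_ne_zero hk hV.two) ?_)
    · linear_combination e0 - e2
    · linear_combination e4

theorem IsE.on (hV : IsE V a b) {P : V.Point} (h : ZR a b P z0 z2 z3 t) :
    z0 ^ 2 - z2 ^ 2 = a * t ^ 2 ∧ z0 ^ 2 - z3 ^ 2 = b * t ^ 2 := by
  rcases P with _ | ⟨x, y, hP⟩
  · obtain ⟨h0, rfl, rfl, rfl⟩ := h
    simp
  · obtain ⟨k, hk, rfl, rfl, rfl, rfl⟩ := h
    have e := hV.eqn hP
    exact ⟨by linear_combination (-4 * a * k ^ 2) * e, by linear_combination (-4 * b * k ^ 2) * e⟩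

theorem IsE.ne (hV : IsE V a b) {P : V.Point} (h : ZR a b P z0 z2 z3 t) :
    ¬(z0 = 0 ∧ t = 0) := by
  rintro ⟨rfl, rfl⟩
  obtain ⟨e2, e3⟩ := hV.on h
  have f2 : z2 = 0 := pow_eq_zero_iff two_ne_zero |>.1 (by linear_combination -e2)
  have f3 : z3 = 0 := pow_eq_zero_iff two_ne_zero |>.1 (by linear_combination -e3)
  subst f2 f3
  rcases P with _ | ⟨x, y, hP⟩
  · exact h.1 rfl
  · obtain ⟨k, hk, e0, e2, e3, -⟩ := h
    exact mul_ne_zero (mul_ne_zero (mul_ne_zero (mul_ne_zero hV.two hV.ha) hV.hb) hk) hV.hab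
      (by linear_combination a * (e0 - e3) - b * (e0 - e2))

theorem IsE.surj (hV : IsE V a b) (e2 : z0 ^ 2 - z2 ^ 2 = a * t ^ 2)
    (e3 : z0 ^ 2 - z3 ^ 2 = b * t ^ 2) (hne : ¬(z0 = 0 ∧ t = 0)) :
    ∃ P : V.Point, ZR a b P z0 z2 z3 t := by
  have ha := hV.ha
  have hb := hV.hb
  have hab := hV.hab
  have h2 := hV.two
  by_cases hm : b * (z0 - z2) - a * (z0 - z3) = 0
  · have h1 : z2 = z0 := by
      by_contra h
      have h3 : z2 = z3 := mul_left_cancel₀ (mul_ne_zero hb (sub_ne_zero.2 (Ne.symm h)))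
        (by linear_combination b * e2 - a * e3 - (z0 + z3) * hm)
      subst h3
      exact mul_ne_zero hab (sub_ne_zero.2 (Ne.symm h)) (by linear_combination -hm)
    subst h1
    have h3 : z3 = z2 := mul_left_cancel₀ ha (by linear_combination hm)
    have h4 : t = 0 := pow_eq_zero_iff two_ne_zero |>.1
      (mul_left_cancel₀ ha (by linear_combination -e2))
    exact ⟨.zero, fun h => hne ⟨h, h4⟩, rfl, h3, h4⟩
  · obtain ⟨k, hk⟩ : ∃ k, 2 * a * b * (a - b) * k = b * (z0 - z2) - a * (z0 - z3) :=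
      ⟨(b * (z0 - z2) - a * (z0 - z3)) / (2 * a * b * (a - b)), by field_simp⟩
    have hk0 : k ≠ 0 := by
      rintro rfl
      exact hm (by linear_combination -hk)
    obtain ⟨x, hx⟩ : ∃ x, z2 = z0 - 2 * a * k * (x - b) :=
      ⟨b + (z0 - z2) / (2 * a * k), by field_simp; ring⟩
    have h3 : z3 = z0 - 2 * b * k * (x - a) := mul_left_cancel₀ ha
      (by linear_combination b * hx - hk)
    obtain ⟨y, hy⟩ : ∃ y, t = k * (2 * y) := ⟨t / (k * 2), by field_simp⟩
    subst hx h3 hy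
    have h0 : z0 = k * (x ^ 2 - a * b) := mul_left_cancel₀
      (mul_ne_zero (mul_ne_zero (mul_ne_zero (mul_ne_zero (pow_ne_zero 2 h2) ha) hb) hk0) hab)
      (by linear_combination b * e2 - a * e3)
    subst h0
    refine ⟨.some x y (hV.ns (mul_left_cancel₀
      (mul_ne_zero (mul_ne_zero (pow_ne_zero 2 h2) ha) (pow_ne_zero 2 hk0)) ?_)), k, hk0, rfl,
      by ring, by ring, rfl⟩
    linear_combination -e2

/-- the two-torsion point `S` has the signs `u2`, `u3` -/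
def Sg (a b : F) {V : WeierstrassCurve.Affine F} (S : V.Point) (u2 u3 : F) : Prop :=
  u2 ^ 2 = 1 ∧ u3 ^ 2 = 1 ∧ ZR a b S (u2 * u3) u2 u3 0

theorem Sg.symm {S : V.Point} (h : Sg a b S u2 u3) : Sg b a S u3 u2 :=
  ⟨h.2.1, h.1, mul_comm u2 u3 ▸ h.2.2.symm⟩

theorem sg_zero : Sg a b (0 : V.Point) 1 1 := ⟨by simp, by simp, by simp, by simp, by simp, rfl⟩

theorem ne_of_sq (h : u2 ^ 2 = 1) : u2 ≠ 0 := by
  rintro rfl
  simp at h

theorem Sg.unique {S : V.Point} (h : Sg a b S u2 u3) (h' : Sg a b S v2 v3) :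
    u2 = v2 ∧ u3 = v3 := by
  obtain ⟨k, hk, e0, rfl, rfl, -⟩ := h.2.2.prop h'.2.2
  have : k = 1 := mul_left_cancel₀ (mul_ne_zero hk (mul_ne_zero (ne_of_sq h.1) (ne_of_sq h.2.1)))
    (by linear_combination e0)
  simp [this]

theorem IsE.sg_inj (hV : IsE V a b) {S S' : V.Point} (h : Sg a b S u2 u3) (h' : Sg a b S' u2 u3) :
    S = S' := hV.unique h.2.2 h'.2.2

theorem IsE.sg_exists (hV : IsE V a b) (h2 : u2 ^ 2 = 1) (h3 : u3 ^ 2 = 1) :
    ∃ S : V.Point, Sg a b S u2 u3 := by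
  obtain ⟨S, hS⟩ := hV.surj (z0 := u2 * u3) (z2 := u2) (z3 := u3) (t := 0)
    (by linear_combination u2 ^ 2 * h3) (by linear_combination u3 ^ 2 * h2)
    (fun h => mul_ne_zero (ne_of_sq h2) (ne_of_sq h3) h.1)
  exact ⟨S, h2, h3, hS⟩

theorem IsE.sg_T (hV : IsE V a b) (h : V.Nonsingular 0 0) : Sg a b (.some 0 0 h) (-1) (-1) := by
  have ha := hV.ha
  have hb := hV.hb
  exact ⟨by simp, by simp, -(a * b)⁻¹, by simp [ha, hb], by field_simp; ring, by field_simp; ring,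
    by field_simp; ring, by simp⟩

theorem IsE.sg_a (hV : IsE V a b) (h : V.Nonsingular a 0) : Sg a b (.some a 0 h) 1 (-1) := by
  have ha := hV.ha
  have hab := hV.hab
  exact ⟨by simp, by simp, -(a * (a - b))⁻¹, by simp [ha, hab], by field_simp,
    by field_simp; ring, by field_simp; ring, by simp⟩

variable [DecidableEq F]

theorem IsE.add_tors (hV : IsE V a b) {x y e : F} (h : V.Nonsingular x y) (he : V.Nonsingular e 0)
    (hx : x ≠ e) : ∃ x' y' h', Point.some x y h + .some e 0 he = .some x' y' h' ∧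
      x' = e + (3 * e ^ 2 - 2 * (a + b) * e + a * b) / (x - e) ∧
      y' = -(3 * e ^ 2 - 2 * (a + b) * e + a * b) * y / (x - e) ^ 2 := by
  have e1 := hV.eqn h
  have e2 := hV.eqn he
  have hd := sub_ne_zero.2 hx
  have hX : V.addX x e (V.slope x e y 0) =
      e + (3 * e ^ 2 - 2 * (a + b) * e + a * b) / (x - e) := by
    rw [slope_of_X_ne hx, addX, hV.h1, hV.h2]
    field_simp
    linear_combination e1 - e2
  refine ⟨_, _, _, Point.add_of_X_ne hx, hX, ?_⟩
  rw [addY, hV.negY, negAddY, hX, slope_of_X_ne hx]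
  field_simp
  ring

theorem IsE.add_self (hV : IsE V a b) {x y e : F} (h : V.Nonsingular x y) (he : V.Nonsingular e 0)
    (hx : x = e) : y = 0 ∧ Point.some x y h + .some e 0 he = 0 := by
  subst hx
  have hy : y = 0 := pow_eq_zero_iff two_ne_zero |>.1
    (by linear_combination hV.eqn h - hV.eqn he)
  exact ⟨hy, Point.add_of_Y_eq rfl (by rw [hV.negY, hy, neg_zero])⟩

theorem IsE.shift_T (hV : IsE V a b) (he : V.Nonsingular 0 0) {P : V.Point}
    (h : ZR a b P z0 z2 z3 t) : ZR a b (P + .some 0 0 he) z0 (-z2) (-z3) t := by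
  have ha := hV.ha
  have hb := hV.hb
  rcases P with _ | ⟨x, y, hP⟩
  · obtain ⟨h0, rfl, rfl, rfl⟩ := h
    rw [← Point.zero_def, zero_add]
    exact ⟨-z3 / (a * b), by simp [ha, hb, h0], by field_simp; ring, by field_simp; ring,
      by field_simp; ring, by simp⟩
  obtain ⟨k, hk, rfl, rfl, rfl, rfl⟩ := h
  by_cases hx : x = 0
  · obtain ⟨rfl, e⟩ := hV.add_self hP he hx
    subst hx
    rw [e]
    exact ⟨by simp [ha, hb, hk], by ring, by ring, by simp⟩
  · obtain ⟨x', y', h', e, hx', hy'⟩ := hV.add_tors hP he hx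
    rw [e]
    simp only [sub_zero] at hx' hy'
    refine ⟨-k * x ^ 2 / (a * b), by simp [ha, hb, hk, hx], ?_, ?_, ?_, ?_⟩
    all_goals
      simp only [hx', hy']
      field_simp
      ring

theorem IsE.shift_a (hV : IsE V a b) (he : V.Nonsingular a 0) {P : V.Point}
    (h : ZR a b P z0 z2 z3 t) : ZR a b (P + .some a 0 he) (-z0) z2 (-z3) t := by
  have ha := hV.ha
  have hab := hV.hab
  have hc : 3 * a ^ 2 - 2 * (a + b) * a + a * b = a * (a - b) := by ring
  rcases P with _ | ⟨x, y, hP⟩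
  · obtain ⟨h0, rfl, rfl, rfl⟩ := h
    rw [← Point.zero_def, zero_add]
    exact ⟨-z3 / (a * (a - b)), by simp [ha, hab, h0], by field_simp, by field_simp; ring,
      by field_simp; ring, by simp⟩
  obtain ⟨k, hk, rfl, rfl, rfl, rfl⟩ := h
  by_cases hx : x = a
  · obtain ⟨rfl, e⟩ := hV.add_self hP he hx
    subst hx
    rw [e]
    refine ⟨fun h => mul_ne_zero hk (mul_ne_zero ha hab) (by linear_combination -h), by ring,
      by ring, by simp⟩
  · obtain ⟨x', y', h', e, hx', hy'⟩ := hV.add_tors hP he hx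
    have hd := sub_ne_zero.2 hx
    rw [e]
    rw [hc] at hx' hy'
    refine ⟨-k * (x - a) ^ 2 / (a * (a - b)), by simp [ha, hab, hk, hd], ?_, ?_, ?_, ?_⟩
    all_goals
      simp only [hx', hy']
      field_simp
      try ring

theorem IsE.shift (hV : IsE V a b) {S P : V.Point} (hS : Sg a b S u2 u3)
    (h : ZR a b P z0 z2 z3 t) : ZR a b (P + S) (u2 * u3 * z0) (u2 * z2) (u3 * z3) t := by
  rcases sq_eq_one_iff.1 hS.1 with rfl | rfl <;>
    rcases sq_eq_one_iff.1 hS.2.1 with rfl | rfl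
  · simpa [hV.sg_inj hS sg_zero] using h
  · simpa [hV.sg_inj hS (hV.sg_a (hV.ns (by simp)))] using hV.shift_a _ h
  · simpa [hV.sg_inj hS (hV.symm.sg_a (hV.ns (by simp))).symm] using
      (hV.symm.shift_a _ h.symm).symm
  · simpa [hV.sg_inj hS (hV.sg_T (hV.ns (by simp)))] using hV.shift_T _ h

theorem IsE.sg_add (hV : IsE V a b) {S S' : V.Point} (h : Sg a b S u2 u3) (h' : Sg a b S' v2 v3) :
    Sg a b (S + S') (u2 * v2) (u3 * v3) := by
  refine ⟨by rw [mul_pow, h.1, h'.1, one_mul], by rw [mul_pow, h.2.1, h'.2.1, one_mul], ?_⟩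
  convert hV.shift h' h.2.2 using 1 <;> ring

theorem IsE.sg_two (hV : IsE V a b) {S : V.Point} (h : Sg a b S u2 u3) : 2 • S = 0 := by
  have := hV.sg_add h h
  rw [← sq, ← sq, h.1, h.2.1] at this
  rw [two_nsmul, hV.sg_inj this sg_zero]

theorem IsE.sg_sub (hV : IsE V a b) {R R' : V.Point} (h2 : u2 ^ 2 = 1) (h3 : u3 ^ 2 = 1)
    (h : ZR a b R z0 z2 z3 t) (h' : ZR a b R' (u2 * u3 * z0) (u2 * z2) (u3 * z3) t) :
    Sg a b (R' - R) u2 u3 := by
  obtain ⟨S, hS⟩ := hV.sg_exists h2 h3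
  rwa [hV.unique h' (hV.shift hS h), add_sub_cancel_left]

theorem IsE.sg_ex (hV : IsE V a b) {S : V.Point} (h : 2 • S = 0) : ∃ u2 u3, Sg a b S u2 u3 := by
  rcases S with _ | ⟨x, y, hS⟩
  · exact ⟨1, 1, sg_zero⟩
  have hy : y = 0 := by
    by_contra hy
    rw [two_nsmul, Point.add_self_of_Y_ne (by
      rw [hV.negY]
      exact fun h0 => mul_ne_zero hV.two hy (by linear_combination h0))] at h
    exact Point.some_ne_zero _ h
  subst hy
  have e : x * (x - a) * (x - b) = 0 := by linear_combination -hV.eqn hS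
  rcases mul_eq_zero.1 e with e | e
  · rcases mul_eq_zero.1 e with e | e
    · subst e
      exact ⟨_, _, hV.sg_T hS⟩
    · obtain rfl := sub_eq_zero.1 e
      exact ⟨_, _, hV.sg_a hS⟩
  · obtain rfl := sub_eq_zero.1 e
    exact ⟨_, _, (hV.symm.sg_a hS).symm⟩

theorem IsE.exists_half [IsAlgClosed F] (hV : IsE V a b) (P : V.Point) :
    ∃ R : V.Point, 2 • R = P := by
  rcases P with _ | ⟨x, y, h⟩
  · exact ⟨0, rfl⟩
  obtain ⟨z0, h0⟩ := IsAlgClosed.exists_pow_nat_eq x two_pos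
  obtain ⟨z2, h2⟩ := IsAlgClosed.exists_pow_nat_eq (x - a) two_pos
  obtain ⟨z3, h3⟩ := IsAlgClosed.exists_pow_nat_eq (x - b) two_pos
  obtain ⟨R, hR⟩ := hV.surj (z0 := z0) (z2 := z2) (z3 := z3) (t := 1)
    (by linear_combination h0 - h2) (by linear_combination h0 - h3) (by simp)
  rcases R with _ | ⟨x', y', h'⟩
  · exact absurd hR.2.2.2 one_ne_zero
  obtain ⟨k, hk, rfl, -, -, e4⟩ := hR
  have hy : y' ≠ 0 := by
    rintro rfl
    simp at e4
  have h2 := hV.two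
  have hn : y' ≠ V.negY x' y' := by
    rw [hV.negY]
    exact fun h0 => mul_ne_zero h2 hy (by linear_combination h0)
  have hX : V.addX x' x' (V.slope x' x' y' y') = x := by
    have e := hV.eqn h'
    have hk' : k = 1 / (2 * y') := by field_simp; linear_combination -e4
    rw [slope_of_Y_ne rfl hn, hV.negY, addX, hV.h1, hV.h2, hV.h4, ← h0, hk',
      show y' - -y' = 2 * y' by ring]
    field_simp
    linear_combination (4 * (a + b - 2 * x')) * e
  rcases Point.X_eq_iff (h₁ := nonsingular_add h' h' fun hh => hn hh.2) (h₂ := h) |>.1 hX with e | e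
  · exact ⟨.some x' y' h', by rw [two_nsmul, Point.add_self_of_Y_ne hn, e]⟩
  · exact ⟨-.some x' y' h', by rw [smul_neg, two_nsmul, Point.add_self_of_Y_ne hn, e, neg_neg]⟩

end alg

section maps

variable {K L : Type} [Field K] [Field L] [Algebra ℚ K] [Algebra ℚ L] {W : WeierstrassCurve ℚ}
  [DecidableEq K] [DecidableEq L]

theorem ZR.pm (f : K →+* L) {a b z0 z2 z3 t : K} {P : Pt W K} (h : ZR a b P z0 z2 z3 t) :
    ZR (f a) (f b) (ptMap W f P) (f z0) (f z2) (f z3) (f t) := by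
  rcases P with _ | ⟨x, y, hP⟩
  · obtain ⟨h0, rfl, rfl, rfl⟩ := h
    exact ⟨by simpa using h0, rfl, rfl, by simp⟩
  · obtain ⟨k, hk, rfl, rfl, rfl, rfl⟩ := h
    exact ⟨f k, by simpa using hk, by simp, by simp [map_ofNat], by simp [map_ofNat],
      by simp [map_ofNat]⟩

theorem Sg.pm (f : K →+* L) {a b u2 u3 : K} {S : Pt W K} (h : Sg a b S u2 u3) :
    Sg (f a) (f b) (ptMap W f S) (f u2) (f u3) :=
  ⟨by simpa using congrArg f h.1, by simpa using congrArg f h.2.1, by simpa using h.2.2.pm f⟩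

omit [Algebra ℚ K] [DecidableEq K] [Algebra ℚ L] [DecidableEq L] in
theorem map_sign (f : K →+* K) {u : K} (h : u ^ 2 = 1) : f u = u := by
  rcases sq_eq_one_iff.1 h with rfl | rfl <;> simp

end maps

theorem fixed_div (K : Type) [Field K] [CharZero K] {l v : AlgebraicClosure K} (hl : l ≠ 0) (n : ℕ)
    (h : ∀ σ : AlgebraicClosure K ≃ₐ[K] AlgebraicClosure K, ∃ k, σ l = k * l ∧ σ v = k ^ n * v) :
    ∃ x : K, v = algebraMap K _ x * l ^ n := by
  obtain ⟨x, hx⟩ := (InfiniteGalois.mem_range_algebraMap_iff_fixed (k := K) (v / l ^ n)).2 fun σ => by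
    obtain ⟨k, e1, e2⟩ := h σ
    have hk : k ≠ 0 := by
      rintro rfl
      exact hl (by simpa using e1)
    rw [map_div₀, map_pow, e1, e2, mul_pow]
    field_simp
  exact ⟨x, by rw [hx]; field_simp⟩

open Classical in
/-- a continuous character with values `± 1` comes from a square root of a rational number -/
theorem exists_sqrt {W : WeierstrassCurve ℚ} {c : GQ → Pt W Qbar} (hc : c ∈ cocycles W)
    {u : GQ → Qbar} (h1 : ∀ σ, u σ ^ 2 = 1) (h2 : ∀ σ τ, u (σ * τ) = u σ * u τ)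
    (h3 : ∀ σ, c σ = 0 → u σ = 1) :
    ∃ (d : ℚ) (r : Qbar), d ≠ 0 ∧ r ≠ 0 ∧ r ^ 2 = d ∧ ∀ σ : GQ, σ r = u σ * r := by
  obtain ⟨L, hL, hL'⟩ := exists_level c hc.1
  obtain ⟨r, hr, hr'⟩ := h90 ⊤ u (fun σ _ => ne_of_sq (h1 σ)) (fun σ _ τ _ => by
    rw [h2]
    exact congrArg _ (map_sign (σ : Qbar →+* Qbar) (h1 τ)).symm) L
    (fun σ _ hσ => h3 σ (by rw [hL' σ hσ, cocycle_one hc]))
  obtain ⟨d, hd⟩ := rat_of_fixed (x := r ^ 2) fun σ => by
    rw [map_pow, hr' σ trivial, mul_pow, h1, one_mul]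
  refine ⟨d, r, ?_, hr, hd.symm, fun σ => hr' σ trivial⟩
  rintro rfl
  exact pow_ne_zero 2 hr (by simpa using hd.symm)

theorem quot_eq {r s : Qbar} (h : r ^ 2 = s ^ 2) (σ : GQ) : σ r / r = σ s / s := by
  rcases sq_eq_sq_iff_eq_or_eq_neg.1 h with rfl | rfl
  · rfl
  · rw [map_neg, neg_div_neg_eq]

theorem quot_sq {r : Qbar} {d : ℚ} (hd : d ≠ 0) (h : r ^ 2 = d) (σ : GQ) : (σ r / r) ^ 2 = 1 := by
  rw [div_pow, ← map_pow, h]
  simp [hd]

theorem root_ne {r : Qbar} {d : ℚ} (hd : d ≠ 0) (h : r ^ 2 = d) : r ≠ 0 := by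
  rintro rfl
  exact hd (by simpa using h.symm)

theorem isSquare_iff {r : Qbar} {d : ℚ} (hd : d ≠ 0) (h : r ^ 2 = d) :
    IsSquare d ↔ ∀ σ : GQ, σ r / r = 1 := by
  constructor
  · rintro ⟨s, rfl⟩ σ
    have hs : s ≠ 0 := left_ne_zero_of_mul hd
    rw [quot_eq (s := s) (by rw [h]; push_cast; ring)]
    simp [hs]
  · intro h1
    obtain ⟨s, rfl⟩ := rat_of_fixed (x := r) fun σ => (div_eq_one_iff_eq (root_ne hd h)).1 (h1 σ)
    exact ⟨s, by rw [← sq]; exact_mod_cast h.symm⟩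

open Classical in
theorem locTriv_cob {W : WeierstrassCurve ℚ} (K : Type) [Field K] [CharZero K] (R : Pt W Qbar) :
    LocTriv W K fun σ => ac W σ R - R := by
  have := (LocTriv.zero (W := W) (K := K)).sub_cob (-R)
  convert this using 1
  ext σ
  simp only [map_neg, Pi.sub_apply, Pi.zero_apply]
  abel

open Classical in
/-- from 2-torsion cocycles to the 2-primary part -/
theorem sha_two {W : WeierstrassCurve ℚ} (h2 : ∀ P : Pt W Qbar, ∃ R, 2 • R = P)
    (h : ∀ c ∈ cocycles W, (∀ σ, 2 • c σ = 0) → LocTriv W ℝ c →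
      (∀ (p : ℕ) [Fact p.Prime], LocTriv W ℚ_[p] c) → ∃ R, ∀ σ, c σ = ac W σ R - R) (k : ℕ) :
    ∀ x ∈ Sha W, 2 ^ k • x = 0 → x = 0 := by
  have key : ∀ x ∈ Sha W, 2 • x = 0 → x = 0 := by
    rintro _ ⟨c, rfl, hr, hloc⟩ h0
    obtain ⟨P, hP⟩ := (QuotientAddGroup.eq_zero_iff (2 • c)).1 h0
    obtain ⟨R, rfl⟩ := h2 P
    obtain ⟨S, hS⟩ := h _ ((cocycles W).sub_mem c.2 (cob_mem R))
      (fun σ => by
        have : 2 • c.1 σ = _ := hP σ
        simp only [Pi.sub_apply, smul_sub, this, map_nsmul, sub_self])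
      (hr.sub_cob R) (fun p _ => (hloc p).sub_cob R)
    refine (QuotientAddGroup.eq_zero_iff c).2 ⟨R + S, fun σ => ?_⟩
    have := hS σ
    simp only [Pi.sub_apply] at this
    change c.1 σ = _
    rw [map_add, sub_eq_iff_eq_add.1 this]
    abel
  induction k with
  | zero => intro x _ h; simpa using h
  | succ k ih =>
    intro x hx h
    refine ih x hx (key _ ?_ (by rw [← mul_nsmul', ← pow_succ', h]))
    obtain ⟨c, rfl, h1, h2⟩ := hx
    exact ⟨2 ^ k • c, rfl, h1.nsmul _, fun p _ => (h2 p).nsmul _⟩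

theorem index_prod_two (n : ℕ) (T : Type) [AddCommGroup T] [Finite T] :
    Module.rank ℤ ((Fin n →₀ ℤ) × T) = n ∧
      (nsmulAddMonoidHom (α := (Fin n →₀ ℤ) × T) 2).range.index =
        2 ^ n * Nat.card {Z : (Fin n →₀ ℤ) × T // 2 • Z = 0} := by
  constructor
  · have h0 : Module.rank ℤ T = 0 := rank_eq_zero_iff.2 fun x =>
      ⟨Nat.card T, by exact_mod_cast Nat.card_pos.ne', by rw [natCast_zsmul, card_nsmul_eq_zero']⟩
    have h1 := LinearMap.rank_range_add_rank_ker (LinearMap.fst ℤ (Fin n →₀ ℤ) T)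
    rw [LinearMap.range_eq_top.2 LinearMap.fst_surjective, rank_top, LinearMap.ker_fst,
      rank_range_of_injective _ LinearMap.inr_injective, h0] at h1
    simpa using h1.symm
  · have e1 : (nsmulAddMonoidHom (α := (Fin n →₀ ℤ) × T) 2).range =
        (nsmulAddMonoidHom 2).range.prod (nsmulAddMonoidHom 2).range := by
      ext ⟨x, y⟩
      simp [AddSubgroup.mem_prod, Prod.ext_iff]
    have e2 : Nat.card {Z : (Fin n →₀ ℤ) × T // 2 • Z = 0} =
        Nat.card (nsmulAddMonoidHom (α := T) 2).ker :=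
      Nat.card_congr ⟨fun Z => ⟨Z.1.2, congrArg Prod.snd Z.2⟩,
        fun y => ⟨(0, y.1), Prod.ext (by simp) y.2⟩, fun Z => Subtype.ext (Prod.ext (by
          have : 2 • Z.1.1 = 0 := congrArg Prod.fst Z.2
          exact ((smul_eq_zero.1 this).resolve_left two_ne_zero).symm) rfl), fun _ => rfl⟩
    rw [e1, AddSubgroup.index_prod, AddSubgroup.index_range_nsmul, e2]
    congr 1
    · simp
    · have a1 := (nsmulAddMonoidHom (α := T) 2).range.card_mul_index
      have a2 := (nsmulAddMonoidHom (α := T) 2).ker.card_mul_index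
      rw [AddSubgroup.index_ker, ← a1, mul_comm] at a2
      exact (Nat.eq_of_mul_eq_mul_left Nat.card_pos a2).symm

theorem index_two {G : Type} [AddCommGroup G] (hG : AddGroup.FG G) :
    ∃ n : ℕ, Module.rank ℤ G = n ∧ (nsmulAddMonoidHom (α := G) 2).range.index =
      2 ^ n * Nat.card {Z : G // 2 • Z = 0} := by
  obtain ⟨n, ι, _, p, hp, e, ⟨f⟩⟩ := AddCommGroup.equiv_free_prod_directSum_zmod G
  have : ∀ i, NeZero (p i ^ e i) := fun i => ⟨pow_ne_zero _ (hp i).ne_zero⟩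
  have hfin : Finite (DirectSum ι fun i => ZMod (p i ^ e i)) :=
    Finite.of_equiv _ DFinsupp.equivFunOnFintype.symm
  obtain ⟨h1, h2⟩ := index_prod_two n (DirectSum ι fun i => ZMod (p i ^ e i))
  refine ⟨n, f.toIntLinearEquiv.rank_eq.trans h1, ?_⟩
  rw [← AddSubgroup.index_map_equiv _ f, AddEquiv.map_range_nsmulAddMonoidHom, h2]
  congr 1
  exact (Nat.card_congr (f.toEquiv.subtypeEquiv fun Z => by
    change _ ↔ 2 • f Z = 0
    rw [← map_nsmul, f.map_eq_zero_iff])).symm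

theorem index_of_basis {G ι : Type} [AddCommGroup G] [Fintype ι] (P : ι → G)
    (hs : ∀ Q, ∃ (I : Finset ι) (Z : G), Q = ∑ i ∈ I, P i + 2 • Z)
    (hi : ∀ (I : Finset ι) (Z : G), ∑ i ∈ I, P i = 2 • Z → I = ∅) :
    (nsmulAddMonoidHom (α := G) 2).range.index = 2 ^ Fintype.card ι := by
  classical
  rw [← Fintype.card_finset, ← Nat.card_eq_fintype_card, AddSubgroup.index_eq_card]
  refine (Nat.card_eq_of_bijective
    (fun I : Finset ι => (QuotientAddGroup.mk (∑ i ∈ I, P i) : G ⧸ _)) ⟨fun I J h => ?_, fun q => ?_⟩).symm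
  · obtain ⟨Z, hZ⟩ := QuotientAddGroup.eq.1 h
    rw [nsmulAddMonoidHom_apply, ← Finset.sum_inter_add_sum_sdiff I J,
      ← Finset.sum_inter_add_sum_sdiff J I, Finset.inter_comm J I] at hZ
    have := hi (I \ J ∪ J \ I) (Z + ∑ i ∈ I \ J, P i) (by
      rw [Finset.sum_union disjoint_sdiff_sdiff, smul_add, hZ]; abel)
    rw [Finset.union_eq_empty, Finset.sdiff_eq_empty_iff_subset,
      Finset.sdiff_eq_empty_iff_subset] at this
    exact this.1.antisymm this.2
  · obtain ⟨Q, rfl⟩ := QuotientAddGroup.mk_surjective q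
    obtain ⟨I, Z, rfl⟩ := hs Q
    exact ⟨I, QuotientAddGroup.eq.2 ⟨Z, by simp⟩⟩

/-- the rank of the group of rational points from a basis modulo two -/
theorem rank_of_basis {W : WeierstrassCurve ℚ} [(W.baseChange ℚ).IsElliptic] {ι : Type} [Fintype ι]
    (P : ι → Pt W ℚ) (hs : ∀ Q, ∃ (I : Finset ι) (Z : Pt W ℚ), Q = ∑ i ∈ I, P i + 2 • Z)
    (hi : ∀ (I : Finset ι) (Z : Pt W ℚ), ∑ i ∈ I, P i = 2 • Z → I = ∅) {r t : ℕ}
    (ht : Nat.card {Z : Pt W ℚ // 2 • Z = 0} = 2 ^ t) (hr : r + t = Fintype.card ι) :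
    Module.rank ℤ (Pt W ℚ) = r := by
  have h1 := index_of_basis P hs hi
  obtain ⟨C, hC⟩ := parallelogram (V := (W.baseChange ℚ).toAffine)
  have := northcott (V := (W.baseChange ℚ).toAffine)
  obtain ⟨n, h2, h3⟩ := index_two (AddCommGroup.fg_of_descent' ⟨by rw [h1]; positivity⟩
    (fun P : Pt W ℚ => Height.logHeight_nonneg P.xRep) hC)
  rw [h1, ht, ← pow_add, ← hr] at h3
  have := Nat.pow_right_injective le_rfl h3
  rw [h2, show n = r by omega]

end Pool.Agent.MP_a43263_nt.Two
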