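import Pool.Agent.MP_a43263_nt.two.Sym

/-! The three families. -/

set_option linter.unusedSimpArgs false

namespace Pool.Agent.MP_a43263_nt.Two

namespace F5

/-- coefficients of `x` -/
def al : Fin 10 → ℤ :=
  ![-4, 10584, 0, -36, -5292, 9, -756, -896, -504, -6804]

/-- coefficients of `y` -/
def be : Fin 10 → ℤ :=
  ![5, 15331, 1, 1, 2897, 31, 1621, -739, 2489, -2311]

/-- exponents -/
def eA : Fin (10 + 2) → ℕ := ![1, 0, 1, 1, 1, 1, 0, 0, 0, 0, 0, 0]

/-- exponents -/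
def eB : Fin (10 + 2) → ℕ := ![0, 8, 1, 1, 1, 1, 2, 2, 0, 0, 0, 0]

/-- exponents -/
def eD : Fin (10 + 2) → ℕ := ![1, 0, 1, 1, 1, 1, 0, 0, 1, 1, 1, 1]

/-- symbols at the base point -/
def tb : Fin (10 + 2) → Fin (10 + 2) → ZMod 2 :=
  ![![1, 0, 1, 0, 1, 1, 1, 0, 1, 1, 1, 1],
    ![0, 0, 1, 1, 0, 0, 0, 0, 1, 1, 0, 0],
    ![1, 1, 0, 0, 0, 0, 1, 0, 0, 0, 1, 1],
    ![0, 1, 0, 0, 0, 0, 0, 1, 1, 1, 1, 1],
    ![1, 0, 1, 0, 0, 1, 1, 0, 0, 0, 0, 0],
    ![1, 0, 1, 0, 0, 0, 0, 1, 0, 0, 1, 1],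
    ![1, 0, 0, 0, 0, 1, 0, 1, 0, 1, 0, 1],
    ![0, 0, 0, 1, 0, 1, 1, 0, 0, 1, 0, 1],
    ![1, 1, 1, 1, 1, 1, 1, 0, 0, 1, 1, 0],
    ![1, 1, 1, 1, 1, 1, 0, 1, 0, 0, 0, 0],
    ![1, 0, 0, 1, 1, 0, 1, 0, 0, 1, 0, 0],
    ![1, 0, 0, 1, 1, 0, 0, 1, 1, 1, 1, 0]]

/-- generators -/
def GE : Fin 3 → Fin (10 + 2) → ℕ :=
  ![eB, ![0, 0, 1, 0, 0, 1, 0, 0, 0, 0, 0, 0],
    ![0, 1, 0, 1, 0, 1, 1, 1, 0, 0, 0, 0]]

/-- generators -/
def GD : Fin (3 + 1) → Fin (10 + 2) → ℕ :=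
  ![eD, ![1, 0, 0, 1, 0, 1, 0, 0, 0, 1, 0, 1],
    ![1, 0, 0, 1, 0, 1, 0, 0, 1, 0, 1, 0],
    ![1, 0, 1, 1, 0, 0, 0, 0, 1, 1, 0, 0]]

/-- dual vectors -/
def PE : Fin 3 → List (Fin (10 + 2)) := ![[1, 3], [1, 2, 3], [1]]

/-- dual vectors -/
def PD : Fin (3 + 1) → List (Fin (10 + 2)) := ![[4], [0, 8], [2, 8], [2, 4]]

/-- certificates -/
def CE (σ : ZMod 2) : Fin (10 + 2) → List (Bool × Fin (10 + 2)) :=
  if σ = 0 then
    ![[(false, 0)], [], [], [], [(false, 9), (false, 10), (true, 4), (true, 8)], [(false, 10),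
    (false, 11), (true, 2), (true, 4)], [(false, 0), (false, 10), (false, 11), (true, 2)],
    [(false, 8), (false, 9), (false, 10), (false, 11), (true, 3)], [(false, 8)], [(false, 9)],
    [(false, 10)], [(false, 11)]]
  else
    ![[(false, 0)], [], [], [], [(false, 9), (false, 10), (true, 4), (true, 8)], [(false, 10),
    (false, 11), (true, 2), (true, 4)], [(false, 9), (false, 11), (true, 2), (true, 3), (true,
    8)], [(false, 0), (false, 8), (false, 11), (true, 8)], [(false, 8)], [(false, 9)], [(false,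
    10)], [(false, 11)]]

/-- certificates -/
def CD (σ : ZMod 2) : Fin (10 + 2) → List (Bool × Fin (10 + 2)) :=
  if σ = 0 then
    ![[], [(false, 1)], [], [(false, 6), (false, 7), (true, 1), (true, 2), (true, 3)], [],
    [(false, 1), (false, 6), (false, 7), (true, 0), (true, 3)], [(false, 6)], [(false, 7)], [],
    [(false, 6), (false, 7), (true, 2), (true, 3)], [(false, 6), (false, 7), (true, 0), (true,
    6)], [(false, 1), (false, 7), (true, 0), (true, 2), (true, 6)]]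
  else
    ![[], [(false, 1)], [], [(false, 6), (false, 7), (true, 1), (true, 2), (true, 3)], [],
    [(false, 1), (false, 7), (true, 1), (true, 2)], [(false, 6)], [(false, 7)], [], [(false, 6),
    (false, 7), (true, 2), (true, 3)], [(false, 6), (false, 7), (true, 1), (true, 2), (true, 3),
    (true, 6)], [(false, 1), (false, 6), (false, 7), (true, 0), (true, 2), (true, 6)]]

theorem base : Base (PP al be (-11376) 12527) tb := by
  unfold Base
  decide +kernel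

theorem cert : ∀ σ, Side (tw tb σ) 4225 65 eA eB eD true ∧ Cert (rowsE (tw tb σ) eB eD true) GE PE (CE σ) ∧
    Cert (rowsD (tw tb σ) eB eD true) GD PD (CD σ) := by
  unfold Side Cert
  decide +kernel

theorem ev_eq (x y : ℤ) (e : Fin (10 + 2) → ℕ) : ev (PP al be x y) e =
    (-1) ^ e 0 * 2 ^ e 1 * (-4 * x + 5 * y) ^ e 2 * (10584 * x + 15331 * y) ^ e 3 * (y) ^ e 4 *
    (-36 * x + y) ^ e 5 * (-5292 * x + 2897 * y) ^ e 6 * (9 * x + 31 * y) ^ e 7 * (-756 * x +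
    1621 * y) ^ e 8 * (-896 * x - 739 * y) ^ e 9 * (-504 * x + 2489 * y) ^ e 10 * (-6804 * x -
    2311 * y) ^ e 11 := by
  simp only [ev, PP, al, be, Fin.prod_univ_succ, Fin.prod_univ_zero, Matrix.cons_val_zero,
    Matrix.cons_val_succ, Fin.succ_zero_eq_one, Fin.reduceSucc]
  ring

theorem concl : Concl 5 := by
  refine family (i0 := 6) (i1 := 0) base (by decide) (by decide) (by decide) (by decide +kernel) cert
    (by decide +kernel) rfl rfl (fun x y => ?_) (fun x y l => ?_) (fun x y l => ?_)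
  · simp only [ev_eq, eA, eB, eD, Matrix.cons_val]
    ring
  · fin_cases l
    · exact ⟨0, 1, 1, by simp, by simp [GE]⟩
    · exact ⟨15876 * x - 8691 * y, 22,
        3024568512 * x ^ 3 + 102915915984 * x ^ 2 * y + 99930227796 * x * y ^ 2 - 86042814917 * y
        ^ 3,
        by simp, by simp only [ev_eq, GE, GD, eA, eB, eD, Fin.reduceFinMk, Fin.reduceSucc, Fin.succ_zero_eq_one,
        Matrix.cons_val]; ring⟩
    · exact ⟨4, 75,
        3048192 * x ^ 2 + 38080656 * x * y - 42310148 * y ^ 2,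
        by simp, by simp only [ev_eq, GE, GD, eA, eB, eD, Fin.reduceFinMk, Fin.reduceSucc, Fin.succ_zero_eq_one,
        Matrix.cons_val]; ring⟩
  · fin_cases l
    · exact ⟨1, 25,
        1524096 * x ^ 2 + 4415328 * x * y - 2873824 * y ^ 2,
        by simp, by simp only [ev_eq, GE, GD, eA, eB, eD, Fin.reduceFinMk, Fin.reduceSucc, Fin.succ_zero_eq_one,
        Matrix.cons_val]; ring⟩
    · exact ⟨1, 15,
        381024 * x ^ 2 + 1103832 * x * y - 718456 * y ^ 2,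
        by simp, by simp only [ev_eq, GE, GD, eA, eB, eD, Fin.reduceFinMk, Fin.reduceSucc, Fin.succ_zero_eq_one,
        Matrix.cons_val]; ring⟩
    · exact ⟨3, 13,
        1524096 * x ^ 2 + 4415328 * x * y - 2873824 * y ^ 2,
        by simp, by simp only [ev_eq, GE, GD, eA, eB, eD, Fin.reduceFinMk, Fin.reduceSucc, Fin.succ_zero_eq_one,
        Matrix.cons_val]; ring⟩

end F5

namespace F6

/-- coefficients of `x` -/
def al : Fin 12 → ℤ :=
  ![-61, -1, 19, 1, -229, -25, 25, 16, -625, 3, 103, -125]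

/-- coefficients of `y` -/
def be : Fin 12 → ℤ :=
  ![56, 8, 28, 0, 392, 56, 16, 7, 392, 56, 256, 28]

/-- exponents -/
def eA : Fin (12 + 2) → ℕ := ![1, 0, 1, 1, 1, 1, 0, 0, 0, 0, 0, 0, 0, 0]

/-- exponents -/
def eB : Fin (12 + 2) → ℕ := ![0, 4, 1, 1, 1, 1, 1, 1, 1, 1, 0, 0, 0, 0]

/-- exponents -/
def eD : Fin (12 + 2) → ℕ := ![1, 0, 1, 1, 1, 1, 0, 0, 0, 0, 1, 1, 1, 1]

/-- symbols at the base point -/
def tb : Fin (12 + 2) → Fin (12 + 2) → ZMod 2 :=
  ![![1, 0, 1, 1, 1, 0, 1, 1, 0, 0, 1, 1, 1, 1],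
    ![0, 0, 0, 1, 1, 1, 0, 1, 1, 1, 1, 0, 1, 1],
    ![1, 0, 0, 0, 1, 0, 1, 0, 1, 0, 0, 0, 1, 1],
    ![1, 1, 1, 0, 0, 0, 0, 0, 1, 1, 1, 0, 0, 1],
    ![1, 1, 0, 1, 0, 1, 1, 0, 1, 0, 0, 1, 1, 0],
    ![0, 1, 0, 0, 1, 0, 0, 0, 1, 1, 0, 0, 1, 1],
    ![1, 0, 0, 1, 0, 0, 0, 0, 0, 0, 1, 0, 1, 0],
    ![1, 1, 1, 1, 1, 0, 1, 0, 0, 0, 0, 0, 0, 0],
    ![0, 1, 1, 1, 1, 1, 0, 0, 0, 1, 0, 0, 0, 0],
    ![0, 1, 0, 1, 0, 1, 0, 0, 1, 0, 1, 0, 1, 0],
    ![1, 1, 1, 0, 1, 0, 0, 1, 0, 1, 0, 0, 1, 0],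
    ![1, 0, 1, 1, 0, 0, 1, 1, 0, 0, 1, 0, 0, 0],
    ![1, 1, 0, 1, 0, 1, 0, 1, 0, 1, 0, 1, 0, 1],
    ![1, 1, 0, 0, 1, 1, 1, 1, 0, 0, 1, 1, 0, 0]]

/-- generators -/
def GE : Fin 4 → Fin (12 + 2) → ℕ :=
  ![eB, ![0, 0, 1, 1, 1, 1, 0, 0, 0, 0, 0, 0, 0, 0],
    ![0, 0, 1, 0, 0, 1, 0, 1, 1, 0, 0, 0, 0, 0],
    ![0, 0, 1, 0, 1, 0, 0, 1, 0, 1, 0, 0, 0, 0]]

/-- generators -/
def GD : Fin (3 + 1) → Fin (12 + 2) → ℕ :=
  ![eD, ![0, 0, 0, 0, 0, 0, 0, 0, 0, 0, 1, 1, 1, 1],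
    ![1, 0, 1, 0, 0, 1, 0, 0, 0, 0, 1, 0, 0, 1],
    ![0, 0, 1, 0, 1, 0, 0, 0, 0, 0, 1, 0, 1, 0]]

/-- dual vectors -/
def PE : Fin 4 → List (Fin (12 + 2)) := ![[6], [3, 6], [2, 4], [3, 4]]

/-- dual vectors -/
def PD : Fin (3 + 1) → List (Fin (12 + 2)) := ![[3], [2, 10], [0, 3], [0, 2]]

/-- certificates -/
def CE (σ : ZMod 2) : Fin (12 + 2) → List (Bool × Fin (12 + 2)) :=
  if σ = 0 then
    ![[(false, 1), (false, 10), (false, 11), (false, 12), (false, 13), (true, 2), (true, 3),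
    (true, 4), (true, 5)], [(false, 1)], [], [], [], [(false, 1), (false, 11), (false, 13),
    (true, 2), (true, 4)], [], [(false, 1), (false, 10), (false, 11), (false, 12), (false, 13),
    (true, 4), (true, 5), (true, 10)], [(false, 1), (false, 10), (false, 11), (true, 3), (true,
    4), (true, 5)], [(false, 1), (false, 10), (false, 12), (true, 2), (true, 3)], [(false, 10)],
    [(false, 11)], [(false, 12)], [(false, 13)]]
  else
    ![[(false, 1), (false, 10), (false, 11), (false, 12), (false, 13), (true, 2), (true, 3),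
    (true, 4), (true, 5)], [(false, 1)], [], [], [], [(false, 1), (false, 11), (false, 13),
    (true, 2), (true, 4)], [], [(false, 1), (false, 10), (false, 11), (true, 5)], [(false, 1),
    (false, 10), (false, 11), (false, 12), (false, 13), (true, 3), (true, 5), (true, 10)],
    [(false, 1), (false, 10), (false, 12), (true, 2), (true, 3)], [(false, 10)], [(false, 11)],
    [(false, 12)], [(false, 13)]]

/-- certificates -/
def CD (σ : ZMod 2) : Fin (12 + 2) → List (Bool × Fin (12 + 2)) :=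
  if σ = 0 then
    ![[], [(false, 1)], [], [], [(false, 1), (false, 6), (false, 9), (true, 2), (true, 3), (true,
    6)], [(false, 7), (false, 9), (true, 0), (true, 3), (true, 4)], [(false, 6)], [(false, 7)],
    [(false, 8)], [(false, 9)], [], [(false, 7), (false, 8), (true, 0), (true, 2)], [(true, 6)],
    [(false, 1), (false, 8), (false, 9), (true, 3)]]
  else
    ![[], [(false, 1)], [], [], [(false, 1), (false, 6), (false, 7), (false, 8), (false, 9),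
    (true, 2), (true, 4), (true, 6)], [(false, 7), (false, 9), (true, 0), (true, 3), (true, 4)],
    [(false, 6)], [(false, 7)], [(false, 8)], [(false, 9)], [], [(true, 0), (true, 2), (true, 3),
    (true, 4)], [(false, 7), (false, 8), (true, 3), (true, 4), (true, 6)], [(false, 1), (false,
    7), (false, 9), (true, 4)]]

theorem base : Base (PP al be (421) 7843) tb := by
  unfold Base
  decide +kernel

theorem cert : ∀ σ, Side (tw tb σ) 325 0 eA eB eD false ∧ Cert (rowsE (tw tb σ) eB eD false) GE PE (CE σ) ∧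
    Cert (rowsD (tw tb σ) eB eD false) GD PD (CD σ) := by
  unfold Side Cert
  decide +kernel

theorem ev_eq (x y : ℤ) (e : Fin (12 + 2) → ℕ) : ev (PP al be x y) e =
    (-1) ^ e 0 * 2 ^ e 1 * (-61 * x + 56 * y) ^ e 2 * (-x + 8 * y) ^ e 3 * (19 * x + 28 * y) ^ e
    4 * (x) ^ e 5 * (-229 * x + 392 * y) ^ e 6 * (-25 * x + 56 * y) ^ e 7 * (25 * x + 16 * y) ^ e
    8 * (16 * x + 7 * y) ^ e 9 * (-625 * x + 392 * y) ^ e 10 * (3 * x + 56 * y) ^ e 11 * (103 * x
    + 256 * y) ^ e 12 * (-125 * x + 28 * y) ^ e 13 := by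
  simp only [ev, PP, al, be, Fin.prod_univ_succ, Fin.prod_univ_zero, Matrix.cons_val_zero,
    Matrix.cons_val_succ, Fin.succ_zero_eq_one, Fin.reduceSucc]
  ring

theorem concl : Concl 6 := by
  refine family (i0 := 8) (i1 := 0) base (by decide) (by decide) (by decide) (by decide +kernel) cert
    (by decide +kernel) rfl rfl (fun x y => ?_) (fun x y l => ?_) (fun x y l => ?_)
  · simp only [ev_eq, eA, eB, eD, Matrix.cons_val]
    ring
  · fin_cases l
    · exact ⟨0, 1, 1, by simp, by simp [GE]⟩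
    · exact ⟨1, 1,
        6022 * x ^ 2 - 8512 * x * y - 6272 * y ^ 2,
        by simp, by simp only [ev_eq, GE, GD, eA, eB, eD, Fin.reduceFinMk, Fin.reduceSucc, Fin.succ_zero_eq_one,
        Matrix.cons_val]; ring⟩
    · exact ⟨2, 1,
        466 * x ^ 2 + 1064 * x * y + 3136 * y ^ 2,
        by simp, by simp only [ev_eq, GE, GD, eA, eB, eD, Fin.reduceFinMk, Fin.reduceSucc, Fin.succ_zero_eq_one,
        Matrix.cons_val]; ring⟩
    · exact ⟨2, 3,
        1130 * x ^ 2 + 10792 * x * y - 3136 * y ^ 2,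
        by simp, by simp only [ev_eq, GE, GD, eA, eB, eD, Fin.reduceFinMk, Fin.reduceSucc, Fin.succ_zero_eq_one,
        Matrix.cons_val]; ring⟩
  · fin_cases l
    · exact ⟨1, 19,
        12044 * x ^ 2 - 17024 * x * y - 12544 * y ^ 2,
        by simp, by simp only [ev_eq, GE, GD, eA, eB, eD, Fin.reduceFinMk, Fin.reduceSucc, Fin.succ_zero_eq_one,
        Matrix.cons_val]; ring⟩
    · exact ⟨5, 7,
        62348 * x ^ 2 - 99008 * x * y - 87808 * y ^ 2,
        by simp, by simp only [ev_eq, GE, GD, eA, eB, eD, Fin.reduceFinMk, Fin.reduceSucc, Fin.succ_zero_eq_one,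
        Matrix.cons_val]; ring⟩
    · exact ⟨1, 11,
        12660 * x ^ 2 - 21952 * x * y - 12544 * y ^ 2,
        by simp, by simp only [ev_eq, GE, GD, eA, eB, eD, Fin.reduceFinMk, Fin.reduceSucc, Fin.succ_zero_eq_one,
        Matrix.cons_val]; ring⟩

end F6

namespace F7

/-- coefficients of `x` -/
def al : Fin 12 → ℤ :=
  ![-621, -1, -9, -45, -11646, -416349, -5, -1809, -21015, -963, -747, -324063]

/-- coefficients of `y` -/
def be : Fin 12 → ℤ :=
  ![272, 0, 484, -64, 4675, 11968, -176, -2816, -8228, 1088, -400, 495616]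

/-- exponents -/
def eA : Fin (12 + 2) → ℕ := ![0, 0, 1, 1, 1, 1, 0, 0, 0, 0, 0, 0, 0, 0]

/-- exponents -/
def eB : Fin (12 + 2) → ℕ := ![1, 4, 1, 1, 1, 1, 1, 1, 1, 1, 0, 0, 0, 0]

/-- exponents -/
def eD : Fin (12 + 2) → ℕ := ![0, 0, 1, 1, 1, 1, 0, 0, 0, 0, 1, 1, 1, 1]

/-- symbols at the base point -/
def tb : Fin (12 + 2) → Fin (12 + 2) → ZMod 2 :=
  ![![1, 0, 1, 1, 1, 1, 1, 1, 1, 1, 0, 0, 0, 0],
    ![0, 0, 1, 0, 1, 1, 0, 1, 1, 0, 1, 1, 1, 0],
    ![1, 1, 0, 1, 0, 1, 0, 0, 0, 0, 1, 0, 1, 0],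
    ![1, 0, 0, 0, 0, 1, 1, 1, 0, 0, 1, 0, 1, 0],
    ![1, 1, 1, 1, 0, 0, 0, 0, 1, 1, 1, 1, 0, 0],
    ![1, 1, 0, 0, 1, 0, 1, 1, 1, 1, 1, 1, 0, 0],
    ![1, 0, 1, 0, 1, 0, 0, 1, 1, 1, 0, 1, 0, 1],
    ![1, 1, 1, 0, 1, 0, 0, 0, 1, 0, 0, 1, 0, 1],
    ![1, 1, 1, 1, 0, 0, 0, 0, 0, 0, 0, 0, 1, 1],
    ![1, 0, 1, 1, 0, 0, 0, 1, 1, 0, 0, 0, 1, 1],
    ![0, 1, 1, 1, 1, 1, 0, 0, 0, 0, 0, 1, 0, 1],
    ![0, 1, 0, 0, 1, 1, 1, 1, 0, 0, 1, 0, 0, 1],
    ![0, 1, 1, 1, 0, 0, 0, 0, 1, 1, 0, 0, 0, 0],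
    ![0, 0, 0, 0, 0, 0, 1, 1, 1, 1, 1, 1, 0, 0]]

/-- generators -/
def GE : Fin 5 → Fin (12 + 2) → ℕ :=
  ![eB, ![1, 0, 1, 1, 1, 1, 0, 0, 0, 0, 0, 0, 0, 0],
    ![0, 0, 1, 0, 0, 1, 0, 1, 1, 0, 0, 0, 0, 0],
    ![0, 0, 0, 1, 0, 1, 1, 0, 1, 0, 0, 0, 0, 0],
    ![0, 0, 1, 1, 0, 0, 1, 1, 1, 1, 0, 0, 0, 0]]

/-- generators -/
def GD : Fin (3 + 1) → Fin (12 + 2) → ℕ :=
  ![eD, ![0, 0, 0, 0, 0, 0, 0, 0, 0, 0, 1, 1, 1, 1],
    ![0, 0, 1, 0, 0, 1, 0, 0, 0, 0, 1, 0, 0, 1],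
    ![0, 0, 0, 1, 0, 1, 0, 0, 0, 0, 0, 1, 0, 1]]

/-- dual vectors -/
def PE : Fin 5 → List (Fin (12 + 2)) := ![[0, 3, 6], [3, 6], [6, 8], [2, 3, 6, 8], [0, 2, 6, 8]]

/-- dual vectors -/
def PD : Fin (3 + 1) → List (Fin (12 + 2)) := ![[4], [2, 10], [2, 4], [3, 4]]

/-- certificates -/
def CE (σ : ZMod 2) : Fin (12 + 2) → List (Bool × Fin (12 + 2)) :=
  if σ = 0 then
    ![[], [(false, 1)], [], [], [(false, 10), (false, 11), (false, 12), (false, 13), (true, 2),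
    (true, 10)], [(false, 1), (false, 10), (false, 12), (true, 2)], [], [(false, 1), (true, 2),
    (true, 3)], [], [(false, 1), (false, 12), (false, 13), (true, 2), (true, 4), (true, 10)],
    [(false, 10)], [(false, 11)], [(false, 12)], [(false, 13)]]
  else
    ![[], [(false, 1)], [], [], [(false, 10), (false, 11), (false, 12), (false, 13), (true, 2),
    (true, 10)], [(false, 12), (false, 13), (true, 2), (true, 3), (true, 4)], [], [(false, 1),
    (true, 2), (true, 3)], [], [(false, 10), (false, 12), (true, 2), (true, 3), (true, 10)],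
    [(false, 10)], [(false, 11)], [(false, 12)], [(false, 13)]]

/-- certificates -/
def CD (σ : ZMod 2) : Fin (12 + 2) → List (Bool × Fin (12 + 2)) :=
  if σ = 0 then
    ![[(false, 8), (false, 9), (true, 0), (true, 4), (true, 5)], [(false, 1)], [], [], [],
    [(false, 6), (false, 7), (true, 4), (true, 5)], [(false, 6)], [(false, 7)], [(false, 8)],
    [(false, 9)], [], [(false, 1), (true, 0), (true, 5)], [(false, 1), (false, 6), (false, 7),
    (false, 8), (false, 9), (true, 0), (true, 2)], [(false, 1), (false, 6), (false, 7), (true,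
    4), (true, 6)]]
  else
    ![[(false, 8), (false, 9), (true, 0), (true, 4), (true, 5)], [(false, 1)], [], [], [],
    [(false, 6), (false, 7), (true, 4), (true, 5)], [(false, 6)], [(false, 7)], [(false, 8)],
    [(false, 9)], [], [(true, 0), (true, 2), (true, 5), (true, 6)], [(false, 6), (false, 7),
    (false, 8), (false, 9), (true, 0), (true, 6)], [(false, 1), (false, 6), (false, 7), (true,
    4), (true, 6)]]

theorem base : Base (PP al be (-15823) 119) tb := by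
  unfold Base
  decide +kernel

theorem cert : ∀ σ, Side (tw tb σ) 91205 0 eA eB eD false ∧ Cert (rowsE (tw tb σ) eB eD false) GE PE (CE σ) ∧
    Cert (rowsD (tw tb σ) eB eD false) GD PD (CD σ) := by
  unfold Side Cert
  decide +kernel

theorem ev_eq (x y : ℤ) (e : Fin (12 + 2) → ℕ) : ev (PP al be x y) e =
    (-1) ^ e 0 * 2 ^ e 1 * (-621 * x + 272 * y) ^ e 2 * (-x) ^ e 3 * (-9 * x + 484 * y) ^ e 4 *
    (-45 * x - 64 * y) ^ e 5 * (-11646 * x + 4675 * y) ^ e 6 * (-416349 * x + 11968 * y) ^ e 7 *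
    (-5 * x - 176 * y) ^ e 8 * (-1809 * x - 2816 * y) ^ e 9 * (-21015 * x - 8228 * y) ^ e 10 *
    (-963 * x + 1088 * y) ^ e 11 * (-747 * x - 400 * y) ^ e 12 * (-324063 * x + 495616 * y) ^ e
    13 := by
  simp only [ev, PP, al, be, Fin.prod_univ_succ, Fin.prod_univ_zero, Matrix.cons_val_zero,
    Matrix.cons_val_succ, Fin.succ_zero_eq_one, Fin.reduceSucc]
  ring

theorem concl : Concl 7 := by
  refine family (i0 := 8) (i1 := 0) base (by decide) (by decide) (by decide) (by decide +kernel) cert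
    (by decide +kernel) rfl rfl (fun x y => ?_) (fun x y l => ?_) (fun x y l => ?_)
  · simp only [ev_eq, eA, eB, eD, Matrix.cons_val]
    ring
  · fin_cases l
    · exact ⟨0, 1, 1, by simp, by simp [GE]⟩
    · exact ⟨266, 1,
        32643810 * x ^ 2 + 96180480 * x * y - 21063680 * y ^ 2,
        by simp, by simp only [ev_eq, GE, GD, eA, eB, eD, Fin.reduceFinMk, Fin.reduceSucc, Fin.succ_zero_eq_one,
        Matrix.cons_val]; ring⟩
    · exact ⟨10, 19,
        31850658 * x ^ 2 - 29501208 * x * y - 19148800 * y ^ 2,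
        by simp, by simp only [ev_eq, GE, GD, eA, eB, eD, Fin.reduceFinMk, Fin.reduceSucc, Fin.succ_zero_eq_one,
        Matrix.cons_val]; ring⟩
    · exact ⟨70, 1,
        10390446 * x ^ 2 - 5123968 * x * y + 8425472 * y ^ 2,
        by simp, by simp only [ev_eq, GE, GD, eA, eB, eD, Fin.reduceFinMk, Fin.reduceSucc, Fin.succ_zero_eq_one,
        Matrix.cons_val]; ring⟩
    · exact ⟨2, 3453 * x - 176 * y,
        780098850 * x ^ 3 + 3967303248 * x ^ 2 * y + 1432135936 * x * y ^ 2 - 21807104 * y ^ 3,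
        by simp, by simp only [ev_eq, GE, GD, eA, eB, eD, Fin.reduceFinMk, Fin.reduceSucc, Fin.succ_zero_eq_one,
        Matrix.cons_val]; ring⟩
  · fin_cases l
    · exact ⟨1, 409,
        65287620 * x ^ 2 + 192360960 * x * y - 42127360 * y ^ 2,
        by simp, by simp only [ev_eq, GE, GD, eA, eB, eD, Fin.reduceFinMk, Fin.reduceSucc, Fin.succ_zero_eq_one,
        Matrix.cons_val]; ring⟩
    · exact ⟨1, 95,
        17424180 * x ^ 2 - 196356864 * x * y - 8425472 * y ^ 2,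
        by simp, by simp only [ev_eq, GE, GD, eA, eB, eD, Fin.reduceFinMk, Fin.reduceSucc, Fin.succ_zero_eq_one,
        Matrix.cons_val]; ring⟩
    · exact ⟨21, 16,
        57460995 * x ^ 2 - 316307520 * x * y + 168509440 * y ^ 2,
        by simp, by simp only [ev_eq, GE, GD, eA, eB, eD, Fin.reduceFinMk, Fin.reduceSucc, Fin.succ_zero_eq_one,
        Matrix.cons_val]; ring⟩

end F7

end Pool.Agent.MP_a43263_nt.Two
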