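import Pool.Agent.MP_a43263_nt.two.Base

/-! Descent by 2-isogeny on `y ^ 2 = x ^ 3 + A x ^ 2 + B x`. -/

namespace Pool.Agent.MP_a43263_nt.Two

open Classical WeierstrassCurve

/-- the curve `y ^ 2 = x ^ 3 + A x ^ 2 + B x` -/
abbrev EE (A B : ℚ) : WeierstrassCurve ℚ := ⟨0, A, 0, B, 0⟩

/-- the quartic attached to `β` has a point -/
def Sol {K : Type} [Field K] (A B β : K) : Prop :=
  ∃ u v w : K, ¬(u = 0 ∧ v = 0) ∧ β ^ 2 * u ^ 4 + A * β * u ^ 2 * v ^ 2 + B * v ^ 4 = β * w ^ 2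

/-- the quartic has points everywhere locally -/
def Els (A B β : ℚ) : Prop := Sol (A : ℝ) B β ∧ ∀ (p : ℕ) [Fact p.Prime], Sol (A : ℚ_[p]) B β

/-- `a`, `b` are the roots of `x ^ 2 + A x + B` -/
def Rt (A B : ℚ) {K : Type} [Field K] [CharZero K] (a b : K) : Prop := a + b = -A ∧ a * b = B

/-- the sign for the first isogeny -/
def G1 {F : Type} [Field F] (a b : F) {V : WeierstrassCurve.Affine F} (S : V.Point) (u : F) : Prop :=
  ∃ u2 u3, Sg a b S u2 u3 ∧ u2 * u3 = u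

variable {A B β γ : ℚ}

section
variable {K L : Type} [Field K] [CharZero K] [Field L] [CharZero L] {a b a' b' : K}

theorem Rt.map (f : K →+* L) (h : Rt A B a b) : Rt A B (f a) (f b) :=
  ⟨by simpa using congrArg f h.1, by simpa using congrArg f h.2⟩

theorem Rt.cases (f : K →+* K) (h : Rt A B a b) : (f a = a ∧ f b = b) ∨ (f a = b ∧ f b = a) := by
  obtain ⟨h1, h2⟩ := h.map f
  have : (f a - a) * (f a - b) = 0 := by
    linear_combination f a * h1 - h2 - f a * h.1 + h.2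
  rcases mul_eq_zero.1 this with e | e
  · exact .inl ⟨by linear_combination e, by linear_combination h1 - h.1 - e⟩
  · exact .inr ⟨by linear_combination e, by linear_combination h1 - h.1 - e⟩

theorem Rt.sq (h : Rt A B a b) : (a - b) ^ 2 = ((A ^ 2 - 4 * B : ℚ) : K) := by
  push_cast
  linear_combination (a + b - A) * h.1 - 4 * h.2

theorem Rt.isE [Algebra ℚ K] (h : Rt A B a b) (hB : B ≠ 0) (hD : A ^ 2 - 4 * B ≠ 0) :
    IsE ((EE A B).baseChange K).toAffine a b where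
  h1 := by simp [baseChange]
  h2 := by simp [baseChange, h.1]
  h3 := by simp [baseChange]
  h4 := by simp [baseChange, h.2]
  h6 := by simp [baseChange]
  ha := left_ne_zero_of_mul (b := b) (by rw [h.2]; exact_mod_cast hB)
  hb := right_ne_zero_of_mul (a := a) (by rw [h.2]; exact_mod_cast hB)
  hab := fun e => hD (by
    have := h.sq
    rw [e, zero_pow two_ne_zero] at this
    exact_mod_cast this.symm)
  two := two_ne_zero

theorem Rt.zr [Algebra ℚ K] (f : K →+* K) (h : Rt A B a b) {W : WeierstrassCurve ℚ} {P : Pt W K}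
    {z0 z2 z3 t : K} (hz : ZR a b P z0 z2 z3 t) :
    (f a = a ∧ f b = b ∧ ZR a b (ptMap W f P) (f z0) (f z2) (f z3) (f t)) ∨
      (f a = b ∧ f b = a ∧ ZR a b (ptMap W f P) (f z0) (f z3) (f z2) (f t)) := by
  have := hz.pm f
  rcases h.cases f with ⟨h1, h2⟩ | ⟨h1, h2⟩ <;> rw [h1, h2] at this
  exacts [.inl ⟨h1, h2, this⟩, .inr ⟨h1, h2, this.symm⟩]

theorem Rt.sg [Algebra ℚ K] (f : K →+* K) (h : Rt A B a b) {W : WeierstrassCurve ℚ} {S : Pt W K}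
    {u2 u3 : K} (hS : Sg a b S u2 u3) :
    (f a = a ∧ f b = b ∧ Sg a b (ptMap W f S) u2 u3) ∨
      (f a = b ∧ f b = a ∧ Sg a b (ptMap W f S) u3 u2) := by
  have := hS.pm f
  rw [map_sign _ hS.1, map_sign _ hS.2.1] at this
  rcases h.cases f with ⟨h1, h2⟩ | ⟨h1, h2⟩ <;> rw [h1, h2] at this
  exacts [.inl ⟨h1, h2, this⟩, .inr ⟨h1, h2, this.symm⟩]

end

section
variable {F : Type} [Field F] {V : WeierstrassCurve.Affine F} {a b u v : F} {S S' : V.Point}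

theorem G1.unique (h : G1 a b S u) (h' : G1 a b S v) : u = v := by
  obtain ⟨u2, u3, h, rfl⟩ := h
  obtain ⟨v2, v3, h', rfl⟩ := h'
  rw [(h.unique h').1, (h.unique h').2]

theorem G1.sq (h : G1 a b S u) : u ^ 2 = 1 := by
  obtain ⟨u2, u3, h, rfl⟩ := h
  rw [mul_pow, h.1, h.2.1, one_mul]

theorem g1_zero : G1 a b (0 : V.Point) 1 := ⟨1, 1, sg_zero, one_mul 1⟩

theorem Sg.g1 (h : Sg a b S u u) : G1 a b S 1 := ⟨u, u, h, by rw [← sq, h.1]⟩

theorem G1.sg (h : G1 a b S 1) : ∃ u, Sg a b S u u := by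
  obtain ⟨u2, u3, h, e⟩ := h
  obtain rfl : u2 = u3 := by linear_combination u3 * e - u2 * h.2.1
  exact ⟨u2, h⟩

theorem IsE.g1_add (hV : IsE V a b) (h : G1 a b S u) (h' : G1 a b S' v) :
    G1 a b (S + S') (u * v) := by
  obtain ⟨u2, u3, h, rfl⟩ := h
  obtain ⟨v2, v3, h', rfl⟩ := h'
  exact ⟨_, _, hV.sg_add h h', by ring⟩

theorem IsE.g1_sub (hV : IsE V a b) {R R' : V.Point} {z0 z2 z3 y2 y3 t : F} (hu : u ^ 2 = 1)
    (h : ZR a b R z0 z2 z3 t) (h' : ZR a b R' (u * z0) y2 y3 t) (e : y2 * y3 = u * (z2 * z3)) :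
    G1 a b (R' - R) u := by
  obtain ⟨e2, e3⟩ := hV.on h
  obtain ⟨f2, f3⟩ := hV.on h'
  have key : ∀ {y z : F}, y ^ 2 = z ^ 2 → ∃ s, s ^ 2 = 1 ∧ y = s * z := fun h => by
    rcases sq_eq_sq_iff_eq_or_eq_neg.1 h with rfl | rfl
    exacts [⟨1, by simp, by simp⟩, ⟨-1, by simp, by simp⟩]
  obtain ⟨s2, a2, rfl⟩ := key (y := y2) (z := z2) (by linear_combination e2 - f2 + z0 ^ 2 * hu)
  obtain ⟨s3, a3, rfl⟩ := key (y := y3) (z := z3) (by linear_combination e3 - f3 + z0 ^ 2 * hu)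
  by_cases h2 : z2 = 0
  · subst h2
    refine ⟨u * s3, s3, hV.sg_sub (by rw [mul_pow, hu, a3, one_mul]) a3 h ?_,
      by linear_combination u * a3⟩
    convert h' using 1
    · linear_combination u * z0 * a3
    · ring
  by_cases h3 : z3 = 0
  · subst h3
    refine ⟨s2, u * s2, hV.sg_sub a2 (by rw [mul_pow, hu, a2, one_mul]) h ?_,
      by linear_combination u * a2⟩
    convert h' using 1
    · linear_combination u * z0 * a2
    · ring
  have : s2 * s3 = u := mul_right_cancel₀ (mul_ne_zero h2 h3) (by linear_combination e)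
  exact ⟨s2, s3, hV.sg_sub a2 a3 h (this ▸ h'), this⟩

end

variable {a b ρ : Qbar} (hr : Rt A B a b)
include hr

theorem Rt.g1_ac {S : Pt (EE A B) Qbar} {u : Qbar} (h : G1 a b S u) (σ : GQ) :
    G1 a b (ac _ σ S) u := by
  obtain ⟨u2, u3, h, rfl⟩ := h
  rcases hr.sg (σ : Qbar →+* Qbar) h with h | h
  exacts [⟨_, _, h.2.2, rfl⟩, ⟨_, _, h.2.2, mul_comm _ _⟩]

theorem Rt.g2_ac {S : Pt (EE A B) Qbar} {u : Qbar} (h : Sg a b S u u) (σ : GQ) :
    Sg a b (ac _ σ S) u u := by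
  rcases hr.sg (σ : Qbar →+* Qbar) h with h | h <;> exact h.2.2

variable (hB : B ≠ 0) (hD : A ^ 2 - 4 * B ≠ 0)
include hB hD

theorem roots1 {c : GQ → Pt (EE A B) Qbar} (hcc : c ∈ cocycles (EE A B))
    (h2 : ∀ σ, 2 • c σ = 0) :
    ∃ (β : ℚ) (ρ : Qbar), β ≠ 0 ∧ ρ ^ 2 = β ∧ ∀ σ, G1 a b (c σ) (σ ρ / ρ) := by
  have hE := hr.isE hB hD
  have : ∀ σ, ∃ u, G1 a b (c σ) u := fun σ => by
    obtain ⟨u2, u3, h⟩ := hE.sg_ex (h2 σ)
    exact ⟨_, u2, u3, h, rfl⟩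
  choose u hu using this
  obtain ⟨d, r, n, m, s, t⟩ := exists_sqrt hcc (fun σ => (hu σ).sq) (fun σ τ => by
    have h1 := hE.g1_add (hu σ) (hr.g1_ac (hu τ) σ)
    rw [← hcc.2] at h1
    exact (hu _).unique h1) fun σ h => (h ▸ hu σ).unique g1_zero
  refine ⟨d, r, n, s, fun σ => ?_⟩
  rw [t, mul_div_cancel_right₀ _ m]
  exact hu σ

theorem roots2 {c : GQ → Pt (EE A B) Qbar} (hcc : c ∈ cocycles (EE A B))
    (h2 : ∀ σ, G1 a b (c σ) 1) :
    ∃ (β : ℚ) (ρ : Qbar), β ≠ 0 ∧ ρ ^ 2 = β ∧ ∀ σ, Sg a b (c σ) (σ ρ / ρ) (σ ρ / ρ) := by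
  have hE := hr.isE hB hD
  choose u hu using fun σ => (h2 σ).sg
  obtain ⟨d, r, n, m, s, t⟩ := exists_sqrt hcc (fun σ => (hu σ).1) (fun σ τ => by
    have h1 := hE.sg_add (hu σ) (hr.g2_ac (hu τ) σ)
    rw [← hcc.2] at h1
    exact ((hu _).unique h1).1) fun σ h => ((h ▸ hu σ).unique sg_zero).1
  refine ⟨d, r, n, s, fun σ => ?_⟩
  rw [t, mul_div_cancel_right₀ _ m]
  exact hu σ

theorem loc1 {c : GQ → Pt (EE A B) Qbar} (n : β ≠ 0) (s : ρ ^ 2 = β)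
    (hu : ∀ σ, G1 a b (c σ) (σ ρ / ρ)) (K : Type) [Field K] [CharZero K]
    (hK : LocTriv (EE A B) K c) : Sol (A : K) B β := by
  obtain ⟨R, hR⟩ := hK
  have hr' := hr.map (emb K)
  have hE := hr'.isE hB hD
  obtain ⟨z0, z2, z3, t, hz⟩ := exists_zr (emb K a) (emb K b) R
  obtain ⟨e2, e3⟩ := hE.on hz
  have m : emb K ρ ≠ 0 := by simpa using root_ne n s
  have q : emb K ρ ^ 2 = β := by rw [← map_pow, s, map_ratCast]
  have key : ∀ σ : AlgebraicClosure K ≃ₐ[K] AlgebraicClosure K, ∃ k,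
      (∀ v, v = z0 / emb K ρ ∨ v = t → σ v = k * v) ∧
        σ (z2 * z3 / emb K ρ) = k ^ 2 * (z2 * z3 / emb K ρ) := by
    intro σ
    obtain ⟨τ, hτ⟩ := exists_res K σ
    obtain ⟨u2, u3, h0, e⟩ := hu τ
    have h2 := hE.shift (h0.pm (emb K)) hz
    rw [hR σ τ hτ, add_sub_cancel] at h2
    have e' := congrArg (emb K) e
    rw [map_mul, map_div₀, hτ, eq_div_iff m] at e'
    have a₂ : σ (emb K ρ) ≠ 0 := (map_ne_zero σ).2 m
    have a₃ : emb K u2 * emb K u3 ≠ 0 := left_ne_zero_of_mul (e' ▸ a₂)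
    obtain ⟨k, f0, f2, f4⟩ : ∃ k, σ z0 = k * (emb K u2 * emb K u3 * z0) ∧
        σ z2 * σ z3 = k ^ 2 * (emb K u2 * emb K u3 * (z2 * z3)) ∧ σ t = k * t := by
      rcases hr'.zr (σ : AlgebraicClosure K →+* AlgebraicClosure K) hz with h3 | h3 <;>
        obtain ⟨k, -, f0, f2, f3, f4⟩ := h2.prop h3.2.2
      · exact ⟨k, f0, by rw [show σ z2 = _ from f2, show σ z3 = _ from f3]; ring, f4⟩
      · exact ⟨k, f0, by rw [show σ z3 = _ from f2, show σ z2 = _ from f3]; ring, f4⟩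
    refine ⟨k, ?_, ?_⟩
    · rintro v (rfl | rfl)
      · rw [map_div₀, f0, ← e', mul_left_comm, mul_div_mul_left _ _ a₃, mul_div_assoc]
      · exact f4
    · rw [map_div₀, map_mul, f2, ← e', mul_left_comm, mul_div_mul_left _ _ a₃, mul_div_assoc]
  obtain ⟨l, hl, hl'⟩ : ∃ l, l ≠ 0 ∧ (l = z0 / emb K ρ ∨ l = t) := by
    by_cases h : t = 0
    · exact ⟨_, div_ne_zero (fun h0 => hE.ne hz ⟨h0, h⟩) m, .inl rfl⟩
    · exact ⟨t, h, .inr rfl⟩
  have hfix : ∀ v, v = z0 / emb K ρ ∨ v = t → ∃ x : K, v = algebraMap K _ x * l ^ 1 := fun v hv =>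
    fixed_div K hl 1 fun σ => by
      obtain ⟨k, hk, -⟩ := key σ
      exact ⟨k, hk l hl', by rw [pow_one]; exact hk v hv⟩
  obtain ⟨u, h0⟩ := hfix _ (.inl rfl)
  obtain ⟨v, h4⟩ := hfix _ (.inr rfl)
  obtain ⟨w, h2⟩ := fixed_div K (v := z2 * z3 / emb K ρ) hl 2 fun σ => by
    obtain ⟨k, hk, hk'⟩ := key σ
    exact ⟨k, hk l hl', hk'⟩
  rw [div_eq_iff m] at h0 h2
  refine ⟨u, v, w, ?_, ?_⟩
  · rintro ⟨rfl, rfl⟩
    exact hE.ne hz ⟨by simpa using h0, by simpa using h4⟩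
  · apply (algebraMap K (AlgebraicClosure K)).injective
    apply mul_left_cancel₀ (pow_ne_zero 4 hl)
    have e4 : (z0 ^ 2 - emb K a * t ^ 2) * (z0 ^ 2 - emb K b * t ^ 2) = (z2 * z3) ^ 2 := by
      rw [← e2, ← e3]; ring
    have hA : (A : AlgebraicClosure K) = -(emb K a + emb K b) := by rw [hr'.1, neg_neg]
    simp only [map_add, map_mul, map_pow, map_ratCast, ← q, ← hr'.2, hA]
    rw [h2, h0, h4] at e4
    linear_combination e4

theorem loc2 {c : GQ → Pt (EE A B) Qbar} (n : β ≠ 0) (s : ρ ^ 2 = β)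
    (hu : ∀ σ, Sg a b (c σ) (σ ρ / ρ) (σ ρ / ρ)) (K : Type) [Field K] [CharZero K]
    (hK : LocTriv (EE A B) K c) : Sol ((-2 * A : ℚ) : K) (A ^ 2 - 4 * B : ℚ) β := by
  obtain ⟨R, hR⟩ := hK
  have hr' := hr.map (emb K)
  have hE := hr'.isE hB hD
  have hab := hE.hab
  obtain ⟨z0, z2, z3, t, hz⟩ := exists_zr (emb K a) (emb K b) R
  obtain ⟨e2, e3⟩ := hE.on hz
  have m : emb K ρ ≠ 0 := by simpa using root_ne n s
  have q : emb K ρ ^ 2 = β := by rw [← map_pow, s, map_ratCast]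
  have key : ∀ σ : AlgebraicClosure K ≃ₐ[K] AlgebraicClosure K, ∃ k,
      ∀ v, (v = z0 ∨ v = t) ∨ v = (z2 + z3) / (2 * emb K ρ) ∨
        v = (z3 - z2) / (2 * emb K ρ * (emb K a - emb K b)) → σ v = k * v := by
    intro σ
    obtain ⟨τ, hτ⟩ := exists_res K σ
    have h0 := (hu τ).pm (emb K)
    rw [map_div₀, hτ] at h0
    have h2 := hE.shift h0 hz
    rw [hR σ τ hτ, add_sub_cancel, ← sq, h0.1, one_mul] at h2
    have a₂ : σ (emb K ρ) ≠ 0 := (map_ne_zero σ).2 m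
    have hba : emb K b - emb K a ≠ 0 := hE.symm.hab
    rcases hr'.zr (σ : AlgebraicClosure K →+* AlgebraicClosure K) hz with h3 | h3 <;>
      obtain ⟨k, -, f0, f2, f3, f4⟩ := h2.prop h3.2.2 <;> refine ⟨k, ?_⟩ <;>
      rintro v ((rfl | rfl) | rfl | rfl)
    · exact f0
    · exact f4
    · rw [map_div₀, map_add, map_mul, map_ofNat, show σ z2 = _ from f2, show σ z3 = _ from f3]
      field_simp
    · rw [map_div₀, map_sub, map_mul, map_mul, map_sub, map_ofNat, show σ z2 = _ from f2,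
        show σ z3 = _ from f3, show σ (emb K a) = _ from h3.1, show σ (emb K b) = _ from h3.2.1]
      field_simp
    · exact f0
    · exact f4
    · rw [map_div₀, map_add, map_mul, map_ofNat, show σ z3 = _ from f2, show σ z2 = _ from f3]
      field_simp
      ring
    · rw [map_div₀, map_sub, map_mul, map_mul, map_sub, map_ofNat, show σ z3 = _ from f2,
        show σ z2 = _ from f3, show σ (emb K a) = _ from h3.1, show σ (emb K b) = _ from h3.2.1]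
      field_simp
      ring
  obtain ⟨l, hl, hl'⟩ : ∃ l, l ≠ 0 ∧ (l = z0 ∨ l = t) := by
    by_cases h : t = 0
    · exact ⟨_, fun h0 => hE.ne hz ⟨h0, h⟩, .inl rfl⟩
    · exact ⟨t, h, .inr rfl⟩
  have hfix : ∀ v, (v = z0 ∨ v = t) ∨ v = (z2 + z3) / (2 * emb K ρ) ∨
      v = (z3 - z2) / (2 * emb K ρ * (emb K a - emb K b)) →
      ∃ x : K, v = algebraMap K _ x * l ^ 1 := fun v hv =>
    fixed_div K hl 1 fun σ => by
      obtain ⟨k, hk⟩ := key σ
      exact ⟨k, hk l (.inl hl'), by rw [pow_one]; exact hk v hv⟩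
  obtain ⟨x0, h0⟩ := hfix _ (.inl (.inl rfl))
  obtain ⟨x4, h4⟩ := hfix _ (.inl (.inr rfl))
  obtain ⟨x2, h2⟩ := hfix _ (.inr (.inl rfl))
  obtain ⟨x3, h3⟩ := hfix _ (.inr (.inr rfl))
  rw [div_eq_iff (mul_ne_zero two_ne_zero m)] at h2
  rw [div_eq_iff (mul_ne_zero (mul_ne_zero two_ne_zero m) hab)] at h3
  have g2 : z2 = l * emb K ρ * (algebraMap K _ x2 - (emb K a - emb K b) * algebraMap K _ x3) := by
    linear_combination (h2 - h3) / 2
  have g3 : z3 = l * emb K ρ * (algebraMap K _ x2 + (emb K a - emb K b) * algebraMap K _ x3) := by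
    linear_combination (h2 + h3) / 2
  have hA : (A : AlgebraicClosure K) = -(emb K a + emb K b) := by rw [hr'.1, neg_neg]
  rw [g2, h0, h4] at e2
  rw [g3, h0, h4] at e3
  have c1 : x4 ^ 2 = 4 * β * x2 * x3 := by
    apply (algebraMap K (AlgebraicClosure K)).injective
    apply mul_left_cancel₀ (mul_ne_zero hab (pow_ne_zero 2 hl))
    simp only [map_mul, map_pow, map_ratCast, map_ofNat, ← q]
    linear_combination e3 - e2
  have c2 : x0 ^ 2 = β * (x2 ^ 2 - 2 * A * x2 * x3 + (A ^ 2 - 4 * B) * x3 ^ 2) := by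
    have c1' := congrArg (algebraMap K (AlgebraicClosure K)) c1
    apply (algebraMap K (AlgebraicClosure K)).injective
    apply mul_left_cancel₀ (mul_ne_zero two_ne_zero (pow_ne_zero 2 hl))
    simp only [map_add, map_sub, map_mul, map_pow, map_ratCast, map_ofNat, ← q, ← hr'.2, hA] at c1' ⊢
    linear_combination e2 + e3 + (emb K a + emb K b) * l ^ 2 * c1'
  have n' : (β : K) ≠ 0 := by exact_mod_cast n
  by_cases h : x3 = 0
  · subst h
    refine ⟨x2, 0, x2 * x0, ?_, by linear_combination (-β * x2 ^ 2) * c2⟩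
    rintro ⟨rfl, -⟩
    obtain rfl : x0 = 0 := by simpa using c2
    obtain rfl : x4 = 0 := by simpa using c1
    exact hE.ne hz ⟨by simpa using h0, by simpa using h4⟩
  · refine ⟨x4, 2 * β * x3, 4 * β * x3 * x0, fun h' => by simp [n', h] at h', ?_⟩
    push_cast
    linear_combination (β ^ 2 * (x4 ^ 2 + 4 * β * x2 * x3) - 8 * A * β ^ 3 * x3 ^ 2) * c1 -
      16 * β ^ 3 * x3 ^ 2 * c2

theorem cover1 (n : β ≠ 0) (s : ρ ^ 2 = β) (h : Sol A B β) :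
    ∃ R : Pt (EE A B) Qbar, ∀ σ : GQ, G1 a b (ac _ σ R - R) (σ ρ / ρ) := by
  have hE := hr.isE hB hD
  obtain ⟨u, v, w, hne, e⟩ := h
  have m := root_ne n s
  have e' : (β : Qbar) ^ 2 * u ^ 4 + A * β * u ^ 2 * v ^ 2 + B * v ^ 4 = β * w ^ 2 := by
    exact_mod_cast e
  rw [← s, ← hr.2, show (A : Qbar) = -(a + b) by rw [hr.1, neg_neg]] at e'
  obtain ⟨z2, z3, e2, e3, e4⟩ : ∃ z2 z3 : Qbar, (ρ * u) ^ 2 - z2 ^ 2 = a * v ^ 2 ∧
      (ρ * u) ^ 2 - z3 ^ 2 = b * v ^ 2 ∧ z2 * z3 = ρ * w := by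
    obtain ⟨z2, h2⟩ := IsAlgClosed.exists_pow_nat_eq ((ρ * u) ^ 2 - a * v ^ 2) two_pos
    by_cases h0 : z2 = 0
    · obtain ⟨z3, h3⟩ := IsAlgClosed.exists_pow_nat_eq ((ρ * u) ^ 2 - b * v ^ 2) two_pos
      subst h0
      exact ⟨0, z3, by linear_combination -h2, by linear_combination -h3, by
        rw [zero_mul, eq_comm, ← pow_eq_zero_iff two_ne_zero]
        linear_combination -e' - ((ρ * u) ^ 2 - b * v ^ 2) * h2⟩
    · refine ⟨z2, ρ * w / z2, by linear_combination -h2, ?_, by field_simp⟩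
      field_simp
      linear_combination e' + ((ρ * u) ^ 2 - b * v ^ 2) * h2
  obtain ⟨R, hR⟩ := hE.surj e2 e3 (by simpa [m] using hne)
  refine ⟨R, fun σ => ?_⟩
  have e5 : σ z2 * σ z3 = σ ρ / ρ * (z2 * z3) := by
    rw [← map_mul, e4, map_mul, map_ratCast]; field_simp
  have e6 : (σ : Qbar →+* Qbar) (ρ * u) = σ ρ / ρ * (ρ * u) := by
    simp; field_simp
  rcases hr.zr (σ : Qbar →+* Qbar) hR with h | h <;> rw [e6, map_ratCast] at h
  · exact hE.g1_sub (quot_sq n s σ) hR h.2.2 e5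
  · exact hE.g1_sub (quot_sq n s σ) hR h.2.2 ((mul_comm _ _).trans e5)

theorem cover2 (n : β ≠ 0) (s : ρ ^ 2 = β) (h : Sol (-2 * A) (A ^ 2 - 4 * B) β) :
    ∃ R : Pt (EE A B) Qbar, ∀ σ : GQ, Sg a b (ac _ σ R - R) (σ ρ / ρ) (σ ρ / ρ) := by
  have hE := hr.isE hB hD
  obtain ⟨u, v, w, hne, e⟩ := h
  have m := root_ne n s
  have e' : (β : Qbar) ^ 2 * u ^ 4 + -2 * A * β * u ^ 2 * v ^ 2 + (A ^ 2 - 4 * B) * v ^ 4 =
      β * w ^ 2 := by exact_mod_cast e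
  rw [← s, ← hr.2, show (A : Qbar) = -(a + b) by rw [hr.1, neg_neg]] at e'
  obtain ⟨R, hR⟩ := hE.surj (z0 := (β : Qbar) * w) (z2 := ρ * (β * u ^ 2 - (a - b) * v ^ 2))
    (z3 := ρ * (β * u ^ 2 + (a - b) * v ^ 2)) (t := 2 * (β : Qbar) * u * v)
    (by rw [← s]; linear_combination (-ρ ^ 2) * e') (by rw [← s]; linear_combination (-ρ ^ 2) * e')
    (by
      rintro ⟨h0, h1⟩
      obtain rfl : w = 0 := by simpa [n] using h0
      obtain rfl | rfl : u = 0 ∨ v = 0 := by simpa [n] using h1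
      · exact hne ⟨rfl, by simpa [hD] using e⟩
      · exact hne ⟨by simpa [n] using e, rfl⟩)
  have hs := quot_sq n s
  refine ⟨R, fun σ => hE.sg_sub (hs σ) (hs σ) hR ?_⟩
  rw [← sq, hs σ]
  rcases hr.zr (σ : Qbar →+* Qbar) hR with ⟨h1, h2, h⟩ | ⟨h1, h2, h⟩ <;>
    simp only [map_mul, map_sub, map_add, map_pow, map_ratCast, map_ofNat, h1, h2] at h <;>
    convert h using 1 <;> simp <;> field_simp <;> ring

omit hr hB hD in
/-- `β` is the image of `P` under the first descent map -/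
def Gd1 (A B : ℚ) (a b : Qbar) (β : ℚ) (P : Pt (EE A B) ℚ) : Prop :=
  β ≠ 0 ∧ ∃ (ρ : Qbar) (R : Pt (EE A B) Qbar), ρ ^ 2 = β ∧ 2 • R = inc _ P ∧
    ∀ σ : GQ, G1 a b (ac _ σ R - R) (σ ρ / ρ)

omit hr hB hD in
/-- `P` comes from a point of the isogenous curve with class `β` -/
def Gd2 (A B : ℚ) (a b : Qbar) (β : ℚ) (P : Pt (EE A B) ℚ) : Prop :=
  β ≠ 0 ∧ ∃ (ρ : Qbar) (R : Pt (EE A B) Qbar), ρ ^ 2 = β ∧ 2 • R = inc _ P ∧
    ∀ σ : GQ, Sg a b (ac _ σ R - R) (σ ρ / ρ) (σ ρ / ρ)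

omit hr hB hD in
theorem Gd2.gd1 {P : Pt (EE A B) ℚ} (h : Gd2 A B a b β P) : Gd1 A B a b 1 P := by
  obtain ⟨-, ρ, R, -, hR, hu⟩ := h
  exact ⟨one_ne_zero, 1, R, by simp, hR, fun σ => by simpa using (hu σ).g1⟩

theorem Gd1.mul {P Q : Pt (EE A B) ℚ} (h : Gd1 A B a b β P) (h' : Gd1 A B a b γ Q) :
    Gd1 A B a b (β * γ) (P + Q) := by
  obtain ⟨n, r, R, s, hR, hu⟩ := h
  obtain ⟨n', r', R', s', hR', hu'⟩ := h'
  refine ⟨mul_ne_zero n n', r * r', R + R', by rw [mul_pow, s, s', Rat.cast_mul],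
    by rw [smul_add, hR, hR', map_add], fun σ => ?_⟩
  convert (hr.isE hB hD).g1_add (hu σ) (hu' σ) using 1
  · rw [map_add]; abel
  · rw [map_mul, mul_div_mul_comm]

theorem Gd2.mul {P Q : Pt (EE A B) ℚ} (h : Gd2 A B a b β P) (h' : Gd2 A B a b γ Q) :
    Gd2 A B a b (β * γ) (P + Q) := by
  obtain ⟨n, r, R, s, hR, hu⟩ := h
  obtain ⟨n', r', R', s', hR', hu'⟩ := h'
  refine ⟨mul_ne_zero n n', r * r', R + R', by rw [mul_pow, s, s', Rat.cast_mul],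
    by rw [smul_add, hR, hR', map_add], fun σ => ?_⟩
  convert (hr.isE hB hD).sg_add (hu σ) (hu' σ) using 1
  · rw [map_add]; abel
  · rw [map_mul, mul_div_mul_comm]
  · rw [map_mul, mul_div_mul_comm]

theorem Gd1.prod {ι : Type} {g : ι → ℚ} {P : ι → Pt (EE A B) ℚ}
    (h : ∀ i, Gd1 A B a b (g i) (P i)) (I : Finset ι) :
    Gd1 A B a b (∏ i ∈ I, g i) (∑ i ∈ I, P i) := by
  induction I using Finset.induction_on with
  | empty => exact ⟨by simp, 1, 0, by simp, by simp, fun σ => by simpa using g1_zero⟩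
  | insert i I hi ih =>
    rw [Finset.prod_insert hi, Finset.sum_insert hi]
    exact (h i).mul hr hB hD ih

theorem Gd2.prod {ι : Type} {g : ι → ℚ} {P : ι → Pt (EE A B) ℚ}
    (h : ∀ i, Gd2 A B a b (g i) (P i)) (I : Finset ι) :
    Gd2 A B a b (∏ i ∈ I, g i) (∑ i ∈ I, P i) := by
  induction I using Finset.induction_on with
  | empty => exact ⟨by simp, 1, 0, by simp, by simp, fun σ => by simpa using sg_zero⟩
  | insert i I hi ih =>
    rw [Finset.prod_insert hi, Finset.sum_insert hi]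
    exact (h i).mul hr hB hD ih

theorem gd1_of_sol (n : β ≠ 0) (h : Sol A B β) : ∃ P, Gd1 A B a b β P := by
  obtain ⟨r, s⟩ := IsAlgClosed.exists_pow_nat_eq (β : Qbar) two_pos
  obtain ⟨R, hR⟩ := cover1 hr hB hD n s h
  obtain ⟨P, hP⟩ := exists_inc (P := 2 • R) fun σ => by
    obtain ⟨u2, u3, h, -⟩ := hR σ
    rw [map_nsmul, ← sub_eq_zero, ← smul_sub, (hr.isE hB hD).sg_two h]
  exact ⟨P, n, r, R, s, hP.symm, hR⟩

theorem gd2_of_sol (n : β ≠ 0) (h : Sol (-2 * A) (A ^ 2 - 4 * B) β) : ∃ P, Gd2 A B a b β P := by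
  obtain ⟨r, s⟩ := IsAlgClosed.exists_pow_nat_eq (β : Qbar) two_pos
  obtain ⟨R, hR⟩ := cover2 hr hB hD n s h
  obtain ⟨P, hP⟩ := exists_inc (P := 2 • R) fun σ => by
    rw [map_nsmul, ← sub_eq_zero, ← smul_sub, (hr.isE hB hD).sg_two (hR σ)]
  exact ⟨P, n, r, R, s, hP.symm, hR⟩

theorem gd2_D : Gd2 A B a b (A ^ 2 - 4 * B) 0 := by
  have hE := hr.isE hB hD
  have hab := hE.hab
  obtain ⟨S, hS⟩ := hE.sg_exists (u2 := 1) (u3 := -1) (by simp) (by simp)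
  refine ⟨hD, a - b, S, hr.sq, by rw [hE.sg_two hS, map_zero], fun σ => ?_⟩
  rcases hr.sg (σ : Qbar →+* Qbar) hS with ⟨h1, h2, h⟩ | ⟨h1, h2, h⟩ <;>
    rw [map_sub, show σ a = _ from h1, show σ b = _ from h2]
  · rw [hE.sg_inj h hS, sub_self, div_self hab]
    exact sg_zero
  · rw [show (b - a) / (a - b) = -1 by field_simp; ring, sub_eq_add_neg,
      neg_eq_of_add_eq_zero_left ((two_nsmul S).symm.trans (hE.sg_two hS))]
    simpa using hE.sg_add h hS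

theorem Gd1.sq {Z : Pt (EE A B) ℚ} (h : Gd1 A B a b β (2 • Z)) : IsSquare β := by
  have hE := hr.isE hB hD
  obtain ⟨n, r, R, s, hR, hu⟩ := h
  obtain ⟨u2, u3, hS⟩ := hE.sg_ex (S := R - inc _ Z) (by rw [smul_sub, hR, map_nsmul, sub_self])
  have hS' : G1 a b (R - inc _ Z) (u2 * u3) := ⟨_, _, hS, rfl⟩
  refine (isSquare_iff n s).2 fun σ => ?_
  have h1 := hr.g1_ac hS' σ
  have h2 := hE.g1_add hS' (hu σ)
  rw [map_sub, ac_inc] at h1
  rw [show R - inc _ Z + (ac _ σ R - R) = ac _ σ R - inc _ Z by abel] at h2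
  exact mul_left_cancel₀ (ne_of_sq hS'.sq) (by rw [mul_one]; exact h2.unique h1)

theorem Gd2.sq {Z : Pt (EE A B) ℚ} (h : Gd2 A B a b β (2 • Z)) :
    IsSquare β ∨ IsSquare ((A ^ 2 - 4 * B) * β) := by
  have hE := hr.isE hB hD
  have hab := hE.hab
  obtain ⟨n, r, R, s, hR, hu⟩ := h
  obtain ⟨u2, u3, hS⟩ := hE.sg_ex (S := R - inc _ Z) (by rw [smul_sub, hR, map_nsmul, sub_self])
  have key : ∀ σ : GQ, (σ (a - b) = a - b ∧ σ r / r = 1) ∨
      (σ (a - b) = b - a ∧ σ r / r = u2 * u3) := fun σ => by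
    have h2 := hE.sg_add hS (hu σ)
    rw [show R - inc _ Z + (ac _ σ R - R) = ac _ σ (R - inc _ Z) by rw [map_sub, ac_inc]; abel] at h2
    rcases hr.sg (σ : Qbar →+* Qbar) hS with ⟨h1, h3, h⟩ | ⟨h1, h3, h⟩ <;>
      rw [map_sub, show σ a = _ from h1, show σ b = _ from h3]
    · exact .inl ⟨rfl, by linear_combination u2 * (h2.unique h).1 - (σ r / r - 1) * hS.1⟩
    · exact .inr ⟨rfl, by linear_combination u2 * (h2.unique h).1 - σ r / r * hS.1⟩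
  have h1 : (u2 * u3) ^ 2 = 1 := by rw [mul_pow, hS.1, hS.2.1, one_mul]
  rcases sq_eq_one_iff.1 h1 with e | e <;> rw [e] at key
  · exact .inl ((isSquare_iff n s).2 fun σ => (key σ).elim (·.2) (·.2))
  · refine .inr ((isSquare_iff (r := (a - b) * r) (mul_ne_zero hD n)
      (by rw [mul_pow, hr.sq, s, Rat.cast_mul])).2 fun σ => ?_)
    rw [map_mul, mul_div_mul_comm]
    rcases key σ with h | h <;> rw [h.1, h.2] <;> field_simp
    ring

omit hr hB hD in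
theorem quot_of_sq {r s : Qbar} (n : β ≠ 0) (n' : γ ≠ 0) (h : r ^ 2 = β) (h' : s ^ 2 = γ)
    (e : IsSquare (β * γ)) (σ : GQ) : σ r / r = σ s / s := by
  have := (isSquare_iff (r := r * s) (mul_ne_zero n n')
    (by rw [mul_pow, h, h', Rat.cast_mul])).1 e σ
  rw [map_mul, mul_div_mul_comm] at this
  linear_combination σ s / s * this - σ r / r * quot_sq n' h' σ

theorem desc {ι κ : Type} {g : ι → ℚ} {g' : κ → ℚ} {P : ι → Pt (EE A B) ℚ} {P' : κ → Pt (EE A B) ℚ}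
    (hP : ∀ i, Gd1 A B a b (g i) (P i)) (hP' : ∀ j, Gd2 A B a b (g' j) (P' j))
    (hs : ∀ β, β ≠ 0 → Els A B β → ∃ I : Finset ι, IsSquare (β * ∏ i ∈ I, g i))
    (hs' : ∀ β, β ≠ 0 → Els (-2 * A) (A ^ 2 - 4 * B) β → ∃ J : Finset κ,
      IsSquare (β * ∏ j ∈ J, g' j) ∨ IsSquare (β * ((A ^ 2 - 4 * B) * ∏ j ∈ J, g' j)))
    {c : GQ → Pt (EE A B) Qbar} (hc : c ∈ cocycles (EE A B)) (h2 : ∀ σ, 2 • c σ = 0)
    (hR : LocTriv (EE A B) ℝ c) (hp : ∀ (p : ℕ) [Fact p.Prime], LocTriv (EE A B) ℚ_[p] c) :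
    ∃ (R : Pt (EE A B) Qbar) (I : Finset ι) (J : Finset κ),
      2 • R = inc _ (∑ i ∈ I, P i + ∑ j ∈ J, P' j) ∧ ∀ σ, c σ = ac _ σ R - R := by
  have hE := hr.isE hB hD
  obtain ⟨β, ρ, n, s, hu⟩ := roots1 hr hB hD hc h2
  obtain ⟨I, hI⟩ := hs β n
    ⟨loc1 hr hB hD n s hu ℝ hR, fun p _ => loc1 hr hB hD n s hu _ (hp p)⟩
  obtain ⟨n1, r1, R1, s1, hR1, hu1⟩ := Gd1.prod hr hB hD hP I
  have hc' := (cocycles (EE A B)).sub_mem hc (cob_mem R1)
  obtain ⟨γ, ρ', n', s', hu'⟩ := roots2 hr hB hD hc' fun σ => by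
    obtain ⟨u2, u3, h, e⟩ := hu1 σ
    have := hE.g1_add (hu σ) (hu1 σ)
    rw [quot_of_sq n n1 s s1 hI σ, ← sq, quot_sq n1 s1] at this
    rwa [Pi.sub_apply, sub_eq_add_neg,
      neg_eq_of_add_eq_zero_left ((two_nsmul _).symm.trans (hE.sg_two h))]
  obtain ⟨J, hJ⟩ := hs' γ n' ⟨loc2 hr hB hD n' s' hu' ℝ (hR.sub_cob R1),
    fun p _ => loc2 hr hB hD n' s' hu' _ ((hp p).sub_cob R1)⟩
  obtain ⟨δ, hδ, n2, r2, R2, s2, hR2, hu2⟩ :
      ∃ δ, IsSquare (γ * δ) ∧ Gd2 A B a b δ (∑ j ∈ J, P' j) := by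
    rcases hJ with h | h
    · exact ⟨_, h, Gd2.prod hr hB hD hP' J⟩
    · exact ⟨_, h, by simpa using (gd2_D hr hB hD).mul hr hB hD (Gd2.prod hr hB hD hP' J)⟩
  refine ⟨R1 + R2, I, J, by rw [smul_add, hR1, hR2, map_add], fun σ => ?_⟩
  have := hu' σ
  rw [quot_of_sq n' n2 s' s2 hδ σ] at this
  have := hE.sg_inj this (hu2 σ)
  rw [Pi.sub_apply, sub_eq_iff_eq_add] at this
  rw [this, map_add]
  abel

omit hr in
theorem card_two (hD' : ¬IsSquare (A ^ 2 - 4 * B)) :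
    Nat.card {Z : Pt (EE A B) ℚ // 2 • Z = 0} = 2 ^ 1 := by
  have hΔ : ((EE A B).baseChange ℚ).Δ ≠ 0 := by
    have : ((EE A B).baseChange ℚ).Δ = 16 * B ^ 2 * (A ^ 2 - 4 * B) := by
      simp [baseChange, Δ, b₂, b₄, b₆, b₈]; ring
    rw [this]
    positivity
  have hT : ((EE A B).baseChange ℚ).toAffine.Nonsingular 0 0 := by
    rw [← Affine.equation_iff_nonsingular_of_Δ_ne_zero hΔ, Affine.equation_iff]
    simp [baseChange]
  have hn : ∀ x y, ((EE A B).baseChange ℚ).toAffine.negY x y = -y := by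
    simp [baseChange, Affine.negY]
  rw [pow_one, Nat.card_eq_two_iff]
  refine ⟨⟨0, by simp⟩, ⟨.some 0 0 hT, by
    rw [two_nsmul, Affine.Point.add_self_of_Y_eq (by rw [hn, neg_zero])]⟩,
    fun h => Affine.Point.some_ne_zero _ (congrArg Subtype.val h).symm,
    Set.eq_univ_of_forall ?_⟩
  rintro ⟨_ | ⟨x, y, h⟩, hZ⟩
  · exact .inl rfl
  have hy : y = 0 := by
    by_contra hy
    rw [two_nsmul, Affine.Point.add_self_of_Y_ne (by rw [hn]; intro h; exact hy (by linarith))] at hZ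
    exact Affine.Point.some_ne_zero _ hZ
  subst hy
  have e := (Affine.equation_iff _ _).1 h.1
  simp [baseChange] at e
  refine .inr (Subtype.ext (some_eq ?_ rfl))
  by_contra hx
  exact hD' ⟨2 * x + A, mul_left_cancel₀ hx (by linear_combination 4 * e)⟩

omit hr hD in
/-- the descent by 2-isogeny -/
theorem descent_two (hD' : ¬IsSquare (A ^ 2 - 4 * B)) {ι κ : Type} [Fintype ι] [Fintype κ]
    (g : ι → ℚ) (g' : κ → ℚ) (hg : ∀ i, g i ≠ 0 ∧ Sol A B (g i))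
    (hg' : ∀ j, g' j ≠ 0 ∧ Sol (-2 * A) (A ^ 2 - 4 * B) (g' j))
    (hi : ∀ I : Finset ι, IsSquare (∏ i ∈ I, g i) → I = ∅)
    (hi' : ∀ J : Finset κ, IsSquare (∏ j ∈ J, g' j) ∨
      IsSquare ((A ^ 2 - 4 * B) * ∏ j ∈ J, g' j) → J = ∅)
    (hs : ∀ β, β ≠ 0 → Els A B β → ∃ I : Finset ι, IsSquare (β * ∏ i ∈ I, g i))
    (hs' : ∀ β, β ≠ 0 → Els (-2 * A) (A ^ 2 - 4 * B) β → ∃ J : Finset κ,
      IsSquare (β * ∏ j ∈ J, g' j) ∨ IsSquare (β * ((A ^ 2 - 4 * B) * ∏ j ∈ J, g' j)))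
    {r : ℕ} (hr : r + 1 = Fintype.card ι + Fintype.card κ) :
    (EE A B).IsElliptic ∧ Module.rank ℤ (Pt (EE A B) ℚ) = r ∧
      ∀ k : ℕ, ∀ x ∈ Sha (EE A B), 2 ^ k • x = 0 → x = 0 := by
  have hD : A ^ 2 - 4 * B ≠ 0 := fun h => hD' (h ▸ IsSquare.zero)
  obtain ⟨δ, hδ⟩ := IsAlgClosed.exists_pow_nat_eq ((A : Qbar) ^ 2 - 4 * B) two_pos
  have ht : Rt A B ((-A + δ) / 2) ((-A - δ) / 2) := ⟨by ring, by linear_combination (-1 / 4) * hδ⟩
  generalize (-A + δ) / 2 = a, (-A - δ) / 2 = b at ht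
  have hE := ht.isE hB hD
  choose P hP using fun i => gd1_of_sol ht hB hD (hg i).1 (hg i).2
  choose P' hP' using fun j => gd2_of_sol ht hB hD (hg' j).1 (hg' j).2
  have hΔ : (EE A B).Δ ≠ 0 := by
    have : (EE A B).Δ = 16 * B ^ 2 * (A ^ 2 - 4 * B) := by
      simp [Δ, b₂, b₄, b₆, b₈]; ring
    rw [this]
    positivity
  have : ((EE A B).baseChange ℚ).IsElliptic := ⟨IsUnit.mk0 _ (by simpa [baseChange] using hΔ)⟩
  refine ⟨⟨hΔ.isUnit⟩, rank_of_basis (Sum.elim P P') (fun Q => ?_) (fun I Z h => ?_)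
    (card_two hB hD hD') (by simpa using hr), sha_two hE.exists_half fun c hc h2 h3 h4 => ?_⟩
  · obtain ⟨R, hR⟩ := hE.exists_half (inc _ Q)
    obtain ⟨S, I, J, hS, hS'⟩ := desc ht hB hD hP hP' hs hs' (cob_mem R)
      (fun σ => by simp only [smul_sub, ← map_nsmul, hR, ac_inc, sub_self]) (locTriv_cob _ R)
      fun p _ => locTriv_cob _ R
    obtain ⟨Z, hZ⟩ := exists_inc (P := R - S) fun σ => by
      rw [map_sub, sub_eq_iff_eq_add.1 (hS' σ)]; abel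
    refine ⟨I.disjSum J, Z, pm_inj (Rat.castHom Qbar) ?_⟩
    change inc _ Q = inc _ _
    rw [Finset.sum_disjSum, map_add, map_nsmul, hZ, ← hR, smul_sub, hS]
    simp
  · rw [← I.toLeft_disjSum_toRight, Finset.sum_disjSum] at h
    simp only [Sum.elim_inl, Sum.elim_inr] at h
    have h1 := (Gd1.prod ht hB hD hP I.toLeft).mul ht hB hD (Gd2.prod ht hB hD hP' I.toRight).gd1
    rw [h, mul_one] at h1
    have h2 := hi _ (h1.sq ht hB hD)
    rw [h2, Finset.sum_empty, zero_add] at h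
    have h3 := hi' _ (Gd2.sq ht hB hD (h ▸ Gd2.prod ht hB hD hP' I.toRight))
    rw [← I.toLeft_disjSum_toRight, h2, h3]
    rfl
  · obtain ⟨R, -, -, -, h⟩ := desc ht hB hD hP hP' hs hs' hc h2 h3 h4
    exact ⟨R, h⟩

end Pool.Agent.MP_a43263_nt.Two
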