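import Mathlib.Algebra.Order.Star.Real
import Mathlib.NumberTheory.Padics.RingHoms
import Mathlib.NumberTheory.LegendreSymbol.JacobiSymbol
import Pool.Agent.MP_a43263_nt.two.Iso

/-! Local conditions for the descent by 2-isogeny. -/

namespace Pool.Agent.MP_a43263_nt.Two

theorem Sol.scale {K : Type} [Field K] {A B β γ s : K} (hβ : β ≠ 0) (hγ : γ ≠ 0) (e : β * γ = s * s)
    (h : Sol A B β) : Sol A B γ := by
  obtain ⟨u, v, w, h1, h2⟩ := h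
  have hs : s ≠ 0 := left_ne_zero_of_mul (b := s) (e ▸ mul_ne_zero hβ hγ)
  obtain rfl : γ = s * s / β := by field_simp; linear_combination e
  refine ⟨u * β / s, v, w * β / s, by simpa [hβ, hs] using h1, ?_⟩
  field_simp
  linear_combination h2

theorem Els.scale {A B β γ : ℚ} (hβ : β ≠ 0) (hγ : γ ≠ 0) (e : IsSquare (β * γ)) (h : Els A B β) :
    Els A B γ := by
  obtain ⟨s, e⟩ := e
  exact ⟨h.1.scale (s := s) (by exact_mod_cast hβ) (by exact_mod_cast hγ) (by exact_mod_cast e),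
    fun p _ => (h.2 p).scale (s := s) (by exact_mod_cast hβ) (by exact_mod_cast hγ)
      (by exact_mod_cast e)⟩

theorem exists_squarefree (β : ℚ) : ∃ γ : ℤ, Squarefree γ ∧ IsSquare (β * γ) := by
  obtain ⟨a, b, h1, h2⟩ := Nat.sq_mul_squarefree (β.num * β.den).natAbs
  have hd : (β.den : ℚ) ≠ 0 := by exact_mod_cast β.den_nz
  have h3 := Rat.mul_den_eq_num β
  have h4 : ((b : ℤ) ^ 2 * a) = |β.num * β.den| := by
    rw [← Int.natCast_natAbs, ← h1]; push_cast; rfl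
  rcases abs_choice (β.num * β.den) with h | h <;> rw [h] at h4
  · refine ⟨a, Int.squarefree_natCast.2 h2, b * a / β.den, ?_⟩
    have : (b : ℚ) ^ 2 * a = β.num * β.den := by exact_mod_cast h4
    rw [← h3] at this
    push_cast
    field_simp
    linear_combination (-a) * this
  · refine ⟨-a, Int.squarefree_natAbs.1 (by simpa using h2), b * a / β.den, ?_⟩
    have : (b : ℚ) ^ 2 * a = -(β.num * β.den) := by exact_mod_cast h4
    rw [← h3] at this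
    push_cast
    field_simp
    linear_combination (-a) * this

/-- solubility modulo a power of `p` -/
def SolMod (p k : ℕ) (A B β : ℤ) : Prop :=
  ∃ u v w : ℤ, ¬((p : ℤ) ∣ u ∧ (p : ℤ) ∣ v) ∧
    (p : ℤ) ^ k ∣ β ^ 2 * u ^ 4 + A * β * u ^ 2 * v ^ 2 + B * v ^ 4 - β * w ^ 2

theorem Sol.mod {p : ℕ} [hp : Fact p.Prime] {A B β : ℤ} (hβ : ¬(p : ℤ) ^ 2 ∣ β)
    (h : Sol (A : ℚ_[p]) B β) (k : ℕ) : SolMod p (k + 1) A B β := by
  obtain ⟨u, v, w, hne, e⟩ := h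
  obtain ⟨t, ht, h1, h2⟩ : ∃ t, (t = u ∨ t = v) ∧ ‖u‖ ≤ ‖t‖ ∧ ‖v‖ ≤ ‖t‖ := by
    rcases le_total ‖u‖ ‖v‖ with a | a
    exacts [⟨v, .inr rfl, a, le_rfl⟩, ⟨u, .inl rfl, le_rfl, a⟩]
  have ht0 : t ≠ 0 := by
    rintro rfl
    exact hne ⟨by simpa using h1, by simpa using h2⟩
  have hn : 0 < ‖t‖ := norm_pos_iff.2 ht0
  have hd : ∀ x : ℚ_[p], ‖x‖ ≤ ‖t‖ → ‖x / t‖ ≤ 1 := fun x hx => by
    rw [norm_div, div_le_one hn]; exact hx
  let U : ℤ_[p] := ⟨u / t, hd _ h1⟩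
  let V : ℤ_[p] := ⟨v / t, hd _ h2⟩
  have e1 : ((β ^ 2 * U ^ 4 + A * β * U ^ 2 * V ^ 2 + B * V ^ 4 : ℤ_[p]) : ℚ_[p]) =
      β * (w / t ^ 2) ^ 2 := by
    push_cast
    simp only [U, V]
    field_simp
    linear_combination e
  have hw : ‖w / t ^ 2‖ ≤ 1 := by
    by_contra hc
    have p1 : (1 : ℝ) < p := by exact_mod_cast hp.out.one_lt
    have a1 : (p : ℝ) ≤ ‖w / t ^ 2‖ := by
      have := (Padic.norm_le_pow_iff_norm_lt_pow_add_one (w / t ^ 2) 0).not.1 (by simpa using hc)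
      simpa using this
    have a2 : (p : ℝ) ^ (-2 : ℤ) < ‖(β : ℚ_[p])‖ :=
      not_le.1 fun h => hβ ((Padic.norm_int_le_pow_iff_dvd β 2).1 h)
    have a3 := (β ^ 2 * U ^ 4 + A * β * U ^ 2 * V ^ 2 + B * V ^ 4 : ℤ_[p]).2
    rw [e1, norm_mul, norm_pow] at a3
    rw [zpow_neg, inv_lt_iff_one_lt_mul₀ (by positivity), zpow_two] at a2
    have a4 : (p : ℝ) * p ≤ ‖w / t ^ 2‖ ^ 2 := by rw [sq]; gcongr
    nlinarith [norm_nonneg (β : ℚ_[p])]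
  let W : ℤ_[p] := ⟨w / t ^ 2, hw⟩
  have e2 : β ^ 2 * U ^ 4 + A * β * U ^ 2 * V ^ 2 + B * V ^ 4 = β * W ^ 2 :=
    Subtype.ext (by rw [e1]; push_cast; rfl)
  let f : ℤ_[p] →+* ZMod (p ^ (k + 1)) := PadicInt.toZModPow (k + 1)
  have e3 := congrArg f e2
  have : NeZero (p ^ (k + 1)) := ⟨pow_ne_zero _ hp.out.ne_zero⟩
  obtain ⟨u', hu⟩ := ZMod.intCast_surjective (f U)
  obtain ⟨v', hv⟩ := ZMod.intCast_surjective (f V)
  obtain ⟨w', hw⟩ := ZMod.intCast_surjective (f W)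
  simp only [map_add, map_mul, map_pow, map_intCast, ← hu, ← hv, ← hw] at e3
  have key : ∀ (X : ℤ_[p]) (x : ℤ), (x : ZMod (p ^ (k + 1))) = f X → (p : ℤ) ∣ x → ‖X‖ ≠ 1 := by
    rintro X _ hx ⟨y, rfl⟩ h1
    have := ((PadicInt.isUnit_iff.2 h1).map f)
    rw [← hx, ZMod.coe_int_isUnit_iff_isCoprime] at this
    have := this.isUnit_of_dvd' (x := (p : ℤ)) (by push_cast; exact dvd_pow_self _ k.succ_ne_zero)
      (dvd_mul_right _ _)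
    exact hp.out.one_lt.ne' (by simpa using Int.isUnit_iff_natAbs_eq.1 this)
  refine ⟨u', v', w', fun h => ?_, ?_⟩
  · rcases ht with rfl | rfl
    · exact key U _ hu h.1 (by simp [U, PadicInt.norm_def, ht0])
    · exact key V _ hv h.2 (by simp [V, PadicInt.norm_def, ht0])
  · have := (ZMod.intCast_zmod_eq_zero_iff_dvd (β ^ 2 * u' ^ 4 + A * β * u' ^ 2 * v' ^ 2 +
      B * v' ^ 4 - β * w' ^ 2) (p ^ (k + 1))).1 (by push_cast; rw [e3, sub_self])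
    exact_mod_cast this

section
variable {p : ℕ} (hp : p.Prime) {A B β : ℤ}
include hp

theorem SolMod.dvd (h : SolMod p 3 A B β) (h1 : (p : ℤ) ∣ β) (h2 : ¬(p : ℤ) ^ 2 ∣ β) :
    (p : ℤ) ∣ B := by
  have hq := Nat.prime_iff_prime_int.1 hp
  obtain ⟨u, v, w, hne, c, e⟩ := h
  obtain ⟨b, rfl⟩ := h1
  have hb : ¬(p : ℤ) ∣ b := fun h => h2 (by rw [sq]; exact mul_dvd_mul_left _ h)
  by_contra hB
  obtain ⟨v, rfl⟩ : (p : ℤ) ∣ v := hq.dvd_of_dvd_pow (n := 4) ((hq.dvd_or_dvd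
    ⟨p ^ 2 * c - p * b ^ 2 * u ^ 4 - A * b * u ^ 2 * v ^ 2 + b * w ^ 2,
      by linear_combination e⟩).resolve_left hB)
  obtain ⟨w, rfl⟩ : (p : ℤ) ∣ w := hq.dvd_of_dvd_pow (n := 2) ((hq.dvd_or_dvd
    ⟨b ^ 2 * u ^ 4 + A * b * p * u ^ 2 * v ^ 2 + B * p ^ 2 * v ^ 4 - p * c,
      mul_left_cancel₀ hq.ne_zero (by linear_combination -e)⟩).resolve_left hb)
  have : (p : ℤ) ∣ (b * u ^ 2) ^ 2 := ⟨c - A * b * u ^ 2 * v ^ 2 - B * p * v ^ 4 + b * w ^ 2,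
    mul_left_cancel₀ (pow_ne_zero 2 hq.ne_zero) (by linear_combination e)⟩
  exact hne ⟨hq.dvd_of_dvd_pow ((hq.dvd_or_dvd (hq.dvd_of_dvd_pow this)).resolve_left hb),
    dvd_mul_right _ _⟩

theorem jac_of_dvd {a s t : ℤ} (ha : ¬(p : ℤ) ∣ a) (hs : ¬(p : ℤ) ∣ s)
    (h : (p : ℤ) ∣ a * s ^ 2 - t ^ 2) : jacobiSym a p = 1 := by
  have : Fact p.Prime := ⟨hp⟩
  rw [← ZMod.intCast_zmod_eq_zero_iff_dvd] at ha hs h
  rw [← jacobiSym.legendreSym.to_jacobiSym, legendreSym.eq_one_iff p ha]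
  refine ⟨t / s, ?_⟩
  push_cast at h
  field_simp
  linear_combination h

theorem SolMod.unit (h : SolMod p 3 A B β) (h2 : p ≠ 2) {D : ℤ} (hD : A ^ 2 - 4 * B = p * D)
    (hD' : ¬(p : ℤ) ∣ D) (hβ : ¬(p : ℤ) ∣ β) : jacobiSym β p = 1 := by
  have hq := Nat.prime_iff_prime_int.1 hp
  have h2' : ¬(p : ℤ) ∣ 2 := fun h => h2 ((Nat.prime_dvd_prime_iff_eq hp Nat.prime_two).1
    (Int.natCast_dvd_natCast.1 h))
  obtain ⟨u, v, w, hne, c, e⟩ := h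
  obtain ⟨X, hX⟩ : ∃ X, X = 2 * β * u ^ 2 + A * v ^ 2 := ⟨_, rfl⟩
  have e1 : X ^ 2 = p * D * v ^ 4 + β * (2 * w) ^ 2 + 4 * p ^ 3 * c := by
    rw [hX]; linear_combination 4 * e + v ^ 4 * hD
  by_cases hw : (p : ℤ) ∣ w
  · obtain ⟨w, rfl⟩ := hw
    obtain ⟨X, rfl⟩ : (p : ℤ) ∣ X := hq.dvd_of_dvd_pow (n := 2)
      ⟨D * v ^ 4 + 4 * β * p * w ^ 2 + 4 * p ^ 2 * c, by linear_combination e1⟩
    obtain ⟨v, rfl⟩ : (p : ℤ) ∣ v := hq.dvd_of_dvd_pow (n := 4) ((hq.dvd_or_dvd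
      ⟨X ^ 2 - 4 * β * w ^ 2 - 4 * p * c,
        mul_left_cancel₀ hq.ne_zero (by linear_combination -e1)⟩).resolve_left hD')
    have : (p : ℤ) ∣ 2 * (β * u ^ 2) := ⟨X - A * p * v ^ 2, by linear_combination -hX⟩
    exact (hne ⟨hq.dvd_of_dvd_pow ((hq.dvd_or_dvd ((hq.dvd_or_dvd this).resolve_left
      h2')).resolve_left hβ), dvd_mul_right _ _⟩).elim
  · exact jac_of_dvd hp hβ (s := 2 * w) (t := X) (fun h => (hq.dvd_or_dvd h).elim h2' hw)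
      ⟨-D * v ^ 4 - 4 * p ^ 2 * c, by linear_combination -e1⟩

theorem SolMod.nonunit {b : ℤ} (h : SolMod p 3 A B (p * b)) (h2 : p ≠ 2) {D : ℤ}
    (hD : A ^ 2 - 4 * B = p * D) (hD' : ¬(p : ℤ) ∣ D) (hb : ¬(p : ℤ) ∣ b) :
    jacobiSym (-1 * D * b) p = 1 := by
  have hq := Nat.prime_iff_prime_int.1 hp
  have h2' : ¬(p : ℤ) ∣ 2 := fun h => h2 ((Nat.prime_dvd_prime_iff_eq hp Nat.prime_two).1
    (Int.natCast_dvd_natCast.1 h))
  obtain ⟨u, v, w, hne, c, e⟩ := h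
  obtain ⟨X, hX⟩ : ∃ X, X = 2 * (p * b) * u ^ 2 + A * v ^ 2 := ⟨_, rfl⟩
  have e1 : X ^ 2 = p * D * v ^ 4 + p * b * (2 * w) ^ 2 + 4 * p ^ 3 * c := by
    rw [hX]; linear_combination 4 * e + v ^ 4 * hD
  obtain ⟨X, rfl⟩ : (p : ℤ) ∣ X := hq.dvd_of_dvd_pow (n := 2)
    ⟨D * v ^ 4 + 4 * b * w ^ 2 + 4 * p ^ 2 * c, by linear_combination e1⟩
  have e2 : p * X ^ 2 = D * v ^ 4 + b * (2 * w) ^ 2 + 4 * p ^ 2 * c :=
    mul_left_cancel₀ hq.ne_zero (by linear_combination e1)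
  by_cases hv : (p : ℤ) ∣ v
  · obtain ⟨v, rfl⟩ := hv
    obtain ⟨w, rfl⟩ : (p : ℤ) ∣ w := (hq.dvd_or_dvd (hq.dvd_of_dvd_pow (n := 2) ((hq.dvd_or_dvd
      ⟨X ^ 2 - D * p ^ 3 * v ^ 4 - 4 * p * c, by linear_combination -e2⟩).resolve_left
      hb))).resolve_left h2'
    obtain ⟨X, rfl⟩ : (p : ℤ) ∣ X := hq.dvd_of_dvd_pow (n := 2)
      ⟨D * p ^ 2 * v ^ 4 + 4 * b * w ^ 2 + 4 * c,
        mul_left_cancel₀ hq.ne_zero (by linear_combination e2)⟩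
    have : (p : ℤ) ∣ 2 * (b * u ^ 2) :=
      ⟨X - A * v ^ 2, mul_left_cancel₀ hq.ne_zero (by linear_combination -hX)⟩
    exact (hne ⟨hq.dvd_of_dvd_pow ((hq.dvd_or_dvd ((hq.dvd_or_dvd this).resolve_left
      h2')).resolve_left hb), dvd_mul_right _ _⟩).elim
  · refine jac_of_dvd hp (s := v ^ 2) (t := 2 * b * w) ?_ (fun h => hv (hq.dvd_of_dvd_pow h))
      ⟨-b * X ^ 2 + 4 * b * p * c, by linear_combination b * e2⟩
    rw [neg_one_mul, neg_mul, dvd_neg]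
    exact fun h => (hq.dvd_or_dvd h).elim hD' hb

theorem SolMod.split (h : SolMod p 3 (-2 * A) (A ^ 2 - 4 * B) β) (hB : (p : ℤ) ∣ B)
    (hA : jacobiSym A p = 1) (hβ : ¬(p : ℤ) ∣ β) : jacobiSym β p = 1 := by
  have hq := Nat.prime_iff_prime_int.1 hp
  have : Fact p.Prime := ⟨hp⟩
  obtain ⟨u, v, w, hne, c, e⟩ := h
  obtain ⟨B, rfl⟩ := hB
  by_cases hw : (p : ℤ) ∣ w
  · obtain ⟨w, rfl⟩ := hw
    have h1 : (p : ℤ) ∣ β * u ^ 2 - A * v ^ 2 := hq.dvd_of_dvd_pow (n := 2)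
      ⟨4 * B * v ^ 4 + β * p * w ^ 2 + p ^ 2 * c, by linear_combination e⟩
    have hA' : ¬(p : ℤ) ∣ A := fun h => by
      rw [← jacobiSym.legendreSym.to_jacobiSym, (legendreSym.eq_zero_iff p A).2
        ((ZMod.intCast_zmod_eq_zero_iff_dvd _ _).2 h)] at hA
      exact zero_ne_one hA
    have hu : ¬(p : ℤ) ∣ u := fun h => hne ⟨h, hq.dvd_of_dvd_pow ((hq.dvd_or_dvd
      ((dvd_sub_right (dvd_mul_of_dvd_right (dvd_pow h two_ne_zero) _)).1 h1)).resolve_left hA')⟩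
    have := jac_of_dvd hp (a := A * β) (s := u) (t := A * v)
      (fun h => (hq.dvd_or_dvd h).elim hA' hβ) hu (by
        rw [show A * β * u ^ 2 - (A * v) ^ 2 = A * (β * u ^ 2 - A * v ^ 2) by ring]
        exact dvd_mul_of_dvd_right h1 A)
    rwa [jacobiSym.mul_left, hA, one_mul] at this
  · exact jac_of_dvd hp hβ hw (t := β * u ^ 2 - A * v ^ 2)
      ⟨-4 * B * v ^ 4 - p ^ 2 * c, by linear_combination -e⟩

end

theorem sq32 : ∀ x : ZMod 32, x ^ 2 ∈ ({0, 1, 4, 9, 16, 17, 25} : Finset (ZMod 32)) ∧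
    ((x ^ 2).val % 2 = 0 → x.val % 2 = 0) := by decide +kernel

theorem aux32 : ∀ A : ZMod 32, A.val % 4 = 1 → ∀ β : ZMod 32, β.val % 4 = 2 →
    ∀ s ∈ ({0, 1, 4, 9, 16, 17, 25} : Finset (ZMod 32)),
    ∀ t ∈ ({0, 1, 4, 9, 16, 17, 25} : Finset (ZMod 32)),
    ∀ r ∈ ({0, 1, 4, 9, 16, 17, 25} : Finset (ZMod 32)),
      β ^ 2 * s ^ 2 + A * β * s * t + 16 * t ^ 2 = β * r → s.val % 2 = 0 ∧ t.val % 2 = 0 := by
  decide +kernel

theorem SolMod.good {A B β : ℤ} (h : SolMod 2 5 A B β) (hA : A % 4 = 1) (hB : B % 32 = 16) :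
    β % 4 ≠ 2 := by
  intro hβ
  obtain ⟨u, v, w, hne, e⟩ := h
  have e' := (ZMod.intCast_zmod_eq_zero_iff_dvd _ 32).2 e
  have hB' : (B : ZMod 32) = 16 := by
    rw [← ZMod.intCast_mod, show ((32 : ℕ) : ℤ) = 32 from rfl, hB]; rfl
  have k : ∀ x : ℤ, ((x : ZMod 32).val : ℤ) = x % 32 := fun x => ZMod.val_intCast x
  push_cast at e'
  obtain ⟨h1, h2⟩ := aux32 A (by have := k A; omega) β (by have := k β; omega) _ (sq32 u).1 _
    (sq32 v).1 _ (sq32 w).1 (by rw [← hB']; linear_combination e')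
  have a1 := (sq32 u).2 h1
  have a2 := (sq32 v).2 h2
  exact hne ⟨by have := k u; omega, by have := k v; omega⟩

theorem aux16 : ∀ β : ZMod 16, β.val % 4 = 3 → ∀ X w : ZMod 16, X ^ 2 = β * w ^ 2 →
    X.val % 4 = 0 := by decide +kernel

theorem aux4 : ∀ u v : ZMod 4, 3 * u ^ 2 - v ^ 2 = 0 → u.val % 2 = 0 ∧ v.val % 2 = 0 := by
  decide +kernel

theorem SolMod.four {A B β : ℤ} (h : SolMod 2 4 (-2 * A) (A ^ 2 - 4 * B) β) (hA : A % 4 = 1)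
    (hB : 4 ∣ B) : β % 4 ≠ 3 := by
  intro hβ
  obtain ⟨u, v, w, hne, c, e⟩ := h
  obtain ⟨B, rfl⟩ := hB
  have k : ∀ x : ℤ, ((x : ZMod 16).val : ℤ) = x % 16 := fun x => ZMod.val_intCast x
  have k' : ∀ x : ℤ, ((x : ZMod 4).val : ℤ) = x % 4 := fun x => ZMod.val_intCast x
  have h1 := aux16 β (by have := k β; omega) (β * u ^ 2 - A * v ^ 2 : ℤ) w (by
    have := (ZMod.intCast_zmod_eq_zero_iff_dvd ((β * u ^ 2 - A * v ^ 2) ^ 2 - β * w ^ 2) 16).2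
      ⟨c + B * v ^ 4, by push_cast at e ⊢; linear_combination e⟩
    push_cast at this ⊢
    linear_combination this)
  have h2 := k (β * u ^ 2 - A * v ^ 2)
  obtain ⟨a, rfl⟩ : ∃ a, A = 4 * a + 1 := ⟨A / 4, by omega⟩
  obtain ⟨b, rfl⟩ : ∃ b, β = 4 * b + 3 := ⟨β / 4, by omega⟩
  obtain ⟨d, hd⟩ : 4 ∣ (4 * b + 3) * u ^ 2 - (4 * a + 1) * v ^ 2 := by omega
  obtain ⟨a1, a2⟩ := aux4 u v (by
    have := (ZMod.intCast_zmod_eq_zero_iff_dvd (3 * u ^ 2 - v ^ 2) 4).2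
      ⟨d - b * u ^ 2 + a * v ^ 2, by push_cast; linear_combination hd⟩
    exact_mod_cast this)
  exact hne ⟨by have := k' u; omega, by have := k' v; omega⟩

theorem sq128 : ∀ x : ZMod 128, x ^ 2 ∈ ({0, 1, 4, 9, 16, 17, 25, 33, 36, 41, 49, 57, 64, 65, 68, 73,
    81, 89, 97, 100, 105, 113, 121} : Finset (ZMod 128)) := by decide +kernel

theorem aux128 : ∀ β : ZMod 128, β.val % 8 = 5 → ∀ r ∈ ({0, 1, 4, 9, 16, 17, 25, 33, 36, 41, 49, 57,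
    64, 65, 68, 73, 81, 89, 97, 100, 105, 113, 121} : Finset (ZMod 128)), ∀ X : ZMod 128,
    X * X = β * r → X.val % 8 = 0 := by decide +kernel

theorem aux8 : ∀ u v : ZMod 8, 5 * u ^ 2 - v ^ 2 = 0 → u.val % 2 = 0 ∧ v.val % 2 = 0 := by
  decide +kernel

theorem SolMod.eight {A B β : ℤ} (h : SolMod 2 7 (-2 * A) (A ^ 2 - 4 * B) β) (hA : A % 8 = 1)
    (hB : 32 ∣ B) : β % 8 ≠ 5 := by
  intro hβ
  obtain ⟨u, v, w, hne, c, e⟩ := h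
  obtain ⟨B, rfl⟩ := hB
  have k : ∀ x : ℤ, ((x : ZMod 128).val : ℤ) = x % 128 := fun x => ZMod.val_intCast x
  have k' : ∀ x : ℤ, ((x : ZMod 8).val : ℤ) = x % 8 := fun x => ZMod.val_intCast x
  have h1 := aux128 β (by have := k β; omega) _ (sq128 w) (β * u ^ 2 - A * v ^ 2 : ℤ) (by
    have := (ZMod.intCast_zmod_eq_zero_iff_dvd ((β * u ^ 2 - A * v ^ 2) ^ 2 - β * w ^ 2) 128).2
      ⟨c + B * v ^ 4, by push_cast at e ⊢; linear_combination e⟩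
    push_cast at this ⊢
    linear_combination this)
  have h2 := k (β * u ^ 2 - A * v ^ 2)
  obtain ⟨a, rfl⟩ : ∃ a, A = 8 * a + 1 := ⟨A / 8, by omega⟩
  obtain ⟨b, rfl⟩ : ∃ b, β = 8 * b + 5 := ⟨β / 8, by omega⟩
  obtain ⟨d, hd⟩ : 8 ∣ (8 * b + 5) * u ^ 2 - (8 * a + 1) * v ^ 2 := by omega
  obtain ⟨a1, a2⟩ := aux8 u v (by
    have := (ZMod.intCast_zmod_eq_zero_iff_dvd (5 * u ^ 2 - v ^ 2) 8).2
      ⟨d - b * u ^ 2 + a * v ^ 2, by push_cast; linear_combination hd⟩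
    exact_mod_cast this)
  exact hne ⟨by have := k' u; omega, by have := k' v; omega⟩

theorem Sol.pos {A B β : ℝ} (h : Sol A B β) (hA : A < 0) (hB : 0 < B) : 0 ≤ β := by
  by_contra hβ
  obtain ⟨u, v, w, hne, e⟩ := h
  have h0 : β < 0 := not_le.1 hβ
  have h1 : 0 ≤ A * β * u ^ 2 * v ^ 2 := by
    have := mul_pos_of_neg_of_neg hA h0
    positivity
  have h2 : β * w ^ 2 ≤ 0 := mul_nonpos_of_nonpos_of_nonneg h0.le (sq_nonneg w)
  have h3 : 0 ≤ β ^ 2 * u ^ 4 := by positivity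
  have h4 : 0 ≤ B * v ^ 4 := by positivity
  have h5 : β ^ 2 * u ^ 4 = 0 := by linarith
  have h6 : B * v ^ 4 = 0 := by linarith
  exact hne ⟨by simpa [h0.ne] using h5, by simpa [hB.ne'] using h6⟩

end Pool.Agent.MP_a43263_nt.Two
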