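import Mathlib.Algebra.BigOperators.ModEq
import Mathlib.Data.Int.Star
import Pool.Agent.MP_a43263_nt.two.Loc

-- ======== part 0: formerly Pool.Agent.MP_a43263_nt.two.Gen
section MrgPart0

/-! The descent for a curve whose bad primes and quadratic symbols are known. -/

namespace Pool.Agent.MP_a43263_nt.Two

open Finset

/-- the sign attached to an element of the field with two elements -/
def sgn (x : ZMod 2) : ℤ := if x = 0 then 1 else -1

theorem sgn_add : ∀ x y : ZMod 2, sgn (x + y) = sgn x * sgn y := by decide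

theorem sgn_eq_one : ∀ x : ZMod 2, sgn x = 1 → x = 0 := by decide

theorem sgn_ne_zero : ∀ x : ZMod 2, sgn x ≠ 0 := by decide

theorem sgn_nat (x : ZMod 2) (e : ℕ) : sgn (x * e) = sgn x ^ e := by
  induction e with
  | zero => simp [sgn]
  | succ e ih => rw [Nat.cast_succ, mul_add, sgn_add, ih, mul_one, pow_succ]

theorem sgn_sum {ι : Type} (s : Finset ι) (f : ι → ZMod 2) :
    sgn (∑ i ∈ s, f i) = ∏ i ∈ s, sgn (f i) :=
  map_prod (⟨⟨fun x => sgn x.toAdd, rfl⟩, fun _ _ => sgn_add _ _⟩ : Multiplicative (ZMod 2) →* ℤ)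
    (fun i => Multiplicative.ofAdd (f i)) s

variable {n : ℕ}

/-- the product with exponents `e` -/
def ev (P : Fin (n + 2) → ℤ) (e : Fin (n + 2) → ℕ) : ℤ := ∏ i, P i ^ e i

/-- a linear form on exponent vectors -/
def ch (b : Fin (n + 2) → ZMod 2) (e : Fin (n + 2) → ℕ) : ZMod 2 := ∑ i, b i * e i

/-- `-1`, `2`, odd primes, and the table of their quadratic symbols -/
structure Pr (P : Fin (n + 2) → ℤ) (b : Fin (n + 2) → Fin (n + 2) → ZMod 2) : Prop where
  neg : P 0 = -1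
  two : P 1 = 2
  prime : ∀ i, i ≠ 0 → ∃ p : ℕ, p.Prime ∧ P i = p
  jac : ∀ k i, k ≠ 0 → k ≠ 1 → i ≠ k → jacobiSym (P i) (P k).natAbs = sgn (b k i)
  diag : ∀ k, k ≠ 0 → k ≠ 1 → b k k = 0
  c4 : ∀ i, i ≠ 1 → ZMod.χ₄ (P i) = sgn (b 0 i)
  c8 : ∀ i, i ≠ 1 → ZMod.χ₈ (P i) = sgn (b 1 i)

variable {P : Fin (n + 2) → ℤ} {b : Fin (n + 2) → Fin (n + 2) → ZMod 2} {e : Fin (n + 2) → ℕ}
  {k : Fin (n + 2)}

theorem ev_add (e f : Fin (n + 2) → ℕ) : ev P (e + f) = ev P e * ev P f := by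
  simp [ev, pow_add, prod_mul_distrib]

theorem ev_single (k : Fin (n + 2)) (m : ℕ) : ev P (Pi.single k m) = P k ^ m := by
  rw [ev, Finset.prod_eq_single k (fun i _ h => by simp [h]) (by simp)]
  simp

theorem ev_split (k : Fin (n + 2)) (e : Fin (n + 2) → ℕ) :
    ev P e = P k ^ e k * ev P (Function.update e k 0) := by
  rw [← ev_single, ← ev_add]
  congr 1
  ext i
  by_cases h : i = k
  · simp [h]
  · simp [h]

theorem ev_sum {ι : Type} (I : Finset ι) (G : ι → Fin (n + 2) → ℕ) :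
    ∏ l ∈ I, ev P (G l) = ev P (∑ l ∈ I, G l) := by
  simp only [ev, Finset.sum_apply]
  rw [prod_comm]
  simp [prod_pow_eq_pow_sum]

theorem ch_add (c : Fin (n + 2) → ZMod 2) (e f : Fin (n + 2) → ℕ) :
    ch c (e + f) = ch c e + ch c f := by
  simp [ch, mul_add, sum_add_distrib]

theorem ch_single (c : Fin (n + 2) → ZMod 2) (k : Fin (n + 2)) (m : ℕ) :
    ch c (Pi.single k m) = c k * m := by
  rw [ch, Finset.sum_eq_single k (fun i _ h => by simp [h]) (by simp)]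
  simp

theorem ch_update {c : Fin (n + 2) → ZMod 2} (h : c k = 0) (e : Fin (n + 2) → ℕ) :
    ch c (Function.update e k 0) = ch c e :=
  sum_congr rfl fun i _ => by
    by_cases hi : i = k
    · simp [hi, h]
    · simp [hi]

theorem ev_hom (φ : ℤ →* ℤ) {c : Fin (n + 2) → ZMod 2} (h : ∀ i, i ≠ k → φ (P i) = sgn (c i))
    (he : e k = 0) : φ (ev P e) = sgn (ch c e) := by
  rw [ev, ch, map_prod, sgn_sum]
  refine prod_congr rfl fun i _ => ?_
  rw [map_pow, sgn_nat]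
  by_cases hi : i = k
  · simp [hi, he]
  · rw [h i hi]

theorem sq_of_even (h : ∀ i, (e i : ZMod 2) = 0) : IsSquare (ev P e : ℚ) := by
  have : e = (fun i => e i / 2) + fun i => e i / 2 := by
    ext i
    have := (ZMod.natCast_eq_zero_iff _ _).1 (h i)
    simp only [Pi.add_apply]
    omega
  exact ⟨ev P fun i => e i / 2, by rw [← Int.cast_mul, ← ev_add, ← this]⟩

theorem odd_not_sq {p r : ℤ} (hp : Prime p) (hr : ¬p ∣ r) (m : ℕ) :
    ∀ s, p ^ (2 * m + 1) * r ≠ s * s := by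
  induction m with
  | zero =>
    intro s h
    obtain ⟨t, rfl⟩ : p ∣ s := (hp.dvd_or_dvd ⟨r, by linear_combination -h⟩).elim id id
    exact hr ⟨t * t, mul_left_cancel₀ hp.ne_zero (by linear_combination h)⟩
  | succ m ih =>
    intro s h
    obtain ⟨t, rfl⟩ : p ∣ s :=
      (hp.dvd_or_dvd ⟨p ^ (2 * m + 2) * r, by linear_combination -h⟩).elim id id
    exact ih t (mul_left_cancel₀ (pow_ne_zero 2 hp.ne_zero) (by linear_combination h))

variable (hP : Pr P b)
include hP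

theorem Pr.jac_ev (h0 : k ≠ 0) (h1 : k ≠ 1) (he : e k = 0) :
    jacobiSym (ev P e) (P k).natAbs = sgn (ch (b k) e) :=
  ev_hom ⟨⟨fun a => jacobiSym a (P k).natAbs, jacobiSym.one_left _⟩,
    fun _ _ => jacobiSym.mul_left _ _ _⟩ (fun i hi => hP.jac k i h0 h1 hi) he

theorem Pr.c4_ev (he : e 1 = 0) : ZMod.χ₄ (ev P e) = sgn (ch (b 0) e) :=
  ev_hom (ZMod.χ₄.toMonoidHom.comp (Int.castRingHom (ZMod 4)).toMonoidHom) hP.c4 he

theorem Pr.c8_ev (he : e 1 = 0) : ZMod.χ₈ (ev P e) = sgn (ch (b 1) e) :=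
  ev_hom (ZMod.χ₈.toMonoidHom.comp (Int.castRingHom (ZMod 8)).toMonoidHom) hP.c8 he

theorem Pr.not_dvd (h0 : k ≠ 0) (he : e k = 0) : ¬P k ∣ ev P e := by
  intro h
  by_cases h1 : k = 1
  · subst h1
    have := hP.c4_ev he
    rw [hP.two] at h
    rw [ZMod.χ₄_int_eq_if_mod_four, if_pos (by omega)] at this
    exact sgn_ne_zero _ this.symm
  · have := hP.jac_ev h0 h1 he
    obtain ⟨p, hp, e1⟩ := hP.prime k h0
    have hf : Fact p.Prime := ⟨hp⟩
    rw [e1] at this h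
    rw [Int.natAbs_natCast, ← jacobiSym.legendreSym.to_jacobiSym, (legendreSym.eq_zero_iff p _).2
      ((ZMod.intCast_zmod_eq_zero_iff_dvd _ _).2 h)] at this
    exact sgn_ne_zero _ this.symm

theorem Pr.ev_pos (he : e 0 = 0) : 0 < ev P e :=
  prod_pos fun i _ => by
    by_cases h : i = 0
    · simp [h, he]
    · obtain ⟨p, hp, e1⟩ := hP.prime i h
      rw [e1]
      exact_mod_cast pow_pos hp.pos _

theorem Pr.pos_iff : 0 < ev P e ↔ (e 0 : ZMod 2) = 0 := by
  have := hP.ev_pos (e := Function.update e 0 0) (by simp)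
  rw [ev_split 0, hP.neg, ZMod.natCast_eq_zero_iff_even]
  rcases Nat.even_or_odd (e 0) with h | h
  · simp [h.neg_one_pow, h, this]
  · simp [h.neg_one_pow, Nat.not_even_iff_odd.2 h, this.le]

theorem Pr.ev_ne (e : Fin (n + 2) → ℕ) : ev P e ≠ 0 := by
  rw [ev_split 0, hP.neg]
  exact mul_ne_zero (by simp) (hP.ev_pos (by simp)).ne'

theorem Pr.even_of_sq (h : IsSquare (ev P e : ℚ)) (k : Fin (n + 2)) : (e k : ZMod 2) = 0 := by
  obtain ⟨s, hs⟩ := Rat.isSquare_intCast_iff.1 h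
  by_cases h0 : k = 0
  · subst h0
    exact hP.pos_iff.1 (lt_of_le_of_ne (hs ▸ mul_self_nonneg s) (hP.ev_ne e).symm)
  · obtain ⟨p, hp, e1⟩ := hP.prime k h0
    rw [ZMod.natCast_eq_zero_iff_even, ← Nat.not_odd_iff_even]
    rintro ⟨m, hm⟩
    rw [ev_split k, hm] at hs
    exact odd_not_sq (e1 ▸ Nat.prime_iff_prime_int.1 hp) (hP.not_dvd h0 (by simp)) m s hs

theorem Pr.of_dvd {p : ℤ} (hp : Prime p) (h : p ∣ ev P e) : ∃ i, p = P i ∨ p = -P i := by
  obtain ⟨i, -, hi⟩ := hp.exists_mem_finset_dvd h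
  have hi := hp.dvd_of_dvd_pow hi
  by_cases h0 : i = 0
  · rw [h0, hP.neg] at hi
    exact (hp.not_isUnit (isUnit_of_dvd_one (dvd_neg.1 hi))).elim
  · obtain ⟨q, hq, e1⟩ := hP.prime i h0
    exact ⟨i, Int.associated_iff.1 (hp.associated_of_dvd (e1 ▸ Nat.prime_iff_prime_int.1 hq) hi)⟩

theorem Pr.exists_ev {γ : ℤ} (h0 : γ ≠ 0) (h : ∀ p : ℤ, Prime p → p ∣ γ → p ∣ ev P e) :
    ∃ f, γ = ev P f := by
  induction γ using UniqueFactorizationMonoid.induction_on_prime with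
  | h₁ => exact absurd rfl h0
  | h₂ x hx =>
    rcases Int.isUnit_iff.1 hx with rfl | rfl
    · exact ⟨0, by simp [ev]⟩
    · exact ⟨Pi.single 0 1, by simp [ev_single, hP.neg]⟩
  | h₃ a p ha hp ih =>
    obtain ⟨f, rfl⟩ := ih ha fun q hq h' => h q hq (h'.mul_left p)
    obtain ⟨i, rfl | rfl⟩ := hP.of_dvd hp (h p hp (dvd_mul_right _ _))
    · exact ⟨Pi.single i 1 + f, by simp [ev_add, ev_single]⟩
    · exact ⟨Pi.single 0 1 + Pi.single i 1 + f, by simp [ev_add, ev_single, hP.neg]⟩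

omit hP in
/-- the exponent vector of a vector over the field with two elements -/
def vl (x : Fin (n + 2) → ZMod 2) : Fin (n + 2) → ℕ := fun i => (x i).val

theorem Pr.peel {A : ℤ} {β : ℚ} (hβ : β ≠ 0) (h : Els A (ev P e) β) :
    ∃ x, IsSquare (β * ev P (vl x)) ∧ Els A (ev P e) (ev P (vl x)) := by
  obtain ⟨γ, h1, h2⟩ := exists_squarefree β
  have h0 : (γ : ℚ) ≠ 0 := by exact_mod_cast h1.ne_zero
  have h3 := h.scale hβ h0 h2
  obtain ⟨f, rfl⟩ := hP.exists_ev (e := e) h1.ne_zero fun p hp hd => by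
    have hq := Int.prime_iff_natAbs_prime.1 hp
    have : Fact p.natAbs.Prime := ⟨hq⟩
    have h4 : ¬(p.natAbs : ℤ) ^ 2 ∣ γ := fun h => hp.not_isUnit (h1 p (by simpa [sq] using h))
    exact Int.natAbs_dvd.1 ((Sol.mod h4 (by simpa using h3.2 p.natAbs) 2).dvd hq
      (Int.natAbs_dvd.2 hd) h4)
  have h4 : IsSquare ((ev P f : ℚ) * ev P (vl fun i => f i)) := by
    rw [← Int.cast_mul, ← ev_add]
    exact sq_of_even fun i => by simp [vl, CharTwo.add_self_eq_zero]
  refine ⟨fun i => f i, ?_, h3.scale h0 (by exact_mod_cast hP.ev_ne _) h4⟩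
  obtain ⟨s, hs⟩ := h2
  obtain ⟨t, ht⟩ := h4
  refine ⟨s * t / ev P f, ?_⟩
  field_simp
  linear_combination (ev P f : ℚ) * ev P (vl fun i => f i) * hs + s * s * ht

theorem Pr.solMod {A B : ℤ} {x : Fin (n + 2) → ZMod 2} (h : Els A B (ev P (vl x))) (h0 : k ≠ 0)
    (m : ℕ) : ¬P k ^ 2 ∣ ev P (vl x) ∧ SolMod (P k).natAbs (m + 1) A B (ev P (vl x)) := by
  obtain ⟨p, hp, e1⟩ := hP.prime k h0
  have : Fact p.Prime := ⟨hp⟩
  have h1 : ¬P k ^ 2 ∣ ev P (vl x) := by
    intro hd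
    have h2 := hP.not_dvd (e := Function.update (vl x) k 0) h0 (by simp)
    have h3 : vl x k < 2 := ZMod.val_lt _
    rw [ev_split k] at hd
    interval_cases vl x k
    · exact h2 ((dvd_pow_self _ two_ne_zero).trans (by simpa using hd))
    · rw [sq, pow_one, mul_dvd_mul_iff_left (by rw [e1]; exact_mod_cast hp.ne_zero)] at hd
      exact h2 hd
  refine ⟨h1, ?_⟩
  rw [e1] at h1 ⊢
  exact Sol.mod h1 (by simpa using h.2 p) m

theorem Pr.row_unit {A : ℤ} {x : Fin (n + 2) → ZMod 2} (h : Els A (ev P e) (ev P (vl x)))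
    (h0 : k ≠ 0) (he : e k = 0) : x k = 0 := by
  by_contra hx
  obtain ⟨h1, h2⟩ := hP.solMod h h0 2
  obtain ⟨p, hp, e1⟩ := hP.prime k h0
  have h3 : P k ∣ ev P (vl x) := by
    rw [ev_split k]
    exact (dvd_pow_self _ (by simpa [vl] using hx)).mul_right _
  refine hP.not_dvd h0 he ?_
  rw [e1] at h1 h2 h3 ⊢
  exact h2.dvd hp h3 h1

omit hP in
/-- the row attached to a prime that divides the discriminant exactly once -/
def rowJ (b : Fin (n + 2) → Fin (n + 2) → ZMod 2) (e : Fin (n + 2) → ℕ) (k i : Fin (n + 2)) :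
    ZMod 2 := if i = k then b k 0 + ch (b k) e else b k i

theorem Pr.sum_rowJ (h0 : k ≠ 0) (h1 : k ≠ 1) (x : Fin (n + 2) → ZMod 2) :
    ∑ i, rowJ b e k i * x i = (b k 0 + ch (b k) e) * x k + ch (b k) (vl x) := by
  have : ∀ i, rowJ b e k i * x i =
      (if i = k then (b k 0 + ch (b k) e) * x k else 0) + b k i * vl x i := fun i => by
    by_cases h : i = k
    · simp [rowJ, h, hP.diag k h0 h1]
    · simp [rowJ, h, vl]
  simp [this, sum_add_distrib, ch]

theorem Pr.row_jac {A B : ℤ} {x : Fin (n + 2) → ZMod 2} (h : Els A B (ev P (vl x)))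
    (hD : A ^ 2 - 4 * B = ev P e) (h0 : k ≠ 0) (h1 : k ≠ 1) (he : e k = 1) :
    ∑ i, rowJ b e k i * x i = 0 := by
  obtain ⟨-, h2⟩ := hP.solMod h h0 2
  obtain ⟨p, hp, e1⟩ := hP.prime k h0
  have hp2 : p ≠ 2 := by
    rintro rfl
    exact hP.not_dvd (e := Pi.single 1 1) h0 (by simp [h1]) (by simp [ev_single, e1, hP.two])
  have h3 := hP.not_dvd (e := Function.update e k 0) h0 (by simp)
  have h4 := hP.not_dvd (e := Function.update (vl x) k 0) h0 (by simp)
  have h5 : vl x k < 2 := ZMod.val_lt _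
  have h6 : x k = vl x k := by simp [vl]
  have d := hP.diag k h0 h1
  rw [ev_split k, he, pow_one] at hD
  rw [ev_split k] at h2
  rw [hP.sum_rowJ h0 h1, h6, ← ch_update d (vl x), ← ch_update d e]
  apply sgn_eq_one
  interval_cases vl x k
  · rw [Nat.cast_zero, mul_zero, zero_add, ← hP.jac_ev h0 h1 (by simp)]
    rw [e1] at h2 h3 h4 hD ⊢
    exact SolMod.unit hp (by simpa using h2) hp2 hD h3 h4
  · rw [Nat.cast_one, mul_one, sgn_add, sgn_add, ← hP.jac_ev h0 h1 (by simp),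
      ← hP.jac_ev h0 h1 (by simp), ← hP.jac k 0 h0 h1 h0.symm, hP.neg, ← jacobiSym.mul_left,
      ← jacobiSym.mul_left]
    rw [e1] at h2 h3 h4 hD ⊢
    exact SolMod.nonunit hp (by simpa using h2) hp2 hD h3 h4

omit hP in
/-- linear algebra certificate: the vectors `G` are a basis of the solutions of the rows `R` -/
def Cert {ρ : Type} {s : ℕ} (R : ρ → Fin (n + 2) → ZMod 2) (G : Fin s → Fin (n + 2) → ℕ)
    (Pv : Fin s → List (Fin (n + 2))) (C : Fin (n + 2) → List ρ) : Prop :=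
  (∀ l l', ((Pv l).map fun i => (G l' i : ZMod 2)).sum = if l' = l then 1 else 0) ∧
    ∀ j i, (if j = i then 1 else 0) + ∑ l, (G l j : ZMod 2) * (Pv l).count i =
      ((C j).map fun r => R r i).sum

omit hP in
theorem list_sum_eq (L : List (Fin (n + 2))) (x : Fin (n + 2) → ZMod 2) :
    (L.map x).sum = ∑ i, (L.count i : ZMod 2) * x i := by
  induction L with
  | nil => simp
  | cons a L ih => simp [ih, List.count_cons, add_mul, sum_add_distrib, add_comm]

theorem Pr.indep {ρ : Type} {s : ℕ} {R : ρ → Fin (n + 2) → ZMod 2} {G : Fin s → Fin (n + 2) → ℕ}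
    {Pv : Fin s → List (Fin (n + 2))} {C : Fin (n + 2) → List ρ} (h : Cert R G Pv C)
    (I : Finset (Fin s)) (hI : IsSquare (∏ l ∈ I, (ev P (G l) : ℚ))) : I = ∅ := by
  rw [← Int.cast_prod, ev_sum] at hI
  refine eq_empty_of_forall_notMem fun l hl => ?_
  have h1 : ∑ l' ∈ I, ((Pv l).map fun i => (G l' i : ZMod 2)).sum = 0 := by
    simp only [list_sum_eq]
    rw [sum_comm]
    refine sum_eq_zero fun i _ => ?_
    have := hP.even_of_sq hI i
    rw [Finset.sum_apply, Nat.cast_sum] at this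
    rw [← mul_sum, this, mul_zero]
  simp [h.1, hl] at h1

omit hP in
theorem span {ρ : Type} {s : ℕ} {R : ρ → Fin (n + 2) → ZMod 2} {G : Fin s → Fin (n + 2) → ℕ}
    {Pv : Fin s → List (Fin (n + 2))} {C : Fin (n + 2) → List ρ} (h : Cert R G Pv C)
    {x : Fin (n + 2) → ZMod 2} (hx : ∀ r, ∑ i, R r i * x i = 0) {β : ℚ}
    (hβ : IsSquare (β * ev P (vl x))) (h0 : ev P (vl x) ≠ 0) :
    ∃ I : Finset (Fin s), IsSquare (β * ∏ l ∈ I, (ev P (G l) : ℚ)) := by
  have h1 : ∀ L : List ρ, ∑ i, (L.map fun r => R r i).sum * x i = 0 := fun L => by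
    induction L with
    | nil => simp
    | cons a L ih => simp [add_mul, sum_add_distrib, ih, hx]
  let I := univ.filter fun l => ∑ i, ((Pv l).count i : ZMod 2) * x i = 1
  have h2 : IsSquare ((ev P (vl x) : ℚ) * ∏ l ∈ I, (ev P (G l) : ℚ)) := by
    rw [← Int.cast_prod, ev_sum, ← Int.cast_mul, ← ev_add]
    refine sq_of_even fun j => ?_
    have := h1 (C j)
    simp only [← h.2, add_mul, sum_add_distrib, sum_mul, ite_mul, one_mul, zero_mul, sum_ite_eq,
      mem_univ, if_true] at this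
    rw [sum_comm] at this
    rw [← this, Pi.add_apply, Finset.sum_apply, Nat.cast_add, Nat.cast_sum, sum_filter]
    congr 1
    · simp [vl]
    · refine sum_congr rfl fun l _ => ?_
      simp only [mul_assoc, ← mul_sum]
      generalize ∑ i, ((Pv l).count i : ZMod 2) * x i = y, (G l j : ZMod 2) = z
      revert y z
      decide
  obtain ⟨s, hs⟩ := hβ
  obtain ⟨t, ht⟩ := h2
  have h0' : (ev P (vl x) : ℚ) ≠ 0 := by exact_mod_cast h0
  refine ⟨I, s * t / ev P (vl x), ?_⟩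
  field_simp
  linear_combination (ev P (vl x) : ℚ) * (∏ l ∈ I, (ev P (G l) : ℚ)) * hs + s * s * ht

omit hP in
/-- the rows for the first isogeny -/
def rowsE (b : Fin (n + 2) → Fin (n + 2) → ZMod 2) (eB eD : Fin (n + 2) → ℕ) (md : Bool) :
    Bool × Fin (n + 2) → Fin (n + 2) → ZMod 2
  | (false, j), i => if i = j ∧ (if j = 0 then md = true else if j = 1 then md = false else eB j = 0)
      then 1 else 0
  | (true, k), i => if k ≠ 0 ∧ k ≠ 1 ∧ eD k = 1 then rowJ b eD k i else 0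

omit hP in
/-- the rows for the second isogeny -/
def rowsD (b : Fin (n + 2) → Fin (n + 2) → ZMod 2) (eB eD : Fin (n + 2) → ℕ) (md : Bool) :
    Bool × Fin (n + 2) → Fin (n + 2) → ZMod 2
  | (false, j), i => if i = j ∧ j ≠ 0 ∧ eD j = 0 then 1 else 0
  | (true, k), i => if k = 0 then b 0 i else if k = 1 then (if md = true then b 1 i else 0)
      else if eB k ≠ 0 then rowJ b eB k i else 0

omit hP in
/-- conditions on the exponent vectors -/
def Side (b : Fin (n + 2) → Fin (n + 2) → ZMod 2) (N c : ℤ) (eA eB eD : Fin (n + 2) → ℕ)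
    (md : Bool) : Prop :=
  eD 1 = 0 ∧ (if md = true then 5 ≤ eB 1 ∧ 0 < N ∧ (eA 0 : ZMod 2) ≠ 0 ∧ (eB 0 : ZMod 2) = 0
    else eB 1 = 4) ∧ ∀ k, k ≠ 0 → k ≠ 1 →
      eB k ≤ 1 ∨ (eD k = 0 ∧ eA k = 0 ∧ ch (b k) eA = 0 ∧ N = c ^ 2)

variable {N c A : ℤ} {eA eB eD : Fin (n + 2) → ℕ} {md : Bool} (hS : Side b N c eA eB eD md)
  (hA : A = N * ev P eA) (hD : A ^ 2 - 4 * ev P eB = ev P eD) (h4 : A % 4 = 1)
  (h8 : md = true → A % 8 = 1)
include hS hA hD h4

theorem Pr.rowsE {x : Fin (n + 2) → ZMod 2} (h : Els A (ev P eB) (ev P (vl x))) :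
    ∀ r, ∑ i, rowsE b eB eD md r i * x i = 0 := by
  rintro ⟨_ | _, k⟩
  · simp only [Two.rowsE, ite_and, ite_mul, one_mul, zero_mul, sum_ite_eq', mem_univ, if_true]
    split_ifs with h0 h1 h2 h3 h5
    any_goals rfl
    · obtain ⟨-, a1, a2, a3⟩ := (if_pos h1).mp hS.2.1
      have a4 : ev P eA < 0 := lt_of_le_of_ne (not_lt.1 (mt hP.pos_iff.1 a2)) (hP.ev_ne _)
      have a5 := h.1.pos (by exact_mod_cast hA ▸ mul_neg_of_pos_of_neg a1 a4)
        (by exact_mod_cast hP.pos_iff.2 a3)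
      have := hP.pos_iff.1 (lt_of_le_of_ne (by exact_mod_cast a5) (hP.ev_ne (vl x)).symm)
      simpa [vl, h0] using this
    · subst h2
      have a1 := (if_neg (by simp [h3])).mp hS.2.1
      have a2 := hP.not_dvd (e := Function.update eB 1 0) h0 (by simp)
      have a3 := hP.not_dvd (e := Function.update (vl x) 1 0) h0 (by simp)
      have a4 := (hP.solMod h h0 4).2
      rw [hP.two] at a2 a3 a4
      have a5 := SolMod.good a4 h4 (by rw [ev_split 1, a1, hP.two]; omega)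
      by_contra hx
      have a6 : vl x 1 = 1 := by
        have : vl x 1 < 2 := ZMod.val_lt _
        have : vl x 1 ≠ 0 := by simpa [vl] using hx
        omega
      rw [ev_split 1, a6, hP.two] at a5
      omega
    · exact hP.row_unit h h0 h5
  · simp only [Two.rowsE]
    split_ifs with h0
    · exact hP.row_jac h hD h0.1 h0.2.1 h0.2.2
    · simp

include h8 in
theorem Pr.rowsD {x : Fin (n + 2) → ZMod 2} (h : Els (-2 * A : ℤ) (ev P eD) (ev P (vl x))) :
    ∀ r, ∑ i, rowsD b eB eD md r i * x i = 0 := by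
  have h10 : (1 : Fin (n + 2)) ≠ 0 := one_ne_zero
  have x1 : vl x 1 = 0 := by simpa [vl] using hP.row_unit h h10 hS.1
  have hc : ∀ c, ∑ i, c i * x i = ch c (vl x) := fun c => by simp [ch, vl]
  have hB : ∀ m, m ≤ eB 1 → 2 ^ m ∣ ev P eB := fun m hm => by
    rw [ev_split 1, hP.two]
    exact (pow_dvd_pow _ hm).mul_right _
  have h41 : 4 ≤ eB 1 := by
    have := hS.2.1
    split_ifs at this <;> omega
  have a2 := hP.not_dvd h10 x1
  have a4 := fun m => (hP.solMod h h10 m).2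
  rw [hP.two] at a2 a4
  rw [← hD] at a4
  have a5 := SolMod.four (a4 3) h4 (hB 2 (by omega))
  rintro ⟨_ | _, k⟩
  · simp only [Two.rowsD, ite_and, ite_mul, one_mul, zero_mul, sum_ite_eq', mem_univ, if_true]
    split_ifs with h0 h1
    any_goals rfl
    exact hP.row_unit h h0 h1
  · simp only [Two.rowsD]
    split_ifs with h0 h1 h2 h3
    · rw [hc]
      apply sgn_eq_one
      rw [← hP.c4_ev x1, ZMod.χ₄_int_one_mod_four (by omega)]
    · rw [hc]
      apply sgn_eq_one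
      have := SolMod.eight (a4 6) (h8 h2) (hB 5 ((if_pos h2).mp hS.2.1).1)
      rw [← hP.c8_ev x1, ZMod.χ₈_int_eq_if_mod_eight, if_neg (by omega), if_pos (by omega)]
    · simp
    · rcases hS.2.2 k h0 h1 with h5 | ⟨b1, b2, b3, b4⟩
      · have := hP.row_jac (e := eB + Pi.single 1 4) h (by
          rw [ev_add, ev_single, hP.two, ← hD]; ring) h0 h1 (by simp [h1]; omega)
        have e4 : ((4 : ℕ) : ZMod 2) = 0 := rfl
        simpa only [rowJ, ch_add, ch_single, e4, mul_zero, add_zero] using this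
      · have x2 := hP.row_unit h h0 b1
        have x3 : vl x k = 0 := by simpa [vl] using x2
        have d1 := hP.not_dvd h0 b1
        have d2 := hP.not_dvd h0 x3
        have d3 : P k ∣ ev P eB := by
          rw [ev_split k]
          exact (dvd_pow_self _ h3).mul_right _
        have d4 := hP.jac_ev h0 h1 b2
        have d5 := (hP.solMod h h0 2).2
        rw [hP.sum_rowJ h0 h1, x2, mul_zero, zero_add]
        apply sgn_eq_one
        rw [← hP.jac_ev h0 h1 x3]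
        obtain ⟨p, hp, e1⟩ := hP.prime k h0
        rw [e1] at d1 d2 d3 d4 d5 ⊢
        rw [← hD] at d1 d5
        refine SolMod.split hp d5 d3 ?_ d2
        have d6 : ¬(p : ℤ) ∣ c := fun hc => d1 (dvd_sub (dvd_pow (by
          rw [hA, b4]; exact (dvd_pow hc two_ne_zero).mul_right _) two_ne_zero) (d3.mul_left _))
        rw [hA, b4, jacobiSym.mul_left, jac_of_dvd hp (s := 1) (t := c)
          (fun h => d6 ((Nat.prime_iff_prime_int.1 hp).dvd_of_dvd_pow h))
          (Nat.prime_iff_prime_int.1 hp).not_dvd_one (by simp), one_mul]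
        simpa [b3, sgn] using d4
    · simp

omit hP hS hA hD h4 in
/-- an integral point on the quartic -/
def SolZ (A B β : ℤ) : Prop :=
  ∃ u v w : ℤ, ¬(u = 0 ∧ v = 0) ∧ β ^ 2 * u ^ 4 + A * β * u ^ 2 * v ^ 2 + B * v ^ 4 = β * w ^ 2

omit hP hS hA hD h4 in
theorem SolZ.sol {A B β : ℤ} (h : SolZ A B β) : Sol (A : ℚ) B β := by
  obtain ⟨u, v, w, h1, h2⟩ := h
  exact ⟨u, v, w, by exact_mod_cast h1, by exact_mod_cast h2⟩

include h8 in
theorem Pr.main {s s' r : ℕ} {G : Fin s → Fin (n + 2) → ℕ} {G' : Fin (s' + 1) → Fin (n + 2) → ℕ}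
    {Pv : Fin s → List (Fin (n + 2))} {Pv' : Fin (s' + 1) → List (Fin (n + 2))}
    {C C' : Fin (n + 2) → List (Bool × Fin (n + 2))} (h0 : G' 0 = eD)
    (hG : ∀ l, SolZ A (ev P eB) (ev P (G l)))
    (hG' : ∀ l : Fin s', SolZ (-2 * A) (ev P eD) (ev P (G' l.succ)))
    (hC : Cert (Two.rowsE b eB eD md) G Pv C) (hC' : Cert (Two.rowsD b eB eD md) G' Pv' C')
    (hr : r + 1 = s + s') :
    (EE A (ev P eB)).IsElliptic ∧ Module.rank ℤ (Pt (EE A (ev P eB)) ℚ) = r ∧
      ∀ k : ℕ, ∀ x ∈ Sha (EE A (ev P eB)), 2 ^ k • x = 0 → x = 0 := by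
  have hD' : (A : ℚ) ^ 2 - 4 * ev P eB = ev P eD := by exact_mod_cast hD
  have ne : ∀ e, (ev P e : ℚ) ≠ 0 := fun e => by exact_mod_cast hP.ev_ne e
  refine descent_two (ne _) (fun h => ?_) (fun l => ev P (G l)) (fun l : Fin s' => ev P (G' l.succ))
    (fun l => ⟨ne _, (hG l).sol⟩) (fun l => ⟨ne _, by simpa [hD'] using (hG' l).sol⟩)
    (hP.indep hC) (fun J hJ => ?_) (fun β hβ h => ?_) (fun β hβ h => ?_) (by simpa using hr)
  · simpa using hP.indep hC' {0} (by simpa [h0, hD'] using h)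
  · rcases hJ with h | h
    · simpa using hP.indep hC' (J.map (Fin.succEmb _)) (by simpa using h)
    · simpa using hP.indep hC' (insert 0 (J.map (Fin.succEmb _))) (by
        rw [prod_insert (by simp)]
        simpa [h0, hD'] using h)
  · obtain ⟨x, h1, h2⟩ := hP.peel hβ h
    exact span hC (hP.rowsE hS hA hD h4 h2) h1 (hP.ev_ne _)
  · obtain ⟨x, h1, h2⟩ := hP.peel (A := -2 * A) (e := eD) hβ (by simpa [hD'] using h)
    obtain ⟨I, hI⟩ := span hC' (hP.rowsD hS hA hD h4 h8 h2) h1 (hP.ev_ne _)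
    refine ⟨univ.filter fun j => j.succ ∈ I, ?_⟩
    rw [← univ_inter I, ← prod_ite_mem, Fin.prod_univ_succ, ← prod_filter, h0] at hI
    rw [hD']
    split_ifs at hI
    exacts [.inr hI, .inl (by simpa using hI)]

end Pool.Agent.MP_a43263_nt.Two

end MrgPart0

-- ======== part 1: formerly Pool.Agent.MP_a43263_nt.two.Sym
section MrgPart1

/-! Quadratic symbols between prime values of linear forms. -/

namespace Pool.Agent.MP_a43263_nt.Two

open Finset

variable {n : ℕ}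

/-- `-1`, `2` and the values of the linear forms -/
def PP (al be : Fin n → ℤ) (x y : ℤ) : Fin (n + 2) → ℤ :=
  Matrix.vecCons (-1) (Matrix.vecCons 2 fun i => al i * x + be i * y)

/-- the modulus -/
def MM (al be : Fin n → ℤ) : ℕ :=
  240240 * ∏ i, ∏ j, if i = j then 1 else (al i * be j - al j * be i).natAbs

/-- the twisted table -/
def tw (b : Fin (n + 2) → Fin (n + 2) → ZMod 2) (σ : ZMod 2) (k i : Fin (n + 2)) : ZMod 2 :=
  if 2 ≤ k.val ∧ 2 ≤ i.val ∧ i ≠ k then b k i + σ else b k i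

variable {al be : Fin n → ℤ} {x y x0 y0 : ℤ} {b : Fin (n + 2) → Fin (n + 2) → ZMod 2}

theorem res_dvd {i j : Fin n} (h : i ≠ j) : 4 * (al i * be j - al j * be i).natAbs ∣ MM al be :=
  mul_dvd_mul (by norm_num) (((dvd_prod_of_mem
    (fun j => if i = j then 1 else (al i * be j - al j * be i).natAbs) (mem_univ j)).trans
    (dvd_prod_of_mem (fun i => ∏ j, if i = j then 1 else (al i * be j - al j * be i).natAbs)
      (mem_univ i))) |> fun h' => by simpa [h] using h')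

theorem PP_mod {M : ℤ} (hx : x ≡ x0 [ZMOD M]) (hy : y ≡ y0 [ZMOD M]) (i : Fin (n + 2)) :
    PP al be x y i ≡ PP al be x0 y0 i [ZMOD M] := by
  refine Fin.cases (by rfl) (Fin.cases (by rfl) fun i => ?_) i
  exact (hx.mul_left _).add (hy.mul_left _)

theorem cases2 (k : Fin (n + 2)) (h0 : k ≠ 0) (h1 : k ≠ 1) : ∃ i : Fin n, k = i.succ.succ := by
  obtain ⟨k, rfl⟩ := Fin.exists_succ_eq.2 h0
  obtain ⟨k, rfl⟩ := Fin.exists_succ_eq.2 (show k ≠ 0 by rintro rfl; exact h1 rfl)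
  exact ⟨k, rfl⟩

theorem sgn_sq : ∀ x : ZMod 2, sgn x * sgn x = 1 := by decide

theorem pr_of (h0 : Pr (PP al be x0 y0) b) {i0 i1 : Fin n} (h01 : i0 ≠ i1)
    (hM : ∀ i, al i * x0 + be i * y0 < MM al be ∧ ¬al i * x0 + be i * y0 ∣ MM al be)
    (hx : x ≡ x0 [ZMOD MM al be]) (hy : y ≡ y0 [ZMOD MM al be])
    (hp : ∀ i, 0 < al i * x + be i * y ∧ Prime (al i * x + be i * y)) :
    ∃ σ, Pr (PP al be x y) (tw b σ) := by
  have ne0 : ∀ i : Fin n, i.succ.succ ≠ 0 := fun i => Fin.succ_ne_zero _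
  have ne1 : ∀ i : Fin n, i.succ.succ ≠ 1 := fun i => Fin.succ_succ_ne_one _
  have hmod := PP_mod (al := al) (be := be) hx hy
  choose q hq hq' using fun i : Fin n => h0.prime _ (ne0 i)
  have : ∀ i, ∃ p : ℕ, p.Prime ∧ al i * x + be i * y = p := fun i =>
    ⟨_, Int.prime_iff_natAbs_prime.1 (hp i).2, (Int.natAbs_of_nonneg (hp i).1.le).symm⟩
  choose p hp' hp'' using this
  have eq : ∀ i, al i * x0 + be i * y0 = q i := hq'
  have hpq : ∀ i, p i ≡ q i [MOD MM al be] := fun i => Int.natCast_modEq_iff.1 (by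
    rw [← hp'', ← eq]; exact hmod i.succ.succ)
  have h8 : 8 ∣ MM al be := Dvd.dvd.mul_right (by norm_num) _
  have qodd : ∀ i, q i % 2 = 1 := fun i => by
    have := h0.c4 _ (ne1 i)
    rw [hq', ZMod.χ₄_int_eq_if_mod_four] at this
    by_contra h
    rw [if_pos (by omega)] at this
    exact sgn_ne_zero _ this.symm
  have p8 : ∀ i, p i % 8 = q i % 8 := fun i => (hpq i).of_dvd h8
  have podd : ∀ i, p i % 2 = 1 := fun i => by have := p8 i; have := qodd i; omega
  have const : ∀ (c : ℤ) (k), 4 * c.natAbs ∣ MM al be → jacobiSym c (p k) = jacobiSym c (q k) :=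
    fun c k h => by
      rw [jacobiSym.mod_right c (Nat.odd_iff.2 (podd k)),
        jacobiSym.mod_right c (Nat.odd_iff.2 (qodd k)), (hpq k).of_dvd h]
  have jq : ∀ i k, i ≠ k → jacobiSym (q i) (q k) = sgn (b k.succ.succ i.succ.succ) := fun i k h => by
    have := h0.jac _ i.succ.succ (ne0 k) (ne1 k) (by simpa using h)
    rwa [hq', hq', Int.natAbs_natCast] at this
  have sq1 : ∀ (c : ℤ) (r : ℕ), r.Prime → ¬(r : ℤ) ∣ c → jacobiSym c r * jacobiSym c r = 1 :=
    fun c r hr h => by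
      rw [← sq]
      exact jacobiSym.sq_one (Int.isCoprime_iff_gcd_eq_one.1
        ((Nat.prime_iff_prime_int.1 hr).coprime_iff_not_dvd.2 h).symm)
  have pne : ∀ i k, i ≠ k → ¬(p k : ℤ) ∣ p i := fun i k h hd => by
    have e1 := (Nat.prime_dvd_prime_iff_eq (hp' k) (hp' i)).1 (Int.natCast_dvd_natCast.1 hd)
    have e2 : q k = q i := ((hpq k).symm.trans (e1 ▸ hpq i)).eq_of_lt_of_lt
      (by exact_mod_cast eq k ▸ (hM k).1) (by exact_mod_cast eq i ▸ (hM i).1)
    have := jq i k h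
    rw [← e2, jacobiSym.mod_left, Int.emod_self, jacobiSym.zero_left (hq k).one_lt] at this
    exact sgn_ne_zero _ this.symm
  let s : Fin n → Fin n → ℤ := fun i k => jacobiSym (p i) (p k) * jacobiSym (q i) (q k)
  have s1 : ∀ i k, s i k = s k i := fun i k => by
    simp only [s]
    rw [← jacobiSym.quadratic_reciprocity_if (podd i) (podd k),
      ← jacobiSym.quadratic_reciprocity_if (qodd i) (qodd k),
      show p i % 4 = q i % 4 by have := p8 i; omega, show p k % 4 = q k % 4 by have := p8 k; omega]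
    split_ifs <;> ring
  have s2 : ∀ i j k, i ≠ k → j ≠ k → s i k = s j k := fun i j k hi hj => by
    have pl : ∀ (X Y : ℤ) (r : Fin n → ℕ), (∀ i, al i * X + be i * Y = r i) →
        jacobiSym (al j * be k - al k * be j) (r k) * jacobiSym (r i) (r k) =
          jacobiSym (al i * be k - al k * be i) (r k) * jacobiSym (r j) (r k) := fun X Y r hr => by
      rw [← jacobiSym.mul_left, ← jacobiSym.mul_left]
      refine jacobiSym.mod_left' (Int.modEq_iff_dvd.2 ⟨al i * be j - al j * be i, ?_⟩)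
      rw [← hr, ← hr, ← hr]
      ring
    have nd : ∀ j, j ≠ k → ¬(q k : ℤ) ∣ al j * be k - al k * be j := fun j hj h => (hM k).2 (by
      rw [eq]
      exact h.trans (Int.natAbs_dvd.1 (Int.natCast_dvd_natCast.2
        ((dvd_mul_left _ _).trans (res_dvd hj)))))
    have a1 := pl x y p hp''
    have a2 := pl x0 y0 q eq
    rw [const _ _ (res_dvd hi), const _ _ (res_dvd hj)] at a1
    have a3 := sq1 _ _ (hq k) (nd i hi)
    have a4 := sq1 _ _ (hq k) (nd j hj)
    simp only [s]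
    linear_combination jacobiSym (al j * be k - al k * be j) (q k) * jacobiSym (q i) (q k) * a1 +
      jacobiSym (al i * be k - al k * be i) (q k) * jacobiSym (p j) (p k) * a2 -
      jacobiSym (p i) (p k) * jacobiSym (q i) (q k) * a4 +
      jacobiSym (p j) (p k) * jacobiSym (q j) (q k) * a3
  have s3 : ∀ i k, i ≠ k → s i k = s i0 i1 := fun i k h => by
    by_cases hk : k = i1
    · rw [hk]
      exact s2 _ _ _ (hk ▸ h) h01
    · rw [s2 i i1 k h (Ne.symm hk), s1, s2 k i0 i1 hk h01]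
  obtain ⟨σ, hσ⟩ : ∃ σ, s i0 i1 = sgn σ := by
    have : s i0 i1 * s i0 i1 = 1 := by
      simp only [s]
      rw [mul_mul_mul_comm, sq1 _ _ (hp' _) (pne _ _ h01), jq _ _ h01, sgn_sq, mul_one]
    rcases mul_self_eq_one_iff.1 this with h | h
    exacts [⟨0, h⟩, ⟨1, h⟩]
  refine ⟨σ, rfl, rfl, fun i hi => ?_, fun k i k0 k1 h => ?_, fun k k0 k1 => ?_, fun i hi => ?_,
    fun i hi => ?_⟩
  · by_cases h1 : i = 1
    · exact ⟨2, Nat.prime_two, by rw [h1]; rfl⟩
    · obtain ⟨i, rfl⟩ := cases2 i hi h1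
      exact ⟨p i, hp' i, hp'' i⟩
  · have h2 := h0.jac k i k0 k1 h
    obtain ⟨k, rfl⟩ := cases2 k k0 k1
    rw [hq', Int.natAbs_natCast] at h2
    rw [show PP al be x y k.succ.succ = p k from hp'' k, Int.natAbs_natCast]
    by_cases i0 : i = 0
    · subst i0
      rw [tw, if_neg (by simp), ← h2]
      exact const (-1) k ((by norm_num : 4 * (-1 : ℤ).natAbs ∣ 8).trans h8)
    by_cases i1 : i = 1
    · subst i1
      rw [tw, if_neg (by simp), ← h2]
      exact const 2 k h8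
    obtain ⟨i, rfl⟩ := cases2 i i0 i1
    have h3 : i ≠ k := by simpa using h
    rw [tw, if_pos ⟨by simp, by simp, h⟩, show PP al be x y i.succ.succ = p i from hp'' i, sgn_add,
      ← hσ, ← s3 i k h3]
    simp only [s]
    rw [jq i k h3]
    linear_combination -jacobiSym (p i) (p k) * sgn_sq (b k.succ.succ i.succ.succ)
  · rw [tw, if_neg (by simp), h0.diag k k0 k1]
  · rw [tw, if_neg (by simp), ← h0.c4 i hi, (ZMod.intCast_eq_intCast_iff _ _ 4).2
      ((hmod i).of_dvd (Int.natCast_dvd_natCast.2 ((by norm_num : 4 ∣ 8).trans h8)))]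
  · rw [tw, if_neg (by simp), ← h0.c8 i hi, (ZMod.intCast_eq_intCast_iff _ _ 8).2
      ((hmod i).of_dvd (Int.natCast_dvd_natCast.2 h8))]

/-- no odd divisor `2 j + 1` with `d ≤ j < d + 2 ^ k` below the square root -/
def nd (m : ℕ) : ℕ → ℕ → Bool
  | 0, d => m < (2 * d + 1) * (2 * d + 1) || m % (2 * d + 1) != 0
  | k + 1, d => m < (2 * d + 1) * (2 * d + 1) || (nd m k d && nd m k (d + 2 ^ k))

theorem nd_spec {m : ℕ} : ∀ k d, nd m k d = true → ∀ j, d ≤ j → j < d + 2 ^ k →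
    (2 * j + 1) * (2 * j + 1) ≤ m → ¬2 * j + 1 ∣ m := by
  intro k
  induction k with
  | zero =>
    intro d h j h1 h2 h3
    obtain rfl : j = d := by omega
    simp only [nd, Bool.or_eq_true, decide_eq_true_eq, bne_iff_ne] at h
    exact fun hd => (h.resolve_left (by omega)) (Nat.mod_eq_zero_of_dvd hd)
  | succ k ih =>
    intro d h j h1 h2 h3
    simp only [nd, Bool.or_eq_true, decide_eq_true_eq, Bool.and_eq_true] at h
    have h4 : (2 * d + 1) * (2 * d + 1) ≤ (2 * j + 1) * (2 * j + 1) := by gcongr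
    obtain ⟨a1, a2⟩ := h.resolve_left (by omega)
    by_cases h5 : j < d + 2 ^ k
    · exact ih d a1 j h1 h5 h3
    · exact ih _ a2 j (by omega) (by rw [pow_succ] at h2; omega) h3

theorem prime_of_nd {m : ℕ} (h1 : 2 < m) (h2 : m % 2 = 1) (h3 : m < 2 ^ 36)
    (h : nd m 17 1 = true) : m.Prime := by
  refine Nat.prime_def_le_sqrt.2 ⟨h1.le, fun t a1 a2 hd => ?_⟩
  have a3 := Nat.le_sqrt.1 a2
  obtain ⟨j, rfl⟩ : ∃ j, t = 2 * j + 1 := ⟨t / 2, by
    by_contra h
    have := (show 2 ∣ t by omega).trans hd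
    omega⟩
  exact nd_spec 17 1 h j (by omega) (by nlinarith) a3 hd

/-- powers modulo `m` -/
def pw (a m : ℕ) : ℕ → ℕ → ℕ
  | 0, _ => 1
  | f + 1, e => pw a m f (e / 2) ^ 2 * a ^ (e % 2) % m

theorem pw_spec (a m : ℕ) : ∀ f e, e < 2 ^ f → ((pw a m f e : ℕ) : ZMod m) = (a : ZMod m) ^ e := by
  intro f
  induction f with
  | zero =>
    intro e h
    obtain rfl : e = 0 := by omega
    simp [pw]
  | succ f ih =>
    intro e h
    rw [pw, ZMod.natCast_mod, Nat.cast_mul, Nat.cast_pow, Nat.cast_pow,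
      ih _ (by rw [pow_succ] at h; omega), ← pow_mul, ← pow_add, Nat.div_add_mod']

theorem jac_of_pw {p : ℕ} (hp : p.Prime) (h1 : 2 < p) (h3 : p < 2 ^ 36) {a : ℤ} {z : ZMod 2}
    (h : pw (a % p).toNat p 36 (p / 2) = if z = 0 then 1 else p - 1) : jacobiSym a p = sgn z := by
  have : Fact p.Prime := ⟨hp⟩
  have e1 := pw_spec (a % p).toNat p 36 (p / 2) (by omega)
  have e2 : (((a % p).toNat : ℕ) : ZMod p) = a := by
    rw [← Int.cast_natCast, Int.toNat_of_nonneg (Int.emod_nonneg _ (by omega)), ZMod.intCast_mod]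
  have e3 : ((jacobiSym a p : ℤ) : ZMod p) = sgn z := by
    rw [← jacobiSym.legendreSym.to_jacobiSym, legendreSym.eq_pow, ← e2, ← e1, h, sgn]
    split_ifs
    · simp
    · simp [hp.one_le]
  have e4 := (ZMod.intCast_eq_intCast_iff_dvd_sub _ _ _).1 e3
  have e5 : sgn z = 1 ∨ sgn z = -1 := mul_self_eq_one_iff.1 (sgn_sq z)
  have := Int.eq_zero_of_abs_lt_dvd e4 (by
    rcases jacobiSym.trichotomy a p with h | h | h <;> rcases e5 with h' | h' <;> rw [h, h'] <;>
      norm_num <;> omega)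
  omega

/-- the checks at the base point -/
def Base (P : Fin (n + 2) → ℤ) (b : Fin (n + 2) → Fin (n + 2) → ZMod 2) : Prop :=
  (∀ k, k ≠ 0 → k ≠ 1 → 2 < P k ∧ P k < 2 ^ 36 ∧ nd (P k).natAbs 17 1 = true ∧ b k k = 0 ∧
    ∀ i, i ≠ k → pw (P i % (P k).natAbs).toNat (P k).natAbs 36 ((P k).natAbs / 2) =
      if b k i = 0 then 1 else (P k).natAbs - 1) ∧
  ∀ i, i ≠ 1 → P i % 2 = 1 ∧ (if P i % 4 = 1 then 1 else -1) = sgn (b 0 i) ∧
    (if P i % 8 = 1 ∨ P i % 8 = 7 then 1 else -1) = sgn (b 1 i)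

theorem Base.pr (h : Base (PP al be x y) b) : Pr (PP al be x y) b := by
  have hp : ∀ k, k ≠ 0 → k ≠ 1 → (PP al be x y k).natAbs.Prime := fun k h0 h1 => by
    obtain ⟨a1, a2, a3, -⟩ := h.1 k h0 h1
    have := (h.2 k h1).1
    exact prime_of_nd (by omega) (by omega) (by omega) a3
  refine ⟨rfl, rfl, fun i hi => ?_, fun k i k0 k1 hi => ?_, fun k k0 k1 => (h.1 k k0 k1).2.2.2.1,
    fun i hi => ?_, fun i hi => ?_⟩
  · by_cases h1 : i = 1
    · exact ⟨2, Nat.prime_two, by rw [h1]; rfl⟩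
    · exact ⟨_, hp i hi h1, by have := (h.1 i hi h1).1; omega⟩
  · obtain ⟨a1, a2, -, -, a3⟩ := h.1 k k0 k1
    exact jac_of_pw (hp k k0 k1) (by omega) (by omega) (a3 i hi)
  · rw [ZMod.χ₄_int_eq_if_mod_four, if_neg (by have := (h.2 i hi).1; omega), (h.2 i hi).2.1]
  · rw [ZMod.χ₈_int_eq_if_mod_eight, if_neg (by have := (h.2 i hi).1; omega), (h.2 i hi).2.2]

/-- the shape of the final statement -/
def Concl (r : ℕ) : Prop :=
  ∃ (n : ℕ) (α β : Fin n → ℤ) (M : ℕ) (x₀ y₀ : ℤ) (i₀ : Fin n), 0 < M ∧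
    (∀ i j, i ≠ j → α i * β j ≠ α j * β i) ∧ (∀ i, Int.gcd (α i) (β i) = 1) ∧
    (∀ i, 0 < α i * x₀ + β i * y₀ ∧ Prime (α i * x₀ + β i * y₀) ∧ ¬α i * x₀ + β i * y₀ ∣ M) ∧
    (∀ p : ℕ, p.Prime → p ≤ n → p ∣ M) ∧
    ∀ x y : ℤ, x ≡ x₀ [ZMOD M] → y ≡ y₀ [ZMOD M] →
      (∀ i, 0 < α i * x + β i * y ∧ Prime (α i * x + β i * y)) →
      ∃ (E : WeierstrassCurve ℚ) (_ : E.IsElliptic), Module.rank ℤ (Pt E ℚ) = r ∧
        (∀ k : ℕ, ∀ s ∈ Sha E, 2 ^ k • s = 0 → s = 0) ∧ α i₀ * x + β i₀ * y ∣ E.j.den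

theorem family {N c : ℤ} {eA eB eD : Fin (n + 2) → ℕ} {md : Bool} {s s' r : ℕ}
    {G : Fin s → Fin (n + 2) → ℕ} {G' : Fin (s' + 1) → Fin (n + 2) → ℕ}
    {Pv : Fin s → List (Fin (n + 2))} {Pv' : Fin (s' + 1) → List (Fin (n + 2))}
    {C C' : ZMod 2 → Fin (n + 2) → List (Bool × Fin (n + 2))} {i0 i1 : Fin n}
    (hb : Base (PP al be x0 y0) b) (hn : n ≤ 13) (h01 : i0 ≠ i1)
    (hi : eB i0.succ.succ = 0 ∧ eD i0.succ.succ ≠ 0)
    (hM : ∀ i, Int.gcd (al i) (be i) = 1 ∧ (∀ j, i ≠ j → al i * be j ≠ al j * be i) ∧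
      al i * x0 + be i * y0 < MM al be ∧ ¬al i * x0 + be i * y0 ∣ MM al be)
    (hS : ∀ σ, Side (tw b σ) N c eA eB eD md ∧ Cert (rowsE (tw b σ) eB eD md) G Pv (C σ) ∧
      Cert (rowsD (tw b σ) eB eD md) G' Pv' (C' σ))
    (h4 : N * ev (PP al be x0 y0) eA % 4 = 1 ∧ (md = true → N * ev (PP al be x0 y0) eA % 8 = 1))
    (h0 : G' 0 = eD) (hr : r + 1 = s + s')
    (hD : ∀ x y, (N * ev (PP al be x y) eA) ^ 2 - 4 * ev (PP al be x y) eB = ev (PP al be x y) eD)
    (hG : ∀ x y l, SolZ (N * ev (PP al be x y) eA) (ev (PP al be x y) eB) (ev (PP al be x y) (G l)))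
    (hG' : ∀ x y (l : Fin s'), SolZ (-2 * (N * ev (PP al be x y) eA)) (ev (PP al be x y) eD)
      (ev (PP al be x y) (G' l.succ))) : Concl r := by
  have hP := hb.pr
  refine ⟨n, al, be, MM al be, x0, y0, i0, ?_, fun i => (hM i).2.1, fun i => (hM i).1, fun i => ?_,
    fun p hp h => ?_, fun x y hx hy hp => ?_⟩
  · exact Nat.pos_of_ne_zero fun h => (hM i0).2.2.2 (by simp [h])
  · obtain ⟨p, hp, e⟩ := hP.prime i.succ.succ (Fin.succ_ne_zero _)
    have e' : al i * x0 + be i * y0 = p := e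
    exact ⟨by rw [e']; exact_mod_cast hp.pos, e' ▸ Nat.prime_iff_prime_int.1 hp, (hM i).2.2.2⟩
  · refine Dvd.dvd.mul_right ?_ _
    have : p ≤ 13 := h.trans hn
    interval_cases p <;> first | decide | exact absurd hp (by decide)
  obtain ⟨σ, hσ⟩ := pr_of hP h01 (fun i => (hM i).2.2) hx hy hp
  have h8 : N * ev (PP al be x y) eA ≡ N * ev (PP al be x0 y0) eA [ZMOD 8] :=
    (Int.ModEq.prod fun i _ => ((PP_mod hx hy i).of_dvd (Int.natCast_dvd_natCast.2
      (Dvd.dvd.mul_right (by norm_num : 8 ∣ 240240) _))).pow _).mul_left _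
  unfold Int.ModEq at h8
  obtain ⟨a1, a2, a3⟩ := hσ.main (hS σ).1 rfl (hD x y) (by omega)
    (fun h => by rw [h8]; exact h4.2 h) h0 (hG x y) (hG' x y) (hS σ).2.1 (hS σ).2.2 hr
  refine ⟨_, a1, a2, a3, ?_⟩
  have k0 : i0.succ.succ ≠ 0 := Fin.succ_ne_zero _
  have b1 := hσ.not_dvd k0 hi.1
  have b2 : PP al be x y i0.succ.succ ∣ ev (PP al be x y) eD := by
    rw [ev_split i0.succ.succ]
    exact (dvd_pow_self _ hi.2).mul_right _
  have b3 := hσ.not_dvd (e := Pi.single 1 4) k0 (by simp [Fin.succ_succ_ne_one])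
  have b4 := hσ.ev_ne eB
  have b5 := hσ.ev_ne eD
  rw [ev_single, hσ.two] at b3
  rw [← hD] at b2 b5
  change ¬al i0 * x + be i0 * y ∣ _ at b1 b3
  change al i0 * x + be i0 * y ∣ _ at b2
  generalize N * ev (PP al be x y) eA = A, ev (PP al be x y) eB = B at *
  have hq := (hp i0).2
  have e1 : ((EE A B).j.den : ℚ) * (2 ^ 4 * (A ^ 2 - 4 * B + B)) ^ 3 =
      (EE A B).j.num * (16 * B ^ 2 * (A ^ 2 - 4 * B)) := by
    have e2 : (EE A B).Δ = 16 * B ^ 2 * (A ^ 2 - 4 * B) := by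
      simp [WeierstrassCurve.Δ, WeierstrassCurve.b₂, WeierstrassCurve.b₄, WeierstrassCurve.b₆,
        WeierstrassCurve.b₈]
      ring
    have e3 : (EE A B).c₄ = 2 ^ 4 * (A ^ 2 - 4 * B + B) := by
      simp [WeierstrassCurve.c₄, WeierstrassCurve.b₂, WeierstrassCurve.b₄]
      ring
    have e5 : (EE A B).c₄ ^ 3 = (EE A B).j * (EE A B).Δ := by
      rw [WeierstrassCurve.j, ← WeierstrassCurve.coe_Δ', mul_right_comm, Units.inv_mul, one_mul]
    rw [← Rat.mul_den_eq_num, ← e2, ← e3, e5]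
    ring
  have e4 : ((EE A B).j.den : ℤ) * (2 ^ 4 * (A ^ 2 - 4 * B + B)) ^ 3 =
      (EE A B).j.num * (16 * B ^ 2 * (A ^ 2 - 4 * B)) := by exact_mod_cast e1
  refine (hq.dvd_or_dvd (e4 ▸ (b2.mul_left _).mul_left _)).resolve_right fun h => ?_
  exact (hq.dvd_or_dvd (hq.dvd_of_dvd_pow h)).elim b3 fun h => b1 ((dvd_add_right b2).1 h)

end Pool.Agent.MP_a43263_nt.Two

end MrgPart1

-- marker of a merged file
example : 731051 + 649005 = 731051 + 649005 := rfl
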